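import Pool.Agent.Lib.MP_4d1bc1_mp.Kv.RedDef

set_option autoImplicit false
set_option linter.unusedSimpArgs false

/-! Row kv-redD: total derivatives of the reduced variables. -/

namespace Pool.Agent.Lib.MP_4d1bc1_mp.Kv

open Finset Polynomial

universe u

variable {F : Type u} [Field F] [Algebra ℝ F]

theorem rZ_ne (J : Jet F) {a : F} (ca : J.IsC a) (a0 : a ≠ 0) : rZ J a ≠ 0 := by
  intro h
  have h1 : J.pd 1 1 (rZ J a) = a := by
    have e1 : J.pd 1 1 (1 : F) = 0 := Derivation.map_one_eq_zero _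
    have e2 : J.pd 1 1 (J.u 1 1) = 1 := by rw [J.pd_u]; simp
    rw [rZ, map_add, e1, der_mul, ca.pd, e2]
    ring
  rw [h, map_zero] at h1
  exact a0 h1.symm

variable {J : Jet F} {a κ w : F}

private theorem redD_Z (R : Red J a κ w) : J.D (rZ J a) = 2 * a * J.u 1 2 := by
  have e1 : J.D (1 : F) = 0 := Derivation.map_one_eq_zero _
  have e2 : J.D (J.u 1 1) = J.u 2 1 + J.u 1 2 := J.D_u 1 1
  rw [rZ, map_add, e1, der_mul, R.ca.D, e2, J.u_symm 2 1]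
  ring

private theorem redD_z (R : Red J a κ w) :
    J.D (rZ J a)⁻¹ = -(2 * a * J.u 1 2 * ((rZ J a)⁻¹ * (rZ J a)⁻¹)) := by
  have h0 := rZ_ne J R.ca R.a0
  have h1 : J.D (rZ J a * (rZ J a)⁻¹) = 0 := by
    rw [mul_inv_cancel₀ h0]
    exact Derivation.map_one_eq_zero _
  rw [der_mul, redD_Z R] at h1
  have h2 : rZ J a * (rZ J a)⁻¹ = 1 := mul_inv_cancel₀ h0
  linear_combination (rZ J a)⁻¹ * h1 - J.D (rZ J a)⁻¹ * h2

/-- the relation used in all the identities -/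
private theorem redD_rel (R : Red J a κ w) :
    a * J.u 1 1 * (rZ J a)⁻¹ + a * a⁻¹ * (rZ J a)⁻¹ = 1 := by
  have h0 := rZ_ne J R.ca R.a0
  have h1 : rZ J a * (rZ J a)⁻¹ = 1 := mul_inv_cancel₀ h0
  have h2 : a * a⁻¹ = 1 := mul_inv_cancel₀ R.a0
  have h3 : rZ J a = 1 + a * J.u 1 1 := rfl
  have h4 : (1 + a * J.u 1 1) * (rZ J a)⁻¹ = 1 := h3 ▸ h1
  linear_combination h4 + (rZ J a)⁻¹ * h2

private theorem redD_ite (R : Red J a κ w) (i : ℕ) : J.D (if i = 2 then a⁻¹ else 0) = 0 := by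
  split_ifs
  · exact R.ca.inv.D
  · exact map_zero _

private theorem redD_Y (J : Jet F) : J.D (J.u 0 1) = J.u 1 1 + J.u 0 2 := J.D_u 0 1

/-- the derivative of `β_i` -/
private theorem redD_b (R : Red J a κ w) (i : ℕ) : J.D (rb J a i) =
    J.u 1 i + J.u 0 (i + 1) - a * (J.u 1 1 + J.u 0 2) * J.u 1 i * (rZ J a)⁻¹
      - a * J.u 0 1 * (J.u 2 i + J.u 1 (i + 1)) * (rZ J a)⁻¹
      + 2 * a * a * J.u 0 1 * J.u 1 i * J.u 1 2 * ((rZ J a)⁻¹ * (rZ J a)⁻¹) := by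
  have e1 : J.D (J.u 0 i) = J.u 1 i + J.u 0 (i + 1) := by
    have := J.D_u 0 i
    rwa [zero_add] at this
  have e2 : J.D (J.u 1 i) = J.u 2 i + J.u 1 (i + 1) := J.D_u 1 i
  rw [rb, map_sub, map_sub, redD_ite R, der_mul, der_mul, der_mul, R.ca.D, redD_Y, redD_z R, e1, e2]
  ring

theorem Red.D_w (R : Red J a κ w) : J.D w = 2 * rM J a w * rp J a w 2 := by
  rcases R.hw with hw | hw
  · have e : rM J a w = 0 := by rw [rM, hw, mul_zero]
    rw [e, mul_zero, zero_mul, hw, map_zero]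
  · have h1 := congrArg J.D hw
    have e0 : J.D (1 : F) = 0 := Derivation.map_one_eq_zero _
    have e1 : J.D (J.u 0 0) = 2 * J.u 0 1 := by
      have := J.D_u 0 0
      rw [zero_add, J.u_symm 1 0] at this
      rw [this]
      ring
    rw [e0, der_mul, map_sub, map_add, e1, R.cκ.D, der_mul, der_mul, R.ca.D, pow_two, der_mul,
      redD_Y, redD_z R] at h1
    have hr := redD_rel R
    have hb : rb J a 2 = J.u 0 2 - a⁻¹ - a * J.u 0 1 * J.u 1 2 * (rZ J a)⁻¹ := by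
      rw [rb, if_pos rfl]
    rw [rM, rp, hb]
    rw [pow_two] at hw
    linear_combination w * h1 - J.D w * hw + 2 * J.u 0 1 * w ^ 2 * hr

private theorem redD_b2 (J : Jet F) (a : F) :
    rb J a 2 = J.u 0 2 - a⁻¹ - a * J.u 0 1 * J.u 1 2 * (rZ J a)⁻¹ := by
  rw [rb, if_pos rfl]

private theorem redD_bs (J : Jet F) (a : F) {i : ℕ} (hi : 2 ≤ i) :
    rb J a (i + 1) = J.u 0 (i + 1) - a * J.u 0 1 * J.u 1 (i + 1) * (rZ J a)⁻¹ := by
  rw [rb, if_neg (by omega), sub_zero]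

theorem Red.D_M (R : Red J a κ w) : J.D (rM J a w)
    = w - rM J a w * ro J a w 2 + rE J a w * rp J a w 2 := by
  have hr := redD_rel R
  have e1 := R.D_w
  have e2 : J.D (rM J a w) = a * (J.u 1 1 + J.u 0 2) * (rZ J a)⁻¹ * w
      - a * J.u 0 1 * (2 * a * J.u 1 2 * ((rZ J a)⁻¹ * (rZ J a)⁻¹)) * w
      + a * J.u 0 1 * (rZ J a)⁻¹ * J.D w := by
    rw [rM, der_mul, der_mul, der_mul, R.ca.D, redD_Y, redD_z R]
    ring
  rw [e2, e1]
  simp only [rM, ro, rE, rp, redD_b2]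
  linear_combination w * hr

theorem Red.D_E (R : Red J a κ w) : J.D (rE J a w)
    = 2 * rM J a w - 2 * rE J a w * ro J a w 2 := by
  have hr := redD_rel R
  have e0 : J.D (1 : F) = 0 := Derivation.map_one_eq_zero _
  have e1 := R.D_w
  have e2 : J.D (rE J a w) = -(a * (2 * a * J.u 1 2 * ((rZ J a)⁻¹ * (rZ J a)⁻¹)) *
        (1 + a * J.u 0 1 ^ 2 * (rZ J a)⁻¹ * w))
      + a * (rZ J a)⁻¹ * (2 * a * J.u 0 1 * (J.u 1 1 + J.u 0 2) * (rZ J a)⁻¹ * w
        - a * J.u 0 1 ^ 2 * (2 * a * J.u 1 2 * ((rZ J a)⁻¹ * (rZ J a)⁻¹)) * w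
        + a * J.u 0 1 ^ 2 * (rZ J a)⁻¹ * J.D w) := by
    rw [rE, pow_two, der_mul, der_mul, map_add, e0, der_mul, der_mul, der_mul, der_mul, R.ca.D,
      redD_Y, redD_z R]
    ring
  rw [e2, e1]
  simp only [rM, ro, rE, rp, redD_b2]
  linear_combination 2 * a * J.u 0 1 * (rZ J a)⁻¹ * w * hr

theorem Red.D_p (R : Red J a κ w) {i : ℕ} (hi : 2 ≤ i) : J.D (rp J a w i)
    = rp J a w (i + 1) - rM J a w * rh J a w i 2 - rp J a w 2 * ro J a w i := by
  have hr := redD_rel R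
  have e1 : J.D (rp J a w i) = J.D w * rb J a i + w * J.D (rb J a i) := by
    rw [rp, der_mul]
  rw [e1, R.D_w, redD_b R]
  simp only [rM, ro, rh, rp, redD_b2, redD_bs J a hi, J.u_symm i 2]
  linear_combination -(w * J.u 1 i) * hr

theorem Red.D_o (R : Red J a κ w) {i : ℕ} (hi : 2 ≤ i) : J.D (ro J a w i)
    = ro J a w (i + 1) + rE J a w * rh J a w i 2 - rp J a w i
      - ro J a w i * ro J a w 2 := by
  have hr := redD_rel R
  have e2 : J.D (J.u 1 i) = J.u 2 i + J.u 1 (i + 1) := J.D_u 1 i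
  have e1 : J.D (ro J a w i) =
      -(a * (2 * a * J.u 1 2 * ((rZ J a)⁻¹ * (rZ J a)⁻¹)) * (J.u 1 i - J.u 0 1 * rp J a w i))
      + a * (rZ J a)⁻¹ * (J.u 2 i + J.u 1 (i + 1) - (J.u 1 1 + J.u 0 2) * rp J a w i
        - J.u 0 1 * J.D (rp J a w i)) := by
    rw [ro, der_mul, der_mul, map_sub, der_mul, R.ca.D, redD_Y, redD_z R, e2]
    ring
  rw [e1, R.D_p hi]
  simp only [rM, rE, ro, rh, rp, redD_b2, redD_bs J a hi, J.u_symm i 2]
  linear_combination -(w * rb J a i) * hr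

theorem Red.D_h (R : Red J a κ w) {i j : ℕ} (hi : 2 ≤ i) (hj : 2 ≤ j) : J.D (rh J a w i j)
    = rh J a w (i + 1) j + rh J a w i (j + 1) - rh J a w i 2 * ro J a w j
      - rh J a w j 2 * ro J a w i := by
  have hr := redD_rel R
  have e2 : J.D (J.u 1 i) = J.u 2 i + J.u 1 (i + 1) := J.D_u 1 i
  have e3 : J.D (J.u 1 j) = J.u 2 j + J.u 1 (j + 1) := J.D_u 1 j
  have e1 : J.D (rh J a w i j) = J.u (i + 1) j + J.u i (j + 1)
      + a * (2 * a * J.u 1 2 * ((rZ J a)⁻¹ * (rZ J a)⁻¹)) * J.u 1 i * J.u 1 j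
      - a * (rZ J a)⁻¹ * ((J.u 2 i + J.u 1 (i + 1)) * J.u 1 j
        + J.u 1 i * (J.u 2 j + J.u 1 (j + 1)))
      - J.D w * rb J a i * rb J a j
      - w * (J.D (rb J a i) * rb J a j + rb J a i * J.D (rb J a j)) := by
    rw [rh, map_sub, map_sub, J.D_u, der_mul, der_mul, der_mul, der_mul, der_mul, R.ca.D,
      redD_z R, e2, e3]
    ring
  rw [e1, R.D_w, redD_b R, redD_b R]
  simp only [rM, ro, rh, rp, redD_b2, redD_bs J a hi, redD_bs J a hj, J.u_symm i 2, J.u_symm j 2]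
  linear_combination (w * rb J a j * J.u 1 i + w * rb J a i * J.u 1 j) * hr

theorem rh_symm (i j : ℕ) : rh J a w i j = rh J a w j i := by
  rw [rh, rh, J.u_symm i j]; ring

end Pool.Agent.Lib.MP_4d1bc1_mp.Kv
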