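import Pool.Agent.Lib.MP_4d1bc1_mp.Kv.Theta

set_option autoImplicit false
set_option linter.unusedSimpArgs false

/-! Row kv-coef: the coefficients of the commutation relation. -/

namespace Pool.Agent.Lib.MP_4d1bc1_mp.Kv

open Finset Polynomial

universe u

variable {F : Type u} [Field F] [Algebra ℝ F] (J : Jet F)

theorem coef_iter_X_pow (a n : ℕ) : J.DM^[a] (X ^ n) = X ^ (a + n) := by
  induction a with
  | zero => simp
  | succ a ih => rw [Function.iterate_succ_apply', ih, J.DM_X_pow]; congr 1; ring

theorem coef_iter_zero (f : F) (a : ℕ) : (J.DM^[a] (C f * X)).coeff 0 = 0 := by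
  induction a with
  | zero => simp
  | succ a ih => rw [Function.iterate_succ_apply', J.coeff_DM_zero, ih, map_zero]

theorem coef_iter_succ (f : F) (a : ℕ) : ∀ n, (J.DM^[a] (C f * X)).coeff (n + 1)
    = ((a.choose n : ℕ) : F) * J.D^[a - n] f := by
  induction a with
  | zero =>
    intro n
    cases n with
    | zero => simp
    | succ n => simp [coeff_C_mul, coeff_X]
  | succ a ih =>
    intro n
    rw [Function.iterate_succ_apply', J.coeff_DM_succ, ih n]
    cases n with
    | zero =>
      rw [coef_iter_zero]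
      simp only [Nat.choose_zero_right, Nat.cast_one, one_mul, Nat.sub_zero, add_zero]
      rw [Function.iterate_succ_apply']
    | succ n =>
      rw [ih n, der_const_mul _ (Derivation.map_natCast _ _), Nat.choose_succ_succ]
      push_cast
      rcases lt_trichotomy a n with h | h | h
      · rw [Nat.choose_eq_zero_of_lt h, Nat.choose_eq_zero_of_lt (by omega : a < n + 1)]
        simp
      · subst h
        rw [Nat.choose_eq_zero_of_lt (by omega : a < a + 1)]
        simp
      · have e2 : a - n = (a - (n + 1)) + 1 := by omega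
        have e3 : J.D (J.D^[a - (n + 1)] f) = J.D^[a - n] f := by
          rw [e2, Function.iterate_succ_apply']
        rw [e3]
        ring

theorem coef_DM3 (G : F[X]) (k : ℕ) : (J.DM (J.DM (J.DM G))).coeff (k + 2)
    = J.D (J.D (J.D (G.coeff (k + 2)))) + 3 * J.D (J.D (G.coeff (k + 1)))
      + 3 * J.D (G.coeff k) + (if k = 0 then 0 else G.coeff (k - 1)) := by
  rw [show k + 2 = (k + 1) + 1 from rfl]
  cases k with
  | zero =>
    simp only [J.coeff_DM_succ, J.coeff_DM_zero, map_add, if_true]
    ring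
  | succ k =>
    simp only [J.coeff_DM_succ, map_add, Nat.succ_ne_zero, if_false, Nat.add_sub_cancel]
    ring

theorem coef_evoV {f : F} {G : F[X]} {m : ℕ} (hG : ∀ i, m < i → G.coeff i = 0) (k : ℕ) :
    (J.evoV (Jet.K3 f) G).coeff (k + 2) = J.evo (Jet.K3 f) (G.coeff (k + 2))
      + (if k = 0 then 0 else G.coeff (k - 1)) + f * G.coeff (k + 1)
      + ∑ i ∈ Ico (k + 2) (m + 1), ((i.choose (i - (k + 2) + 1) : ℕ) : F)
          * (G.coeff i * J.D^[i - (k + 2) + 1] f) := by
  rw [J.evoV_apply, coeff_add, coeff_cm]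
  have hs : G.support ⊆ range (m + 1) := by
    intro i hi
    rw [mem_support_iff] at hi
    rw [mem_range]
    by_contra h
    exact hi (hG i (by omega))
  rw [Polynomial.sum_eq_of_subset _ (fun i => by simp) hs, finsetSum_coeff]
  have e1 : ∀ i, (C (G.coeff i) * J.DM^[i] (Jet.K3 f)).coeff (k + 2)
      = (if i + 1 = k then G.coeff i else 0)
        + ((i.choose (k + 1) : ℕ) : F) * (G.coeff i * J.D^[i - (k + 1)] f) := by
    intro i
    rw [coeff_C_mul, Jet.K3, J.iter_add, coef_iter_X_pow, coeff_add, coeff_X_pow,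
      show k + 2 = (k + 1) + 1 from rfl, coef_iter_succ, mul_add]
    congr 1
    · by_cases h : i + 1 = k
      · rw [if_pos h, if_pos (by omega), mul_one]
      · rw [if_neg h, if_neg (by omega), mul_zero]
    · ring
  rw [sum_congr rfl fun i _ => e1 i, sum_add_distrib]
  have e2 : ∑ i ∈ range (m + 1), (if i + 1 = k then G.coeff i else 0)
      = if k = 0 then 0 else G.coeff (k - 1) := by
    cases k with
    | zero => simp
    | succ k =>
      simp only [Nat.add_right_cancel_iff]
      rw [sum_ite_eq' (range (m + 1)) k]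
      simp only [mem_range, Nat.add_sub_cancel, Nat.succ_ne_zero, if_false]
      split_ifs with h
      · rfl
      · exact (hG k (by omega)).symm
  have e3 : ∑ i ∈ range (m + 1), ((i.choose (k + 1) : ℕ) : F)
        * (G.coeff i * J.D^[i - (k + 1)] f)
      = f * G.coeff (k + 1)
        + ∑ i ∈ Ico (k + 2) (m + 1), ((i.choose (i - (k + 2) + 1) : ℕ) : F)
          * (G.coeff i * J.D^[i - (k + 2) + 1] f) := by
    have e4 : ∑ i ∈ range (m + 1), ((i.choose (k + 1) : ℕ) : F)
          * (G.coeff i * J.D^[i - (k + 1)] f)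
        = ∑ i ∈ Ico (k + 1) (m + 1), ((i.choose (k + 1) : ℕ) : F)
          * (G.coeff i * J.D^[i - (k + 1)] f) := by
      symm
      apply sum_subset
      · intro i hi
        rw [mem_Ico] at hi
        rw [mem_range]
        omega
      · intro i hi hi'
        rw [mem_range] at hi
        rw [mem_Ico] at hi'
        rw [Nat.choose_eq_zero_of_lt (by omega)]
        simp
    rw [e4]
    by_cases h : k + 1 < m + 1
    · rw [sum_eq_sum_Ico_succ_bot h]
      congr 1
      · simp; ring
      · refine sum_congr rfl fun i hi => ?_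
        rw [mem_Ico] at hi
        have e5 : i - (k + 2) + 1 = i - (k + 1) := by omega
        rw [e5, Nat.choose_symm (by omega : k + 1 ≤ i)]
    · rw [Ico_eq_empty (by omega), Ico_eq_empty (by omega), hG (k + 1) (by omega)]
      simp
  rw [e2, e3]
  ring

/-- the coefficient of `X^(k+2)` -/
theorem coef_eq {f : F} {G : F[X]} (h : J.evoV (Jet.K3 f) G = J.evoV G (Jet.K3 f)) {m : ℕ}
    (hG : ∀ i, m < i → G.coeff i = 0) (k : ℕ) :
    J.evo (Jet.K3 f) (G.coeff (k + 2)) - J.D (J.D (J.D (G.coeff (k + 2))))
      - 3 * J.D (J.D (G.coeff (k + 1))) - 3 * J.D (G.coeff k) - f * J.D (G.coeff (k + 2))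
      + ∑ i ∈ Ico (k + 2) (m + 1), ((i.choose (i - (k + 2) + 1) : ℕ) : F)
          * (G.coeff i * J.D^[i - (k + 2) + 1] f) = 0 := by
  have h1 : (J.evoV (Jet.K3 f) G).coeff (k + 2) = (J.evoV G (Jet.K3 f)).coeff (k + 2) := by
    rw [h]
  rw [coef_evoV J hG k, J.evoV_K3, coeff_add, coeff_add, coef_DM3, coeff_C_mul, coeff_C_mul,
    coeff_X, if_neg (show ¬ (1 = k + 2) by omega), mul_zero, show k + 2 = (k + 1) + 1 from rfl,
    J.coeff_DM_succ] at h1
  linear_combination h1

/-- the same, counted from the top: `c s = G.coeff (m - s)` -/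
theorem coef_top {f : F} {G : F[X]} (h : J.evoV (Jet.K3 f) G = J.evoV G (Jet.K3 f)) {m : ℕ}
    (hG : ∀ i, m < i → G.coeff i = 0) (hm : 8 ≤ m) :
    J.D (G.coeff m) = 0 ∧ J.D (G.coeff (m - 1)) + J.D (J.D (G.coeff m)) = 0 ∧
    ∀ s, s ≤ 6 → J.evo (Jet.K3 f) (G.coeff (m - s)) - J.D (J.D (J.D (G.coeff (m - s))))
      - 3 * J.D (J.D (G.coeff (m - (s + 1)))) - 3 * J.D (G.coeff (m - (s + 2)))
      - f * J.D (G.coeff (m - s))
      + ∑ a ∈ range (s + 1), (((m - a).choose (s - a + 1) : ℕ) : F)
          * (G.coeff (m - a) * J.D^[s - a + 1] f) = 0 := by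
  have hc := J.charZero
  refine ⟨?_, ?_, ?_⟩
  · have h1 := coef_eq J h hG m
    rw [hG (m + 2) (by omega), hG (m + 1) (by omega), Ico_eq_empty (by omega)] at h1
    simp only [map_zero, mul_zero, sum_empty, add_zero, sub_zero, zero_sub, neg_eq_zero,
      mul_eq_zero, OfNat.ofNat_ne_zero, false_or] at h1
    exact h1
  · obtain ⟨n, rfl⟩ : ∃ n, m = n + 1 := ⟨m - 1, by omega⟩
    have h1 := coef_eq J h hG n
    rw [hG (n + 2) (by omega), Ico_eq_empty (by omega)] at h1
    simp only [map_zero, mul_zero, sum_empty, add_zero, sub_zero, zero_sub] at h1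
    rw [Nat.add_sub_cancel]
    have h3 : (3 : F) ≠ 0 := by norm_num
    apply mul_left_cancel₀ h3
    linear_combination -h1
  · intro s hs
    obtain ⟨k, hk⟩ : ∃ k, m = k + 2 + s := ⟨m - s - 2, by omega⟩
    have h1 := coef_eq J h hG k
    have e1 : m - s = k + 2 := by omega
    have e2 : m - (s + 1) = k + 1 := by omega
    have e3 : m - (s + 2) = k := by omega
    rw [e1, e2, e3]
    have e4 : ∑ a ∈ range (s + 1), (((m - a).choose (s - a + 1) : ℕ) : F)
          * (G.coeff (m - a) * J.D^[s - a + 1] f)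
        = ∑ i ∈ Ico (k + 2) (m + 1), ((i.choose (i - (k + 2) + 1) : ℕ) : F)
          * (G.coeff i * J.D^[i - (k + 2) + 1] f) := by
      apply sum_bij' (fun a _ => m - a) (fun i _ => m - i)
      · intro a ha
        rw [mem_range] at ha
        rw [mem_Ico]
        omega
      · intro i hi
        rw [mem_Ico] at hi
        rw [mem_range]
        omega
      · intro a ha
        rw [mem_range] at ha
        omega
      · intro i hi
        rw [mem_Ico] at hi
        omega
      · intro a ha
        rw [mem_range] at ha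
        have e5 : m - a - (k + 2) = s - a := by omega
        rw [e5]
    rw [e4]
    exact h1

end Pool.Agent.Lib.MP_4d1bc1_mp.Kv
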