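import Pool.Agent.Lib.MP_4d1bc1_mp.Kv.RedDef

set_option autoImplicit false
set_option linter.unusedSimpArgs false

/-! Row kv-N1: case `f_r ≠ 0`, first consequences. -/

namespace Pool.Agent.Lib.MP_4d1bc1_mp.Kv

open Finset Polynomial

universe u

variable {F : Type u} [Field F] [Algebra ℝ F] {J : Jet F}

private theorem RowN1_add {g h : F} (hg : J.Six g) (hh : J.Six h) : J.Six (g + h) := by
  intro a ha; rw [map_add, hg a ha, hh a ha, add_zero]

private theorem RowN1_sub {g h : F} (hg : J.Six g) (hh : J.Six h) : J.Six (g - h) := by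
  intro a ha; rw [map_sub, hg a ha, hh a ha, sub_zero]

private theorem RowN1_mul {g h : F} (hg : J.Six g) (hh : J.Six h) : J.Six (g * h) := by
  intro a ha; rw [der_mul, hg a ha, hh a ha, zero_mul, mul_zero, add_zero]

private theorem RowN1_c {g : F} (hg : J.IsC g) : J.Six g := fun a _ => hg a

private theorem RowN1_u {i j : ℕ} (hi : i ≤ 2) (hj : j ≤ 2) : J.Six (J.u i j) := by
  intro a ha
  rw [Jet.u, J.P_U, if_neg]
  rintro rfl
  have : (mk2 i j).1.2 = max i j := rfl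
  rw [this] at ha
  omega

private theorem RowN1_pd {f : F} (hf : J.Six f) (i j : ℕ) : J.Six (J.pd i j f) := hf.P _

/-- the equations `(P1)` with an unknown `λ`, and `(P2)` -/
theorem N1_aux {f a : F} (hf : J.Six f) (ha : J.IsC a) (a0 : a ≠ 0)
    (hr : J.pd 2 2 f = -(3 / 2) * a) (h0 : J.cosL f (J.v0 f) = 0) :
    ∃ k l : F, J.IsC k ∧ J.FXYZ l ∧ J.cA f = 3 * a * f + a * J.cJ f + k
      ∧ rZ J a * J.pd 1 2 f + a * J.u 0 1 * J.pd 0 2 f = l + 3 * a ^ 2 * J.u 1 2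
      ∧ 2 * rZ J a * J.pd 1 1 f + a * J.u 0 1 * J.pd 0 1 f - 2 * (1 - a * J.u 0 2) * J.pd 0 2 f
          + 3 * a * J.u 1 2 * J.pd 1 2 f = 4 * a * f + 6 * a ^ 2 * J.u 2 2 + k + J.D l := by
  have := J.charZero
  have h2c : J.IsC (2 : F) := Jet.isC_ofNat 2
  have h3c : J.IsC (3 : F) := Jet.isC_ofNat 3
  have h4c : J.IsC (4 : F) := Jet.isC_ofNat 4
  have h6c : J.IsC (6 : F) := Jet.isC_ofNat 6
  have hα : J.IsC (J.pd 2 2 f) := by
    rw [hr]
    exact ((h3c.div h2c).neg).mul ha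
  have hI := Jet.eq_I hf hα h0
  rw [Jet.cE_eq hf hα, hr] at hI
  have hk : J.IsC (J.cA f - 3 * a * f - a * J.cJ f) := by
    apply Jet.isC_of_D_zero
    rw [map_sub, map_sub, (h3c.mul ha).D_mul, ha.D_mul]
    linear_combination (1 / 3) * hI
  obtain ⟨k, hkd⟩ : ∃ k, k = J.cA f - 3 * a * f - a * J.cJ f := ⟨_, rfl⟩
  rw [← hkd] at hk
  obtain ⟨l, hld⟩ : ∃ l, l = J.pd 1 2 f + a * J.cK f := ⟨_, rfl⟩
  have hl2 : l = rZ J a * J.pd 1 2 f + a * J.u 0 1 * J.pd 0 2 f - 3 * a ^ 2 * J.u 1 2 := by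
    rw [hld, rZ, Jet.cK, hr]
    ring
  have hDl : J.D l = J.D (J.pd 1 2 f) + a * J.D (J.cK f) := by
    rw [hld, map_add, ha.D_mul]
  have hP2 : 2 * rZ J a * J.pd 1 1 f + a * J.u 0 1 * J.pd 0 1 f
      - 2 * (1 - a * J.u 0 2) * J.pd 0 2 f
      + 3 * a * J.u 1 2 * J.pd 1 2 f = 4 * a * f + 6 * a ^ 2 * J.u 2 2 + k + J.D l := by
    rw [hDl, hkd, Jet.cA, Jet.cJ, rZ, hr]
    ring
  have sa : J.Six a := RowN1_c ha
  have sZ : J.Six (rZ J a) :=
    RowN1_add (RowN1_c Jet.isC_one) (RowN1_mul sa (RowN1_u (by norm_num) (by norm_num)))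
  have sl : J.Six l := by
    rw [hl2]
    refine RowN1_sub (RowN1_add (RowN1_mul sZ (RowN1_pd hf _ _)) (RowN1_mul (RowN1_mul sa
      (RowN1_u (by norm_num) (by norm_num))) (RowN1_pd hf _ _)))
      (RowN1_mul (RowN1_c (h3c.mul (ha.pow 2))) (RowN1_u (by norm_num) (by norm_num)))
  have sDl : J.Six (J.D l) := by
    have e : J.D l = 2 * rZ J a * J.pd 1 1 f + a * J.u 0 1 * J.pd 0 1 f
      - 2 * (1 - a * J.u 0 2) * J.pd 0 2 f
      + 3 * a * J.u 1 2 * J.pd 1 2 f - 4 * a * f - 6 * a ^ 2 * J.u 2 2 - k := by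
      linear_combination -hP2
    rw [e]
    refine RowN1_sub (RowN1_sub (RowN1_sub (RowN1_add (RowN1_sub (RowN1_add ?_ ?_) ?_) ?_) ?_) ?_)
      (RowN1_c hk)
    · exact RowN1_mul (RowN1_mul (RowN1_c h2c) sZ) (RowN1_pd hf _ _)
    · exact RowN1_mul (RowN1_mul sa (RowN1_u (by norm_num) (by norm_num))) (RowN1_pd hf _ _)
    · exact RowN1_mul (RowN1_mul (RowN1_c h2c) (RowN1_sub (RowN1_c Jet.isC_one)
        (RowN1_mul sa (RowN1_u (by norm_num) (by norm_num))))) (RowN1_pd hf _ _)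
    · exact RowN1_mul (RowN1_mul (RowN1_c (h3c.mul ha)) (RowN1_u (by norm_num) (by norm_num)))
        (RowN1_pd hf _ _)
    · exact RowN1_mul (RowN1_c (h4c.mul ha)) hf
    · exact RowN1_mul (RowN1_c (h6c.mul (ha.pow 2))) (RowN1_u (by norm_num) (by norm_num))
  have l3 : ∀ i, J.pd i 3 l = 0 := fun i => sl.pd_eq_zero (Or.inr (by norm_num))
  have lD3 : ∀ i, J.pd i 3 (J.D l) = 0 := fun i => sDl.pd_eq_zero (Or.inr (by norm_num))
  have l02 : J.pd 0 2 l = 0 := by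
    have h := J.pd_D_0_3 l
    rw [lD3, l3, map_zero, zero_add] at h
    exact h.symm
  have l12 : J.pd 1 2 l = 0 := by
    have h := J.pd_D_1_3 l
    rw [lD3, l3, l3, map_zero, zero_add, zero_add] at h
    exact h.symm
  have l22 : J.pd 2 2 l = 0 := by
    have h := J.pd_D_2_3 l
    rw [lD3, l3, l3, map_zero, zero_add, zero_add] at h
    have h2 : (2 : F) ≠ 0 := two_ne_zero
    exact (mul_eq_zero.1 h.symm).resolve_left h2
  refine ⟨k, l, hk, ?_, ?_, ?_, hP2⟩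
  · rintro ⟨⟨i, j⟩, hij⟩ h00 h01 h11
    by_cases hj : 2 < j
    · exact sl _ hj
    · simp only [not_lt] at hj hij
      have hi : i ≤ 2 := hij.trans hj
      interval_cases j <;> interval_cases i
      all_goals first
        | omega
        | exact absurd rfl h00
        | exact absurd rfl h01
        | exact absurd rfl h11
        | exact l02
        | exact l12
        | exact l22
  · rw [hkd]; ring
  · rw [hl2]; ring

/-- `λ = 0` -/
theorem N1 {f a : F} (hf : J.Six f) (ha : J.IsC a) (a0 : a ≠ 0)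
    (hr : J.pd 2 2 f = -(3 / 2) * a) (h0 : J.cosL f (J.v0 f) = 0) :
    ∃ k : F, J.IsC k ∧ J.cA f = 3 * a * f + a * J.cJ f + k
      ∧ rZ J a * J.pd 1 2 f + a * J.u 0 1 * J.pd 0 2 f = 3 * a ^ 2 * J.u 1 2
      ∧ 2 * rZ J a * J.pd 1 1 f + a * J.u 0 1 * J.pd 0 1 f - 2 * (1 - a * J.u 0 2) * J.pd 0 2 f
          + 3 * a * J.u 1 2 * J.pd 1 2 f = 4 * a * f + 6 * a ^ 2 * J.u 2 2 + k := by
  have := J.charZero
  obtain ⟨k, l, hk, hl, hA, h1, h2⟩ := N1_aux hf ha a0 hr h0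
  have l02 : J.pd 0 2 l = 0 := hl _ (by decide) (by decide) (by decide)
  have l12 : J.pd 1 2 l = 0 := hl _ (by decide) (by decide) (by decide)
  have ll02 : ∀ i j, J.pd 0 2 (J.pd i j l) = 0 := fun i j =>
    hl.P _ _ (by decide) (by decide) (by decide)
  have ll12 : ∀ i j, J.pd 1 2 (J.pd i j l) = 0 := fun i j =>
    hl.P _ _ (by decide) (by decide) (by decide)
  have a2 : ∀ i j, J.pd i j (a ^ 2) = 0 := fun i j => (ha.pow 2).pd i j
  rw [hl.D] at h2
  have e1 := congrArg (J.pd 1 1) h1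
  have e2 := congrArg (J.pd 0 1) h1
  have e3 := congrArg (J.pd 0 2) h1
  have e4 := congrArg (J.pd 1 2) h1
  have e5 := congrArg (J.pd 1 2) h2
  have e6 := congrArg (J.pd 0 2) h2
  simp only [rZ, map_add, map_sub, der_mul, dnum, ha.pd, hk.pd, J.pd_u, a2,
    Derivation.map_one_eq_zero, l02, l12, ll02, ll12] at e1 e2 e3 e4 e5 e6
  norm_num at e1 e2 e3 e4 e5 e6
  rw [J.pd_comm 1 1 1 2, J.pd_comm 1 1 0 2] at e1
  rw [J.pd_comm 0 1 1 2, J.pd_comm 0 1 0 2] at e2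
  rw [J.pd_comm 0 2 1 2] at e3
  rw [J.pd_comm 0 2 1 2] at e6
  have hl0 : 3 * a * l = 0 := by
    have h1' := h1
    rw [rZ] at h1'
    linear_combination -(1 + a * J.u 1 1) * e5 - a * J.u 0 1 * e6 + 2 * (1 + a * J.u 1 1) * e1
      + a * J.u 0 1 * e2 - 2 * (1 - a * J.u 0 2) * e3 + 3 * a * J.u 1 2 * e4 - 3 * a * h1'
  have hl0' : l = 0 := by
    have h3a : 3 * a ≠ 0 := mul_ne_zero three_ne_zero a0
    exact (mul_eq_zero.1 hl0).resolve_left h3a
  rw [hl0', zero_add] at h1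
  rw [hl0', map_zero, map_zero, map_zero, mul_zero, mul_zero, mul_zero, add_zero, add_zero,
    add_zero] at h2
  exact ⟨k, hk, hA, h1, h2⟩

end Pool.Agent.Lib.MP_4d1bc1_mp.Kv
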