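import Pool.Agent.Lib.MP_4d1bc1_mp.Kv.RedDef

set_option autoImplicit false
set_option linter.unusedSimpArgs false

/-! Row kv-N3: case `f_r ≠ 0`, second derivatives. -/

namespace Pool.Agent.Lib.MP_4d1bc1_mp.Kv

open Finset Polynomial

universe u

variable {F : Type u} [Field F] [Algebra ℝ F] {J : Jet F}

private theorem N3_z {g : F} (hg : J.Six g) : J.pd 0 3 g = 0 ∧ J.pd 0 4 g = 0 ∧ J.pd 0 5 g = 0 ∧
    J.pd 1 3 g = 0 ∧ J.pd 1 4 g = 0 ∧ J.pd 1 5 g = 0 :=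
  ⟨hg.pd_eq_zero (by omega), hg.pd_eq_zero (by omega), hg.pd_eq_zero (by omega),
    hg.pd_eq_zero (by omega), hg.pd_eq_zero (by omega), hg.pd_eq_zero (by omega)⟩

private theorem N3_D1 {g : F} (hg : J.Six g) : J.pd 0 3 (J.D g) = J.pd 0 2 g ∧
    J.pd 0 4 (J.D g) = 0 ∧ J.pd 0 5 (J.D g) = 0 ∧
    J.pd 1 3 (J.D g) = J.pd 1 2 g ∧ J.pd 1 4 (J.D g) = 0 ∧ J.pd 1 5 (J.D g) = 0 := by
  obtain ⟨h1, h2, h3, h4, h5, h6⟩ := N3_z hg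
  refine ⟨?_, ?_, ?_, ?_, ?_, ?_⟩
  · rw [J.pd_D_0_3, h1, map_zero, zero_add]
  · rw [J.pd_D_0_4, h2, h1, map_zero, zero_add]
  · rw [J.pd_D_0_5, h3, h2, map_zero, zero_add]
  · rw [J.pd_D_1_3, h4, h1, map_zero, zero_add, zero_add]
  · rw [J.pd_D_1_4, h5, h2, h4, map_zero, zero_add, zero_add]
  · rw [J.pd_D_1_5, h6, h3, h5, map_zero, zero_add, zero_add]

private theorem N3_D2 {g : F} (hg : J.Six g) :
    J.pd 0 3 (J.D (J.D g)) = 2 * J.D (J.pd 0 2 g) + J.pd 0 1 g ∧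
    J.pd 0 4 (J.D (J.D g)) = J.pd 0 2 g ∧ J.pd 0 5 (J.D (J.D g)) = 0 ∧
    J.pd 1 3 (J.D (J.D g)) = 2 * J.D (J.pd 1 2 g) + 2 * J.pd 0 2 g + 2 * J.pd 1 1 g ∧
    J.pd 1 4 (J.D (J.D g)) = J.pd 1 2 g ∧ J.pd 1 5 (J.D (J.D g)) = 0 := by
  obtain ⟨h1, h2, h3, h4, h5, h6⟩ := N3_D1 hg
  refine ⟨?_, ?_, ?_, ?_, ?_, ?_⟩
  · rw [J.pd_D_0_3, h1, J.pd_D_0_2]; ring
  · rw [J.pd_D_0_4, h2, h1, map_zero, zero_add]
  · rw [J.pd_D_0_5, h3, h2, map_zero, zero_add]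
  · rw [J.pd_D_1_3, h4, h1, J.pd_D_1_2]; ring
  · rw [J.pd_D_1_4, h5, h2, h4, map_zero, zero_add, zero_add]
  · rw [J.pd_D_1_5, h6, h3, h5, map_zero, zero_add, zero_add]

private theorem N3_D3 {g : F} (hg : J.Six g) :
    J.pd 0 4 (J.D (J.D (J.D g))) = 3 * J.D (J.pd 0 2 g) + J.pd 0 1 g ∧
    J.pd 0 5 (J.D (J.D (J.D g))) = J.pd 0 2 g ∧
    J.pd 1 4 (J.D (J.D (J.D g))) = 3 * J.D (J.pd 1 2 g) + 3 * J.pd 0 2 g + 2 * J.pd 1 1 g ∧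
    J.pd 1 5 (J.D (J.D (J.D g))) = J.pd 1 2 g := by
  obtain ⟨h1, h2, h3, h4, h5, h6⟩ := N3_D2 hg
  refine ⟨?_, ?_, ?_, ?_⟩
  · rw [J.pd_D_0_4, h2, h1]; ring
  · rw [J.pd_D_0_5, h3, h2, map_zero, zero_add]
  · rw [J.pd_D_1_4, h5, h2, h4]; ring
  · rw [J.pd_D_1_5, h6, h3, h5, map_zero, zero_add, zero_add]

private theorem N3_D4 {g : F} (hg : J.Six g) :
    J.pd 0 5 (J.D (J.D (J.D (J.D g)))) = 4 * J.D (J.pd 0 2 g) + J.pd 0 1 g ∧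
    J.pd 1 5 (J.D (J.D (J.D (J.D g)))) = 4 * J.D (J.pd 1 2 g) + 4 * J.pd 0 2 g
      + 2 * J.pd 1 1 g := by
  obtain ⟨h1, h2, h3, h4⟩ := N3_D3 hg
  refine ⟨?_, ?_⟩
  · rw [J.pd_D_0_5, h2, h1]; ring
  · rw [J.pd_D_1_5, h4, h2, h3]; ring

/-- the time derivative of a function which does not contain `u_[2,2]` -/
private theorem N3_T {f g : F} (hf : J.Six f) (hg : J.Six g) (h22 : J.pd 2 2 g = 0) :
    J.pd 0 4 (J.evo (Jet.K3 f) g) = J.pd 0 1 g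
      + J.pd 0 2 f * (J.u 0 1 * J.pd 0 2 g + J.u 1 1 * J.pd 1 2 g) ∧
    J.pd 0 5 (J.evo (Jet.K3 f) g) = J.pd 0 2 g ∧
    J.pd 1 4 (J.evo (Jet.K3 f) g) = 2 * J.pd 1 1 g
      + J.pd 1 2 f * (J.u 0 1 * J.pd 0 2 g + J.u 1 1 * J.pd 1 2 g) ∧
    J.pd 1 5 (J.evo (Jet.K3 f) g) = J.pd 1 2 g := by
  have hT : J.evo (Jet.K3 f) g = 2 * (J.u 0 3 + f * J.u 0 1) * J.pd 0 0 g
      + (J.u 1 3 + f * J.u 1 1 + J.u 0 4 + f * J.u 0 2 + J.D f * J.u 0 1) * J.pd 0 1 g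
      + 2 * (J.u 1 4 + f * J.u 1 2 + J.D f * J.u 1 1) * J.pd 1 1 g
      + (J.u 2 3 + f * J.u 1 2 + J.u 0 5 + f * J.u 0 3 + 2 * J.D f * J.u 0 2
        + J.D (J.D f) * J.u 0 1) * J.pd 0 2 g
      + (J.u 2 4 + f * J.u 2 2 + J.D f * J.u 1 2 + J.u 1 5 + f * J.u 1 3 + 2 * J.D f * J.u 1 2
        + J.D (J.D f) * J.u 1 1) * J.pd 1 2 g := by
    rw [hg.vf (δ := J.evo (Jet.K3 f)) (J.isVF_fld _), h22, J.evo_u_00, J.evo_u_01, J.evo_u_11,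
      J.evo_u_02, J.evo_u_12]
    ring
  obtain ⟨a1, a2, a3, a4, a5, a6⟩ := N3_z hf
  obtain ⟨b1, b2, b3, b4, b5, b6⟩ := N3_D1 hf
  obtain ⟨c1, c2, c3, c4, c5, c6⟩ := N3_D2 hf
  have hz : ∀ i j, J.Six (J.pd i j g) := fun i j => hg.P _
  obtain ⟨x1, x2, x3, x4, x5, x6⟩ := N3_z (hz 0 0)
  obtain ⟨y1, y2, y3, y4, y5, y6⟩ := N3_z (hz 0 1)
  obtain ⟨z1, z2, z3, z4, z5, z6⟩ := N3_z (hz 1 1)
  obtain ⟨p1, p2, p3, p4, p5, p6⟩ := N3_z (hz 0 2)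
  obtain ⟨q1, q2, q3, q4, q5, q6⟩ := N3_z (hz 1 2)
  rw [hT]
  refine ⟨?_, ?_, ?_, ?_⟩
  · simp only [map_add, der_mul, dnum, J.pd_u, a2, b2, c2, x2, y2, z2, p2, q2]
    norm_num
    ring
  · simp only [map_add, der_mul, dnum, J.pd_u, a3, b3, c3, x3, y3, z3, p3, q3]
    norm_num
  · simp only [map_add, der_mul, dnum, J.pd_u, a5, b5, c5, x5, y5, z5, p5, q5]
    norm_num
    ring
  · simp only [map_add, der_mul, dnum, J.pd_u, a6, b6, c6, x6, y6, z6, p6, q6]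
    norm_num

/-- the equations `(R1)` and `(R0)` -/
theorem N3 {f a k : F} (hf : J.Six f) (ha : J.IsC a) (a0 : a ≠ 0)
    (hr : J.pd 2 2 f = -(3 / 2) * a) (h0 : J.cosL f (J.v0 f) = 0) (hk : J.IsC k)
    (hA : J.cA f = 3 * a * f + a * J.cJ f + k)
    (P1 : rZ J a * J.pd 1 2 f + a * J.u 0 1 * J.pd 0 2 f = 3 * a ^ 2 * J.u 1 2)
    (P2 : 2 * rZ J a * J.pd 1 1 f + a * J.u 0 1 * J.pd 0 1 f
          - 2 * (1 - a * J.u 0 2) * J.pd 0 2 f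
          + 3 * a * J.u 1 2 * J.pd 1 2 f = 4 * a * f + 6 * a ^ 2 * J.u 2 2 + k) :
    3 * J.D (J.pd 1 2 (J.pd 1 2 f)) + 6 * J.pd 0 2 (J.pd 1 2 f)
        + 2 / a * (J.pd 1 2 f * J.pd 1 2 (J.pd 1 2 f)) = 0
    ∧ 3 * J.D (J.pd 0 2 (J.pd 1 2 f)) + J.pd 1 2 (J.pd 1 2 f) * J.pd 0 2 f / a
        + 3 * J.pd 0 2 (J.pd 0 2 f) + J.pd 1 2 f * J.pd 0 2 (J.pd 1 2 f) / a = 0 := by
  have hα : J.IsC (J.pd 2 2 f) := Jet.isC_pd22 hf h0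
  have hz : ∀ i j, J.Six (J.pd i j f) := fun i j => hf.P _
  have h22 : ∀ i j, J.pd 2 2 (J.pd i j f) = 0 := by
    intro i j
    rw [J.pd_comm]
    exact hα.pd i j
  -- `P1`
  have hZ1 : J.pd 1 2 (rZ J a) = 0 := by
    simp only [rZ, map_add, Derivation.map_one_eq_zero, ha.pd_mul, J.pd_u]
    norm_num
  have hZ0 : J.pd 0 2 (rZ J a) = 0 := by
    simp only [rZ, map_add, Derivation.map_one_eq_zero, ha.pd_mul, J.pd_u]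
    norm_num
  have e1 : rZ J a * J.pd 1 2 (J.pd 1 2 f) + a * J.u 0 1 * J.pd 0 2 (J.pd 1 2 f) = 3 * a ^ 2 := by
    have h := congrArg (J.pd 1 2) P1
    simp only [map_add, der_mul, dnum, pow_two, ha.pd, hZ1, J.pd_u] at h
    norm_num at h
    rw [J.pd_comm 1 2 0 2] at h
    linear_combination h
  have e0 : rZ J a * J.pd 0 2 (J.pd 1 2 f) + a * J.u 0 1 * J.pd 0 2 (J.pd 0 2 f) = 0 := by
    have h := congrArg (J.pd 0 2) P1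
    simp only [map_add, der_mul, dnum, pow_two, ha.pd, hZ0, J.pd_u] at h
    norm_num at h
    linear_combination h
  -- the derivatives of `A`
  have hcf := J.charZero
  obtain ⟨f1, f2, f3, f4, f5, f6⟩ := N3_z hf
  obtain ⟨g1, g2, g3, g4, g5, g6⟩ := N3_D1 hf
  obtain ⟨k1, k2, k3, k4, k5, k6⟩ := N3_D2 hf
  obtain ⟨l2, l3, l5, l6⟩ := N3_D3 hf
  have hAd : J.cA f = 2 * J.pd 1 1 f - J.D (J.pd 1 2 f) - 2 * J.pd 0 2 f := rfl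
  have hDA : J.D (J.cA f) = 2 * J.D (J.pd 1 1 f) - J.D (J.D (J.pd 1 2 f))
      - 2 * J.D (J.pd 0 2 f) := by
    rw [hAd]; simp only [map_sub, der_mul, dnum]; ring
  have hDDA : J.D (J.D (J.cA f)) = 2 * J.D (J.D (J.pd 1 1 f)) - J.D (J.D (J.D (J.pd 1 2 f)))
      - 2 * J.D (J.D (J.pd 0 2 f)) := by
    rw [hDA]; simp only [map_sub, der_mul, dnum]; ring
  have hDDDA : J.D (J.D (J.D (J.cA f))) = 2 * J.D (J.D (J.D (J.pd 1 1 f)))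
      - J.D (J.D (J.D (J.D (J.pd 1 2 f)))) - 2 * J.D (J.D (J.D (J.pd 0 2 f))) := by
    rw [hDDA]; simp only [map_sub, der_mul, dnum]; ring
  have hTA : J.evo (Jet.K3 f) (J.cA f) = 2 * J.evo (Jet.K3 f) (J.pd 1 1 f)
      - J.D (J.evo (Jet.K3 f) (J.pd 1 2 f)) - 2 * J.evo (Jet.K3 f) (J.pd 0 2 f) := by
    rw [hAd]; simp only [map_sub, der_mul, dnum, J.evo_D]; ring
  obtain ⟨z1, z2, z3, z4, z5, z6⟩ := N3_z (hz 1 1)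
  obtain ⟨p1, p2, p3, p4, p5, p6⟩ := N3_z (hz 0 2)
  obtain ⟨zd1, zd2, zd3, zd4, zd5, zd6⟩ := N3_D1 (hz 1 1)
  obtain ⟨pd1, pd2, pd3, pd4, pd5, pd6⟩ := N3_D1 (hz 0 2)
  obtain ⟨qd1, qd2, qd3, qd4, qd5, qd6⟩ := N3_D1 (hz 1 2)
  obtain ⟨qq1, qq2, qq3, qq4, qq5, qq6⟩ := N3_D2 (hz 1 2)
  obtain ⟨zz1, zz2, zz3, zz4, zz5, zz6⟩ := N3_D2 (hz 1 1)
  obtain ⟨pp1, pp2, pp3, pp4, pp5, pp6⟩ := N3_D2 (hz 0 2)
  obtain ⟨zt2, zt3, zt5, zt6⟩ := N3_D3 (hz 1 1)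
  obtain ⟨pt2, pt3, pt5, pt6⟩ := N3_D3 (hz 0 2)
  obtain ⟨qt2, qt3, qt5, qt6⟩ := N3_D3 (hz 1 2)
  obtain ⟨qf3, qf6⟩ := N3_D4 (hz 1 2)
  obtain ⟨tz4, tz5, tz14, tz15⟩ := N3_T hf (hz 1 1) (h22 1 1)
  obtain ⟨tp4, tp5, tp14, tp15⟩ := N3_T hf (hz 0 2) (h22 0 2)
  obtain ⟨tq4, tq5, tq14, tq15⟩ := N3_T hf (hz 1 2) (h22 1 2)
  have A4 : J.pd 0 4 (J.cA f) = 0 := by
    rw [hAd]; simp only [map_sub, der_mul, dnum, z2, qd2, p2]; ring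
  have A5 : J.pd 0 5 (J.cA f) = 0 := by
    rw [hAd]; simp only [map_sub, der_mul, dnum, z3, qd3, p3]; ring
  have A14 : J.pd 1 4 (J.cA f) = 0 := by
    rw [hAd]; simp only [map_sub, der_mul, dnum, z5, qd5, p5]; ring
  have A15 : J.pd 1 5 (J.cA f) = 0 := by
    rw [hAd]; simp only [map_sub, der_mul, dnum, z6, qd6, p6]; ring
  have DA4 : J.pd 0 4 (J.D (J.cA f)) = - J.pd 0 2 (J.pd 1 2 f) := by
    rw [hDA]; simp only [map_sub, der_mul, dnum, zd2, qq2, pd2]; ring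
  have DA5 : J.pd 0 5 (J.D (J.cA f)) = 0 := by
    rw [hDA]; simp only [map_sub, der_mul, dnum, zd3, qq3, pd3]; ring
  have DA14 : J.pd 1 4 (J.D (J.cA f)) = - J.pd 1 2 (J.pd 1 2 f) := by
    rw [hDA]; simp only [map_sub, der_mul, dnum, zd5, qq5, pd5]; ring
  have DA15 : J.pd 1 5 (J.D (J.cA f)) = 0 := by
    rw [hDA]; simp only [map_sub, der_mul, dnum, zd6, qq6, pd6]; ring
  have DDDA5 : J.pd 0 5 (J.D (J.D (J.D (J.cA f)))) = 2 * J.pd 0 2 (J.pd 1 1 f)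
      - (4 * J.D (J.pd 0 2 (J.pd 1 2 f)) + J.pd 0 1 (J.pd 1 2 f)) - 2 * J.pd 0 2 (J.pd 0 2 f) := by
    rw [hDDDA]; simp only [map_sub, der_mul, dnum, zt3, qf3, pt3]; ring
  have DDDA15 : J.pd 1 5 (J.D (J.D (J.D (J.cA f)))) = 2 * J.pd 1 2 (J.pd 1 1 f)
      - (4 * J.D (J.pd 1 2 (J.pd 1 2 f)) + 4 * J.pd 0 2 (J.pd 1 2 f) + 2 * J.pd 1 1 (J.pd 1 2 f))
      - 2 * J.pd 1 2 (J.pd 0 2 f) := by
    rw [hDDDA]; simp only [map_sub, der_mul, dnum, zt6, qf6, pt6]; ring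
  have TA5 : J.pd 0 5 (J.evo (Jet.K3 f) (J.cA f)) = 2 * J.pd 0 2 (J.pd 1 1 f)
      - (J.D (J.pd 0 2 (J.pd 1 2 f)) + (J.pd 0 1 (J.pd 1 2 f)
        + J.pd 0 2 f * (J.u 0 1 * J.pd 0 2 (J.pd 1 2 f) + J.u 1 1 * J.pd 1 2 (J.pd 1 2 f))))
      - 2 * J.pd 0 2 (J.pd 0 2 f) := by
    rw [hTA]; simp only [map_sub, der_mul, dnum, J.pd_D_0_5, tz5, tq5, tp5, tq4]; ring
  have TA15 : J.pd 1 5 (J.evo (Jet.K3 f) (J.cA f)) = 2 * J.pd 1 2 (J.pd 1 1 f)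
      - (J.D (J.pd 1 2 (J.pd 1 2 f)) + J.pd 0 2 (J.pd 1 2 f) + (2 * J.pd 1 1 (J.pd 1 2 f)
        + J.pd 1 2 f * (J.u 0 1 * J.pd 0 2 (J.pd 1 2 f) + J.u 1 1 * J.pd 1 2 (J.pd 1 2 f))))
      - 2 * J.pd 1 2 (J.pd 0 2 f) := by
    rw [hTA]; simp only [map_sub, der_mul, dnum, J.pd_D_1_5, tz15, tq15, tp15, tq5, tq14]; ring
  -- the derivatives of `B`
  obtain ⟨x1, x2, x3, x4, x5, x6⟩ := N3_z (hz 0 0)
  obtain ⟨xd1, xd2, xd3, xd4, xd5, xd6⟩ := N3_D1 (hz 0 0)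
  obtain ⟨yd1, yd2, yd3, yd4, yd5, yd6⟩ := N3_D1 (hz 0 1)
  obtain ⟨yy1, yy2, yy3, yy4, yy5, yy6⟩ := N3_D2 (hz 0 1)
  have hBd : J.cB f = 2 * J.pd 0 0 f - J.D (J.pd 0 1 f) + J.D (J.D (J.pd 0 2 f)) := rfl
  have hDB : J.D (J.cB f) = 2 * J.D (J.pd 0 0 f) - J.D (J.D (J.pd 0 1 f))
      + J.D (J.D (J.D (J.pd 0 2 f))) := by
    rw [hBd]; simp only [map_sub, map_add, der_mul, dnum]; ring
  have B4 : J.pd 0 4 (J.cB f) = J.pd 0 2 (J.pd 0 2 f) := by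
    rw [hBd]; simp only [map_sub, map_add, der_mul, dnum, x2, yd2, pp2]; ring
  have B5 : J.pd 0 5 (J.cB f) = 0 := by
    rw [hBd]; simp only [map_sub, map_add, der_mul, dnum, x3, yd3, pp3]; ring
  have B14 : J.pd 1 4 (J.cB f) = J.pd 1 2 (J.pd 0 2 f) := by
    rw [hBd]; simp only [map_sub, map_add, der_mul, dnum, x5, yd5, pp5]; ring
  have B15 : J.pd 1 5 (J.cB f) = 0 := by
    rw [hBd]; simp only [map_sub, map_add, der_mul, dnum, x6, yd6, pp6]; ring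
  have DB5 : J.pd 0 5 (J.D (J.cB f)) = J.pd 0 2 (J.pd 0 2 f) := by
    rw [hDB]; simp only [map_sub, map_add, der_mul, dnum, xd3, yy3, pt3]; ring
  have DB15 : J.pd 1 5 (J.D (J.cB f)) = J.pd 1 2 (J.pd 0 2 f) := by
    rw [hDB]; simp only [map_sub, map_add, der_mul, dnum, xd6, yy6, pt6]; ring
  -- the derivatives of `e`
  have hEd : J.cE f = J.u 0 1 * J.cB f - J.u 1 1 * J.D (J.cA f) - J.u 1 2 * J.cA f
      + 2 * J.pd 2 2 f * J.u 1 4 := rfl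
  have E4 : J.pd 0 4 (J.cE f) = J.u 0 1 * J.pd 0 2 (J.pd 0 2 f)
      + J.u 1 1 * J.pd 0 2 (J.pd 1 2 f) := by
    rw [hEd]; simp only [map_sub, map_add, der_mul, dnum, hα.pd, J.pd_u, A4, DA4, B4]
    norm_num
  have E5 : J.pd 0 5 (J.cE f) = 0 := by
    rw [hEd]; simp only [map_sub, map_add, der_mul, dnum, hα.pd, J.pd_u, A5, DA5, B5]
    norm_num
  have E14 : J.pd 1 4 (J.cE f) = J.u 0 1 * J.pd 0 2 (J.pd 1 2 f)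
      + J.u 1 1 * J.pd 1 2 (J.pd 1 2 f) + 2 * J.pd 2 2 f := by
    rw [hEd, J.pd_comm 0 2 1 2]
    simp only [map_sub, map_add, der_mul, dnum, hα.pd, J.pd_u, A14, DA14, B14]
    norm_num
  have E15 : J.pd 1 5 (J.cE f) = 0 := by
    rw [hEd]; simp only [map_sub, map_add, der_mul, dnum, hα.pd, J.pd_u, A15, DA15, B15]
    norm_num
  have DE5 : J.pd 0 5 (J.D (J.cE f)) = J.u 0 1 * J.pd 0 2 (J.pd 0 2 f)
      + J.u 1 1 * J.pd 0 2 (J.pd 1 2 f) := by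
    rw [J.pd_D_0_5, E5, E4, map_zero, zero_add]
  have DE15 : J.pd 1 5 (J.D (J.cE f)) = J.u 0 1 * J.pd 0 2 (J.pd 1 2 f)
      + J.u 1 1 * J.pd 1 2 (J.pd 1 2 f) + 2 * J.pd 2 2 f := by
    rw [J.pd_D_1_5, E15, E5, E14, map_zero, zero_add, zero_add]
  obtain ⟨w1, w2, w3, w4, w5, w6⟩ := N3_z (hz 1 2)
  have hII := Jet.eq_II hf hα h0
  have h05 := congrArg (J.pd 0 5) hII
  have h15 := congrArg (J.pd 1 5) hII
  simp only [map_sub, map_add, map_neg, map_zero, der_mul, dnum, hα.pd, TA5, DDDA5, DB5, A5, DA5,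
    g3, f3, l3, E5, DE5, w3, mul_zero, zero_mul, add_zero, zero_add] at h05
  simp only [map_sub, map_add, map_neg, map_zero, der_mul, dnum, hα.pd, TA15, DDDA15, DB15, A15,
    DA15, g6, f6, l6, E15, DE15, w6, mul_zero, zero_mul, add_zero, zero_add] at h15
  rw [hr] at h05 h15
  rw [J.pd_comm 1 2 0 2, J.pd_comm 1 2 1 1] at h15
  have hZ : rZ J a = 1 + a * J.u 1 1 := rfl
  rw [hZ] at e0 e1
  have hai : a * a⁻¹ = 1 := mul_inv_cancel₀ a0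
  rw [div_eq_mul_inv, div_eq_mul_inv, div_eq_mul_inv]
  constructor
  · linear_combination (-1) * h15 + (2 * a⁻¹ * J.pd 1 2 f) * e1
      - 2 * J.pd 1 2 f * (J.u 1 1 * J.pd 1 2 (J.pd 1 2 f) + J.u 0 1 * J.pd 0 2 (J.pd 1 2 f)
        - 3 * a) * hai
  · linear_combination (-1) * h05 + (a⁻¹ * J.pd 0 2 f) * e1 + (a⁻¹ * J.pd 1 2 f) * e0
      - (J.pd 0 2 f * (J.u 1 1 * J.pd 1 2 (J.pd 1 2 f) + J.u 0 1 * J.pd 0 2 (J.pd 1 2 f)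
          - 3 * a)
        + J.pd 1 2 f * (J.u 1 1 * J.pd 0 2 (J.pd 1 2 f) + J.u 0 1 * J.pd 0 2 (J.pd 0 2 f))) * hai

end Pool.Agent.Lib.MP_4d1bc1_mp.Kv
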