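import Pool.Agent.Lib.MP_4d1bc1_mp.Kv.RedDef

set_option autoImplicit false
set_option linter.unusedSimpArgs false

/-! Row kv-N4: case `f_r ≠ 0`, the function `b = f_pp`. -/

namespace Pool.Agent.Lib.MP_4d1bc1_mp.Kv

open Finset Polynomial

universe u

variable {F : Type u} [Field F] [Algebra ℝ F] {J : Jet F}

theorem N4_xyz {g : F} (hg : J.Six g) (h0 : J.pd 0 2 g = 0) (h1 : J.pd 1 2 g = 0)
    (h2 : J.pd 2 2 g = 0) : J.FXYZ g := by
  rintro ⟨⟨i, j⟩, hij⟩ ha0 ha1 ha2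
  by_cases hj : 2 < j
  · exact hg _ hj
  · have hj' : j ≤ 2 := not_lt.1 hj
    have hi' : i ≤ 2 := le_trans hij hj'
    have key : ∀ (k l : ℕ) (h : k ≤ l), J.pd k l g = 0 → J.T.P ⟨(k, l), h⟩ g = 0 := by
      intro k l h hz
      rw [← mk2_of_le h]
      exact hz
    have e00 : (⟨(0, 0), le_rfl⟩ : Idx2) = mk2 0 0 := (mk2_of_le le_rfl).symm
    have e01 : (⟨(0, 1), zero_le_one⟩ : Idx2) = mk2 0 1 := (mk2_of_le zero_le_one).symm
    have e11 : (⟨(1, 1), le_rfl⟩ : Idx2) = mk2 1 1 := (mk2_of_le le_rfl).symm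
    interval_cases j <;> interval_cases i
    · exact absurd e00 ha0
    · exact absurd e01 ha1
    · exact absurd e11 ha2
    · exact key 0 2 _ h0
    · exact key 1 2 _ h1
    · exact key 2 2 _ h2

theorem N4_03 {g : F} (hg : J.Six g) : J.pd 0 3 g = 0 := hg _ (by decide)

theorem N4_13 {g : F} (hg : J.Six g) : J.pd 1 3 g = 0 := hg _ (by decide)

theorem N4_Z (J : Jet F) {a : F} (ha : J.IsC a) (i j : ℕ) :
    J.pd i j (rZ J a) = a * J.pd i j (J.u 1 1) := by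
  unfold rZ
  rw [map_add, Derivation.map_one_eq_zero, zero_add, ha.pd_mul]

theorem N4_alg1 (a Z y p q z b fp fq fpq fqq A B : F) (a0 : a ≠ 0) (Z0 : Z ≠ 0) (y0 : y ≠ 0)
    (h3 : (3 : F) ≠ 0) (hz : Z = 1 + a * z) (P1 : Z * fq + a * y * fp = 3 * a ^ 2 * q)
    (e1 : Z * fpq + a * y * b = 0) (e2 : Z * fqq + a * y * fpq = 3 * a ^ 2)
    (de2 : Z * A + 2 * a * q * fqq + a * (y * B + (z + p) * fpq) = 0)
    (R1 : 3 * A + 6 * fpq + 2 / a * (fq * fqq) = 0)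
    (R0 : 3 * B + fqq * fp / a + 3 * b + fq * fpq / a = 0) :
    fp = b * (a * p - a ^ 2 * y * q * Z⁻¹ - 1) / a := by
  have hfpq : fpq = -(a * y * b) / Z := by
    field_simp
    linear_combination e1
  have hfqq : fqq = (3 * a ^ 2 - a * y * fpq) / Z := by
    field_simp
    linear_combination e2
  have hfq : fq = (3 * a ^ 2 * q - a * y * fp) / Z := by
    field_simp
    linear_combination P1
  have hz' : z = (Z - 1) / a := by
    rw [hz]
    field_simp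
    ring
  have E : -6 * a * q * fqq - 3 * a * (z + p) * fpq + 6 * Z * fpq + 2 * Z / a * (fq * fqq)
      + y * fqq * fp + 3 * a * y * b + y * fq * fpq = 0 := by
    linear_combination (norm := (field_simp; ring)) Z * R1 + a * y * R0 - 3 * de2
  rw [hfqq, hfq, hfpq, hz'] at E
  have E2 : (3 * a * y / Z) * (a * fp - b * (a * p - a ^ 2 * y * q * Z⁻¹ - 1)) = 0 := by
    rw [← neg_eq_zero, ← E]
    field_simp
    ring
  have h4 : 3 * a * y / Z ≠ 0 := div_ne_zero (mul_ne_zero (mul_ne_zero h3 a0) y0) Z0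
  have h5 := (mul_eq_zero.1 E2).resolve_left h4
  rw [eq_div_iff a0]
  linear_combination h5

theorem N4_alg2 (a Z y p q z b fp fq fpq fqq B β : F) (a0 : a ≠ 0) (Z0 : Z ≠ 0) (y0 : y ≠ 0)
    (h3 : (3 : F) ≠ 0) (hz : Z = 1 + a * z) (P1 : Z * fq + a * y * fp = 3 * a ^ 2 * q)
    (e1 : Z * fpq + a * y * b = 0) (e2 : Z * fqq + a * y * fpq = 3 * a ^ 2)
    (de1 : Z * B + 2 * a * q * fpq + a * (y * β + (z + p) * b) = 0)
    (R0 : 3 * B + fqq * fp / a + 3 * b + fq * fpq / a = 0)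
    (hfp : fp = b * (a * p - a ^ 2 * y * q * Z⁻¹ - 1) / a) :
    3 * (a * (Z * Z)) * β = 2 * (y * ((b * b) * (Z * (a * p - 1) - a * (a * (y * q))))) := by
  have hfpq : fpq = -(a * y * b) / Z := by
    field_simp
    linear_combination e1
  have hfqq : fqq = (3 * a ^ 2 - a * y * fpq) / Z := by
    field_simp
    linear_combination e2
  have hfq : fq = (3 * a ^ 2 * q - a * y * fp) / Z := by
    field_simp
    linear_combination P1
  have hz' : z = (Z - 1) / a := by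
    rw [hz]
    field_simp
    ring
  have E : -6 * a * q * fpq - 3 * a * (y * β + (z + p) * b) + Z * (fqq * fp) / a
      + 3 * Z * b + Z * (fq * fpq) / a = 0 := by
    linear_combination (norm := (field_simp; ring)) Z * R0 - 3 * de1
  rw [hfqq, hfq, hfpq, hz', hfp] at E
  have E2 : y * (3 * (a * (Z * Z)) * β - 2 * (y * ((b * b) * (Z * (a * p - 1) - a * (a * (y * q)))))) = 0 := by
    linear_combination (norm := (field_simp; ring)) (-(Z ^ 2)) * E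
  have h5 := (mul_eq_zero.1 E2).resolve_left y0
  linear_combination h5

/-- the function `b = f_pp` -/
theorem N4 {f a k : F} (hf : J.Six f) (ha : J.IsC a) (a0 : a ≠ 0)
    (hr : J.pd 2 2 f = -(3 / 2) * a) (hk : J.IsC k)
    (P1 : rZ J a * J.pd 1 2 f + a * J.u 0 1 * J.pd 0 2 f = 3 * a ^ 2 * J.u 1 2)
    (P2 : 2 * rZ J a * J.pd 1 1 f + a * J.u 0 1 * J.pd 0 1 f
          - 2 * (1 - a * J.u 0 2) * J.pd 0 2 f
          + 3 * a * J.u 1 2 * J.pd 1 2 f = 4 * a * f + 6 * a ^ 2 * J.u 2 2 + k)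
    (R1 : 3 * J.D (J.pd 1 2 (J.pd 1 2 f)) + 6 * J.pd 0 2 (J.pd 1 2 f)
        + 2 / a * (J.pd 1 2 f * J.pd 1 2 (J.pd 1 2 f)) = 0)
    (R0 : 3 * J.D (J.pd 0 2 (J.pd 1 2 f)) + J.pd 1 2 (J.pd 1 2 f) * J.pd 0 2 f / a
        + 3 * J.pd 0 2 (J.pd 0 2 f) + J.pd 1 2 f * J.pd 0 2 (J.pd 1 2 f) / a = 0) :
    ∃ b : F, J.FXYZ b ∧ b = J.pd 0 2 (J.pd 0 2 f)
      ∧ J.pd 0 2 f = b * (a * J.u 0 2 - a ^ 2 * J.u 0 1 * J.u 1 2 * (rZ J a)⁻¹ - 1) / a
      ∧ J.pd 0 0 b = -(b ^ 2 / (3 * a))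
      ∧ J.pd 0 1 b = 2 * J.u 0 1 * b ^ 2 * (rZ J a)⁻¹ / 3
      ∧ J.pd 1 1 b = -(a * J.u 0 1 ^ 2 * b ^ 2 * (rZ J a)⁻¹ ^ 2 / 3) := by
  have := J.charZero
  have h3 : (3 : F) ≠ 0 := by norm_num
  have hy : J.u 0 1 ≠ 0 := by
    intro h
    have h1 := J.pd_u 0 1 0 1
    rw [h, map_zero] at h1
    norm_num at h1
  have hZ : rZ J a ≠ 0 := by
    intro h
    have h1 := N4_Z J ha 1 1
    rw [h, map_zero, J.pd_u, if_pos (Or.inl ⟨rfl, rfl⟩), mul_one] at h1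
    exact a0 h1.symm
  -- the second derivatives
  have hy02 : J.pd 0 2 (J.u 0 1) = 0 := by rw [J.pd_u]; norm_num
  have hy12 : J.pd 1 2 (J.u 0 1) = 0 := by rw [J.pd_u]; norm_num
  have hz02 : J.pd 0 2 (J.u 1 1) = 0 := by rw [J.pd_u]; norm_num
  have hz12 : J.pd 1 2 (J.u 1 1) = 0 := by rw [J.pd_u]; norm_num
  have hp02 : J.pd 0 2 (J.u 0 2) = 1 := by rw [J.pd_u]; norm_num
  have hp12 : J.pd 1 2 (J.u 0 2) = 0 := by rw [J.pd_u]; norm_num
  have hq02 : J.pd 0 2 (J.u 1 2) = 0 := by rw [J.pd_u]; norm_num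
  have hq12 : J.pd 1 2 (J.u 1 2) = 1 := by rw [J.pd_u]; norm_num
  have hZ02 : J.pd 0 2 (rZ J a) = 0 := by rw [N4_Z J ha, hz02, mul_zero]
  have hZ12 : J.pd 1 2 (rZ J a) = 0 := by rw [N4_Z J ha, hz12, mul_zero]
  have e1 : rZ J a * J.pd 0 2 (J.pd 1 2 f) + a * J.u 0 1 * J.pd 0 2 (J.pd 0 2 f) = 0 := by
    have h := congrArg (J.pd 0 2) P1
    simp only [map_add, der_mul, dnum, ha.pd, (ha.pow 2).pd, hy02, hZ02, hq02, zero_mul, mul_zero,
      add_zero, zero_add] at h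
    exact h
  have e2 : rZ J a * J.pd 1 2 (J.pd 1 2 f) + a * J.u 0 1 * J.pd 0 2 (J.pd 1 2 f) = 3 * a ^ 2 := by
    have h := congrArg (J.pd 1 2) P1
    simp only [map_add, der_mul, dnum, ha.pd, (ha.pow 2).pd, hy12, hZ12, hq12, zero_mul, mul_zero,
      add_zero, zero_add, mul_one, J.pd_comm 1 2 0 2] at h
    exact h
  have s0 : J.Six (J.pd 0 2 f) := hf.P _
  have s1 : J.Six (J.pd 1 2 f) := hf.P _
  have s00 : J.Six (J.pd 0 2 (J.pd 0 2 f)) := s0.P _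
  have s01 : J.Six (J.pd 0 2 (J.pd 1 2 f)) := s1.P _
  have s11 : J.Six (J.pd 1 2 (J.pd 1 2 f)) := s1.P _
  have ai := ha.inv
  -- the functions of three variables
  have hqq0 : J.pd 0 2 (J.pd 1 2 (J.pd 1 2 f)) = 0 := by
    have h := congrArg (J.pd 0 3) R1
    simp only [map_add, map_zero, der_mul, dnum, div_eq_mul_inv, ai.pd, J.pd_D_0_3, N4_03 s1,
      N4_03 s11, N4_03 s01, zero_mul, mul_zero, add_zero, zero_add] at h
    linear_combination (1 / 3) * h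
  have hqq1 : J.pd 1 2 (J.pd 1 2 (J.pd 1 2 f)) = 0 := by
    have h := congrArg (J.pd 1 3) R1
    simp only [map_add, map_zero, der_mul, dnum, div_eq_mul_inv, ai.pd, J.pd_D_1_3, N4_13 s1,
      N4_13 s11, N4_13 s01, N4_03 s11, zero_mul, mul_zero, add_zero, zero_add] at h
    linear_combination (1 / 3) * h
  have hpq0 : J.pd 0 2 (J.pd 0 2 (J.pd 1 2 f)) = 0 := by
    have h := congrArg (J.pd 0 3) R0
    simp only [map_add, map_zero, der_mul, dnum, div_eq_mul_inv, ai.pd, J.pd_D_0_3, N4_03 s1,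
      N4_03 s11, N4_03 s01, N4_03 s0, N4_03 s00, zero_mul, mul_zero, add_zero, zero_add] at h
    linear_combination (1 / 3) * h
  have hpq1 : J.pd 1 2 (J.pd 0 2 (J.pd 1 2 f)) = 0 := by
    have h := congrArg (J.pd 1 3) R0
    simp only [map_add, map_zero, der_mul, dnum, div_eq_mul_inv, ai.pd, J.pd_D_1_3, N4_13 s1,
      N4_13 s11, N4_13 s01, N4_13 s0, N4_13 s00, N4_03 s01, zero_mul, mul_zero, add_zero,
      zero_add] at h
    linear_combination (1 / 3) * h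
  have hb0 : J.pd 0 2 (J.pd 0 2 (J.pd 0 2 f)) = 0 := by
    have h := congrArg (J.pd 0 2) e1
    simp only [map_add, map_zero, der_mul, ha.pd, hy02, hZ02, hpq0, zero_mul, mul_zero, add_zero,
      zero_add] at h
    exact (mul_eq_zero.1 h).resolve_left (mul_ne_zero a0 hy)
  have hb1 : J.pd 1 2 (J.pd 0 2 (J.pd 0 2 f)) = 0 := by
    have h := congrArg (J.pd 1 2) e1
    simp only [map_add, map_zero, der_mul, ha.pd, hy12, hZ12, hpq1, zero_mul, mul_zero, add_zero,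
      zero_add] at h
    exact (mul_eq_zero.1 h).resolve_left (mul_ne_zero a0 hy)
  have hb2 : J.pd 2 2 (J.pd 0 2 (J.pd 0 2 f)) = 0 := by
    rw [J.pd_comm 2 2 0 2, J.pd_comm 2 2 0 2, hr]
    have h : J.pd 0 2 (-(3 / 2) * a) = 0 := by
      simp only [div_eq_mul_inv, der_mul, map_neg, dnum, ha.pd, der_inv_zero (J.pd 0 2)
        (dnum (J.pd 0 2) 2), zero_mul, mul_zero, add_zero, neg_zero]
    rw [h, map_zero]
  have HB : J.FXYZ (J.pd 0 2 (J.pd 0 2 f)) := N4_xyz s00 hb0 hb1 hb2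
  -- the total derivatives
  have Dy : J.D (J.u 0 1) = J.u 1 1 + J.u 0 2 := J.D_u 0 1
  have DZ : J.D (rZ J a) = 2 * a * J.u 1 2 := by
    have h : J.D (J.u 1 1) = J.u 2 1 + J.u 1 2 := J.D_u 1 1
    unfold rZ
    rw [map_add, Derivation.map_one_eq_zero, zero_add, ha.D_mul, h, J.u_symm 2 1]
    ring
  have de2 : rZ J a * J.D (J.pd 1 2 (J.pd 1 2 f)) + 2 * a * J.u 1 2 * J.pd 1 2 (J.pd 1 2 f)
      + a * (J.u 0 1 * J.D (J.pd 0 2 (J.pd 1 2 f))
        + (J.u 1 1 + J.u 0 2) * J.pd 0 2 (J.pd 1 2 f)) = 0 := by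
    have h := congrArg J.D e2
    have hc : J.D (3 * a ^ 2) = 0 := ((Jet.isC_ofNat 3).mul (ha.pow 2)).D
    rw [hc, map_add, der_mul, DZ, mul_assoc a, ha.D_mul, der_mul, Dy] at h
    linear_combination h
  have de1 : rZ J a * J.D (J.pd 0 2 (J.pd 1 2 f)) + 2 * a * J.u 1 2 * J.pd 0 2 (J.pd 1 2 f)
      + a * (J.u 0 1 * J.D (J.pd 0 2 (J.pd 0 2 f))
        + (J.u 1 1 + J.u 0 2) * J.pd 0 2 (J.pd 0 2 f)) = 0 := by
    have h := congrArg J.D e1
    rw [map_zero, map_add, der_mul, DZ, mul_assoc a, ha.D_mul, der_mul, Dy] at h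
    linear_combination h
  have hzz : rZ J a = 1 + a * J.u 1 1 := rfl
  have hfp := N4_alg1 a (rZ J a) (J.u 0 1) (J.u 0 2) (J.u 1 2) (J.u 1 1) _ _ _ _ _ _ _
    a0 hZ hy h3 hzz P1 e1 e2 de2 R1 R0
  have W := N4_alg2 a (rZ J a) (J.u 0 1) (J.u 0 2) (J.u 1 2) (J.u 1 1) _ _ _ _ _ _ _
    a0 hZ hy h3 hzz P1 e1 e2 de1 R0 hfp
  rw [HB.D] at W
  have hx := HB.P (mk2 0 0)
  have hY := HB.P (mk2 0 1)
  have hz := HB.P (mk2 1 1)
  have x02 : J.pd 0 2 (J.pd 0 0 (J.pd 0 2 (J.pd 0 2 f))) = 0 :=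
    hx _ (by decide) (by decide) (by decide)
  have x12 : J.pd 1 2 (J.pd 0 0 (J.pd 0 2 (J.pd 0 2 f))) = 0 :=
    hx _ (by decide) (by decide) (by decide)
  have y02 : J.pd 0 2 (J.pd 0 1 (J.pd 0 2 (J.pd 0 2 f))) = 0 :=
    hY _ (by decide) (by decide) (by decide)
  have y12 : J.pd 1 2 (J.pd 0 1 (J.pd 0 2 (J.pd 0 2 f))) = 0 :=
    hY _ (by decide) (by decide) (by decide)
  have z02 : J.pd 0 2 (J.pd 1 1 (J.pd 0 2 (J.pd 0 2 f))) = 0 :=
    hz _ (by decide) (by decide) (by decide)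
  have z12 : J.pd 1 2 (J.pd 1 1 (J.pd 0 2 (J.pd 0 2 f))) = 0 :=
    hz _ (by decide) (by decide) (by decide)
  have W1 := congrArg (J.pd 0 2) W
  simp only [map_add, map_sub, map_zero, der_mul, dnum, ha.pd, hy02, hz02, hp02, hq02, hZ02, hb0,
    x02, y02, z02, Derivation.map_one_eq_zero, zero_mul, mul_zero, add_zero, zero_add, mul_one,
    sub_zero] at W1
  have W2 := congrArg (J.pd 1 2) W
  simp only [map_add, map_sub, map_zero, der_mul, dnum, ha.pd, hy12, hz12, hp12, hq12, hZ12, hb1,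
    x12, y12, z12, Derivation.map_one_eq_zero, zero_mul, mul_zero, add_zero, zero_add, mul_one,
    sub_zero] at W2
  have r1 : J.pd 0 1 (J.pd 0 2 (J.pd 0 2 f)) =
      2 * J.u 0 1 * (J.pd 0 2 (J.pd 0 2 f)) ^ 2 * (rZ J a)⁻¹ / 3 := by
    field_simp
    have h5 : (a * rZ J a) * (J.pd 0 1 (J.pd 0 2 (J.pd 0 2 f)) * (3 * rZ J a)
        - 2 * J.u 0 1 * (J.pd 0 2 (J.pd 0 2 f)) ^ 2) = 0 := by
      linear_combination W1
    have h6 := (mul_eq_zero.1 h5).resolve_left (mul_ne_zero a0 hZ)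
    linear_combination h6
  have r2 : J.pd 1 1 (J.pd 0 2 (J.pd 0 2 f)) =
      -(a * J.u 0 1 ^ 2 * (J.pd 0 2 (J.pd 0 2 f)) ^ 2 * (rZ J a)⁻¹ ^ 2 / 3) := by
    field_simp
    have h5 : (2 * a) * (J.pd 1 1 (J.pd 0 2 (J.pd 0 2 f)) * (3 * rZ J a ^ 2)
        + a * J.u 0 1 ^ 2 * (J.pd 0 2 (J.pd 0 2 f)) ^ 2) = 0 := by
      linear_combination W2
    have h2 : (2 : F) ≠ 0 := by norm_num
    have h6 := (mul_eq_zero.1 h5).resolve_left (mul_ne_zero h2 a0)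
    linear_combination h6
  refine ⟨J.pd 0 2 (J.pd 0 2 f), HB, rfl, hfp, ?_, r1, r2⟩
  rw [r1, r2] at W
  have hz' : J.u 1 1 = (rZ J a - 1) / a := by
    rw [hzz]
    field_simp
    ring
  rw [hz'] at W
  have h2 : (2 : F) ≠ 0 := by norm_num
  have h5 : (6 * a * rZ J a ^ 2 * J.u 0 1) * (J.pd 0 0 (J.pd 0 2 (J.pd 0 2 f))
      + (J.pd 0 2 (J.pd 0 2 f)) ^ 2 / (3 * a)) = 0 := by
    linear_combination (norm := (field_simp; ring)) W
  have h6 : 6 * a * rZ J a ^ 2 * J.u 0 1 ≠ 0 :=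
    mul_ne_zero (mul_ne_zero (mul_ne_zero (by norm_num) a0) (pow_ne_zero 2 hZ)) hy
  have h7 := (mul_eq_zero.1 h5).resolve_left h6
  linear_combination h7

end Pool.Agent.Lib.MP_4d1bc1_mp.Kv
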