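import Pool.Agent.Lib.MP_4d1bc1_mp.Kv.RedDef

set_option autoImplicit false
set_option linter.unusedSimpArgs false

/-! Row kv-N5: case `f_r ≠ 0`, the form of `f`. -/

namespace Pool.Agent.Lib.MP_4d1bc1_mp.Kv

open Finset Polynomial

universe u

variable {F : Type u} [Field F] [Algebra ℝ F] {J : Jet F}

theorem N5_rZ_ne (J : Jet F) {a : F} (ca : J.IsC a) (a0 : a ≠ 0) : rZ J a ≠ 0 := by
  intro h
  have h1 : J.pd 1 1 (rZ J a) = a := by
    rw [rZ, map_add, Derivation.map_one_eq_zero, ca.pd_mul, J.pd_u]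
    simp
  rw [h, map_zero] at h1
  exact a0 h1.symm

theorem N5_idx (c : Idx2) (h : c.1.2 ≤ 2) : c = mk2 0 0 ∨ c = mk2 0 1 ∨ c = mk2 1 1 ∨ c = mk2 0 2 ∨ c = mk2 1 2
    ∨ c = mk2 2 2 := by
  obtain ⟨⟨i, j⟩, hij⟩ := c
  simp only at h hij
  have hi : i ≤ 2 := hij.trans h
  interval_cases j <;> interval_cases i <;> first | omega | simp [mk2]

/-- a derivation of the function `d` -/
theorem N5_der (δ : Derivation ℝ F F) {f a k w y i p q r : F} (ha : δ a = 0) (hk : δ k = 0) :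
    δ (f + 3 / 2 * a * (r - a * i * q ^ 2 - w * (p - a⁻¹ - a * y * q * i) ^ 2) + k / (4 * a))
      = δ f + 3 / 2 * a * (δ r - a * (δ i * q ^ 2 + 2 * i * q * δ q)
        - (δ w * (p - a⁻¹ - a * y * q * i) ^ 2 + 2 * w * (p - a⁻¹ - a * y * q * i)
          * (δ p - a * (δ y * q * i + y * δ q * i + y * q * δ i)))) := by
  have h1 : δ a⁻¹ = 0 := der_inv_zero δ ha
  have h2 : δ (k / (4 * a)) = 0 := der_div_zero δ hk (der_mul_zero δ (der_ofNat δ 4) ha)
  have h3 : δ (3 / 2 * a : F) = 0 :=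
    der_mul_zero δ (der_div_zero δ (der_ofNat δ 3) (der_ofNat δ 2)) ha
  rw [map_add, map_add, h2, der_const_mul δ h3]
  simp only [map_sub, pow_two, der_mul, ha, h1]
  ring

/-- the form of `f` -/
theorem N5 {f a k b : F} (hf : J.Six f) (ha : J.IsC a) (a0 : a ≠ 0)
    (hr : J.pd 2 2 f = -(3 / 2) * a) (hk : J.IsC k)
    (P1 : rZ J a * J.pd 1 2 f + a * J.u 0 1 * J.pd 0 2 f = 3 * a ^ 2 * J.u 1 2)
    (P2 : 2 * rZ J a * J.pd 1 1 f + a * J.u 0 1 * J.pd 0 1 f
          - 2 * (1 - a * J.u 0 2) * J.pd 0 2 f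
          + 3 * a * J.u 1 2 * J.pd 1 2 f = 4 * a * f + 6 * a ^ 2 * J.u 2 2 + k)
    (hb : J.FXYZ b)
    (hp : J.pd 0 2 f = b * (a * J.u 0 2 - a ^ 2 * J.u 0 1 * J.u 1 2 * (rZ J a)⁻¹ - 1) / a)
    (b0 : J.pd 0 0 b = -(b ^ 2 / (3 * a)))
    (b1 : J.pd 0 1 b = 2 * J.u 0 1 * b ^ 2 * (rZ J a)⁻¹ / 3)
    (b2 : J.pd 1 1 b = -(a * J.u 0 1 ^ 2 * b ^ 2 * (rZ J a)⁻¹ ^ 2 / 3)) :
    ∃ κ w d : F, Red J a κ w ∧ J.FXYZ d ∧ f = rf J a w + d - k / (4 * a)
      ∧ 2 * rZ J a * J.pd 1 1 d + a * J.u 0 1 * J.pd 0 1 d = 4 * a * d := by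
  have hch := J.charZero
  have h3 : (3 : F) ≠ 0 := by norm_num
  have hZ := N5_rZ_ne J ha a0
  have e3a : (3 : F) * a ≠ 0 := mul_ne_zero h3 a0
  have c3a : J.IsC (3 * a) := (Jet.isC_ofNat 3).mul ha
  -- derivatives of the inverse of `Z`
  have hZd : ∀ c : Idx2, c ≠ mk2 1 1 → J.T.P c (rZ J a) = 0 := by
    intro c hc
    have h : J.T.P c (J.u 1 1) = 0 := by
      rw [Jet.u, J.P_U, if_neg hc]
    rw [rZ, map_add, Derivation.map_one_eq_zero, der_const_mul _ (ha c), h, mul_zero, zero_add]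
  have hid : ∀ c : Idx2, c ≠ mk2 1 1 → J.T.P c (rZ J a)⁻¹ = 0 := fun c hc =>
    der_inv_zero _ (hZd c hc)
  have hi11 : J.pd 1 1 (rZ J a)⁻¹ = -(a * (rZ J a)⁻¹ ^ 2) := by
    have h1 : J.pd 1 1 (rZ J a) = a := by
      rw [rZ, map_add, Derivation.map_one_eq_zero, ha.pd_mul, J.pd_u]
      simp
    rw [Derivation.leibniz_inv, h1]
    simp only [smul_eq_mul]
    ring
  -- the function `w`
  set w : F := b / (3 * a) with hwdef
  have hbw : b = 3 * a * w := by
    rw [hwdef]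
    field_simp
  have hwd : ∀ c : Idx2, J.T.P c w = J.T.P c b / (3 * a) := by
    intro c
    rw [hwdef, div_eq_mul_inv, der_mul, der_inv_zero _ (c3a c)]
    ring
  set i : F := (rZ J a)⁻¹ with hidef
  have hiZ : i * rZ J a = 1 := inv_mul_cancel₀ hZ
  -- `Red`
  have hRed : ∃ κ, Red J a κ w := by
    by_cases hb0 : b = 0
    · exact ⟨0, ha, a0, Jet.isC_zero, Or.inl (by rw [hwdef, hb0, zero_div])⟩
    refine ⟨3 * a / b - J.u 0 0 + a * J.u 0 1 ^ 2 * i, ha, a0, ?_, Or.inr ?_⟩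
    · have hd : ∀ δ : Derivation ℝ F F, δ a = 0 →
          δ (3 * a / b - J.u 0 0 + a * J.u 0 1 ^ 2 * i)
            = -(3 * a * δ b / b ^ 2) - δ (J.u 0 0) + a * (2 * J.u 0 1 * δ (J.u 0 1) * i + J.u 0 1 ^ 2 * δ i) := by
        intro δ hδ
        have h1 : δ (3 * a / b) = -(3 * a * δ b / b ^ 2) := by
          rw [div_eq_mul_inv, der_const_mul δ (der_mul_zero δ (der_ofNat δ 3) hδ), Derivation.leibniz_inv]
          simp only [smul_eq_mul]
          field_simp
        rw [map_add, map_sub, h1]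
        simp only [pow_two, der_mul, hδ]
        ring
      intro c
      rw [hd _ (ha c)]
      by_cases hc1 : c = mk2 0 0
      · subst hc1
        have e1 : J.T.P (mk2 0 0) b = -(b ^ 2 / (3 * a)) := b0
        have e2 : J.T.P (mk2 0 0) (J.u 0 0) = 1 := by
          have h := J.pd_u 0 0 0 0
          simpa [Jet.pd] using h
        have e3 : J.T.P (mk2 0 0) (J.u 0 1) = 0 := by
          have h := J.pd_u 0 0 0 1
          simpa [Jet.pd] using h
        rw [e1, e2, e3, hid _ (by decide)]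
        field_simp
        ring
      by_cases hc2 : c = mk2 0 1
      · subst hc2
        have e1 : J.T.P (mk2 0 1) b = 2 * J.u 0 1 * b ^ 2 * i / 3 := b1
        have e2 : J.T.P (mk2 0 1) (J.u 0 0) = 0 := by
          have h := J.pd_u 0 1 0 0
          simpa [Jet.pd] using h
        have e3 : J.T.P (mk2 0 1) (J.u 0 1) = 1 := by
          have h := J.pd_u 0 1 0 1
          simpa [Jet.pd] using h
        rw [e1, e2, e3, hid _ (by decide)]
        field_simp
        ring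
      by_cases hc3 : c = mk2 1 1
      · subst hc3
        have e1 : J.T.P (mk2 1 1) b = -(a * J.u 0 1 ^ 2 * b ^ 2 * i ^ 2 / 3) := b2
        have e2 : J.T.P (mk2 1 1) (J.u 0 0) = 0 := by
          have h := J.pd_u 1 1 0 0
          simpa [Jet.pd] using h
        have e3 : J.T.P (mk2 1 1) (J.u 0 1) = 0 := by
          have h := J.pd_u 1 1 0 1
          simpa [Jet.pd] using h
        have e4 : J.T.P (mk2 1 1) i = -(a * i ^ 2) := hi11
        rw [e1, e2, e3, e4]
        field_simp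
        ring
      have e1 : J.T.P c b = 0 := hb c hc1 hc2 hc3
      have e2 : J.T.P c (J.u 0 0) = 0 := by rw [Jet.u, J.P_U, if_neg hc1]
      have e3 : J.T.P c (J.u 0 1) = 0 := by rw [Jet.u, J.P_U, if_neg hc2]
      rw [e1, e2, e3, hid c hc3]
      ring
    · have h1 : J.u 0 0 + (3 * a / b - J.u 0 0 + a * J.u 0 1 ^ 2 * i) - a * J.u 0 1 ^ 2 * (rZ J a)⁻¹
          = 3 * a / b := by
        rw [← hidef]
        ring
      rw [h1, hwdef]
      field_simp
  obtain ⟨κ, hR⟩ := hRed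
  -- the function `d`
  set d : F := f + 3 / 2 * a * (J.u 2 2 - a * i * J.u 1 2 ^ 2
    - w * (J.u 0 2 - a⁻¹ - a * J.u 0 1 * J.u 1 2 * i) ^ 2) + k / (4 * a) with hd
  have hder := fun (c : Idx2) => N5_der (J.T.P c) (f := f) (w := w) (y := J.u 0 1) (i := i)
    (p := J.u 0 2) (q := J.u 1 2) (r := J.u 2 2) (ha c) (hk c)
  rw [← hd] at hder
  have e2 : (2 : F) ≠ 0 := by norm_num
  have hfp : J.pd 0 2 f = 3 * a * w * (J.u 0 2 - a⁻¹ - a * J.u 0 1 * J.u 1 2 * i) := by
    rw [hp, hbw]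
    field_simp
    ring
  have hfq : J.pd 1 2 f = i * (3 * a ^ 2 * J.u 1 2 - a * J.u 0 1 * J.pd 0 2 f) := by
    rw [← P1]
    linear_combination (-(J.pd 1 2 f)) * hiZ
  have hXYZ : J.FXYZ d := by
    intro c hc1 hc2 hc3
    have ew : J.T.P c w = 0 := by rw [hwd, hb c hc1 hc2 hc3, zero_div]
    have ey : J.T.P c (J.u 0 1) = 0 := by rw [Jet.u, J.P_U, if_neg hc2]
    have ei : J.T.P c i = 0 := hid c hc3
    rw [hder c, ew, ey, ei]
    by_cases hc4 : c = mk2 0 2
    · subst hc4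
      have f1 : J.T.P (mk2 0 2) f = J.pd 0 2 f := rfl
      have f2 : J.T.P (mk2 0 2) (J.u 0 2) = 1 := by
        have h := J.pd_u 0 2 0 2
        simpa [Jet.pd] using h
      have f3 : J.T.P (mk2 0 2) (J.u 1 2) = 0 := by
        have h := J.pd_u 0 2 1 2
        simpa [Jet.pd] using h
      have f4 : J.T.P (mk2 0 2) (J.u 2 2) = 0 := by
        have h := J.pd_u 0 2 2 2
        simpa [Jet.pd] using h
      rw [f1, f2, f3, f4, hfp]
      field_simp
      ring
    by_cases hc5 : c = mk2 1 2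
    · subst hc5
      have f1 : J.T.P (mk2 1 2) f = J.pd 1 2 f := rfl
      have f2 : J.T.P (mk2 1 2) (J.u 0 2) = 0 := by
        have h := J.pd_u 1 2 0 2
        simpa [Jet.pd] using h
      have f3 : J.T.P (mk2 1 2) (J.u 1 2) = 1 := by
        have h := J.pd_u 1 2 1 2
        simpa [Jet.pd] using h
      have f4 : J.T.P (mk2 1 2) (J.u 2 2) = 0 := by
        have h := J.pd_u 1 2 2 2
        simpa [Jet.pd] using h
      rw [f1, f2, f3, f4, hfq, hfp]
      field_simp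
      ring
    by_cases hc6 : c = mk2 2 2
    · subst hc6
      have f1 : J.T.P (mk2 2 2) f = -(3 / 2) * a := hr
      have f2 : J.T.P (mk2 2 2) (J.u 0 2) = 0 := by
        have h := J.pd_u 2 2 0 2
        simpa [Jet.pd] using h
      have f3 : J.T.P (mk2 2 2) (J.u 1 2) = 0 := by
        have h := J.pd_u 2 2 1 2
        simpa [Jet.pd] using h
      have f4 : J.T.P (mk2 2 2) (J.u 2 2) = 1 := by
        have h := J.pd_u 2 2 2 2
        simpa [Jet.pd] using h
      rw [f1, f2, f3, f4]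
      ring
    have hlt : 2 < c.1.2 := by
      by_contra hlt
      rcases N5_idx c (not_lt.1 hlt) with h | h | h | h | h | h
      · exact hc1 h
      · exact hc2 h
      · exact hc3 h
      · exact hc4 h
      · exact hc5 h
      · exact hc6 h
    have f1 : J.T.P c f = 0 := hf c hlt
    have f2 : J.T.P c (J.u 0 2) = 0 := by rw [Jet.u, J.P_U, if_neg hc4]
    have f3 : J.T.P c (J.u 1 2) = 0 := by rw [Jet.u, J.P_U, if_neg hc5]
    have f4 : J.T.P c (J.u 2 2) = 0 := by rw [Jet.u, J.P_U, if_neg hc6]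
    rw [f1, f2, f3, f4]
    ring
  refine ⟨κ, w, d, hR, hXYZ, ?_, ?_⟩
  · rw [rf, rh, rb, if_pos rfl, hd]
    rw [← hidef]
    ring
  · have g1 : J.pd 1 1 d = J.pd 1 1 f + 3 / 2 * a * (-(a * (-(a * i ^ 2) * J.u 1 2 ^ 2))
        - (-(a * J.u 0 1 ^ 2 * b ^ 2 * i ^ 2 / 3) / (3 * a)
            * (J.u 0 2 - a⁻¹ - a * J.u 0 1 * J.u 1 2 * i) ^ 2
          + 2 * w * (J.u 0 2 - a⁻¹ - a * J.u 0 1 * J.u 1 2 * i)
            * (-(a * (J.u 0 1 * J.u 1 2 * -(a * i ^ 2)))))) := by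
      have h := hder (mk2 1 1)
      have f1 : J.T.P (mk2 1 1) (J.u 0 1) = 0 := by
        have h := J.pd_u 1 1 0 1
        simpa [Jet.pd] using h
      have f2 : J.T.P (mk2 1 1) (J.u 0 2) = 0 := by
        have h := J.pd_u 1 1 0 2
        simpa [Jet.pd] using h
      have f3 : J.T.P (mk2 1 1) (J.u 1 2) = 0 := by
        have h := J.pd_u 1 1 1 2
        simpa [Jet.pd] using h
      have f4 : J.T.P (mk2 1 1) (J.u 2 2) = 0 := by
        have h := J.pd_u 1 1 2 2
        simpa [Jet.pd] using h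
      have f5 : J.T.P (mk2 1 1) i = -(a * i ^ 2) := hi11
      have f6 : J.T.P (mk2 1 1) b = -(a * J.u 0 1 ^ 2 * b ^ 2 * i ^ 2 / 3) := b2
      rw [f1, f2, f3, f4, f5, hwd, f6] at h
      show J.T.P (mk2 1 1) d = _
      rw [h]
      show _ = J.T.P (mk2 1 1) f + _
      ring
    have g2 : J.pd 0 1 d = J.pd 0 1 f + 3 / 2 * a * (
        - (2 * J.u 0 1 * b ^ 2 * i / 3 / (3 * a)
            * (J.u 0 2 - a⁻¹ - a * J.u 0 1 * J.u 1 2 * i) ^ 2
          + 2 * w * (J.u 0 2 - a⁻¹ - a * J.u 0 1 * J.u 1 2 * i)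
            * (-(a * (J.u 1 2 * i))))) := by
      have h := hder (mk2 0 1)
      have f1 : J.T.P (mk2 0 1) (J.u 0 1) = 1 := by
        have h := J.pd_u 0 1 0 1
        simpa [Jet.pd] using h
      have f2 : J.T.P (mk2 0 1) (J.u 0 2) = 0 := by
        have h := J.pd_u 0 1 0 2
        simpa [Jet.pd] using h
      have f3 : J.T.P (mk2 0 1) (J.u 1 2) = 0 := by
        have h := J.pd_u 0 1 1 2
        simpa [Jet.pd] using h
      have f4 : J.T.P (mk2 0 1) (J.u 2 2) = 0 := by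
        have h := J.pd_u 0 1 2 2
        simpa [Jet.pd] using h
      have f5 : J.T.P (mk2 0 1) i = 0 := hid _ (by decide)
      have f6 : J.T.P (mk2 0 1) b = 2 * J.u 0 1 * b ^ 2 * i / 3 := b1
      rw [f1, f2, f3, f4, f5, hwd, f6] at h
      show J.T.P (mk2 0 1) d = _
      rw [h]
      show _ = J.T.P (mk2 0 1) f + _
      ring
    rw [hfq, hfp] at P2
    rw [g1, g2, hd, hbw]
    generalize J.pd 1 1 f = f11 at *
    generalize J.pd 0 1 f = f01 at *
    generalize J.u 0 1 = y at *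
    generalize J.u 0 2 = p at *
    generalize J.u 1 2 = q at *
    generalize J.u 2 2 = r at *
    generalize rZ J a = Z at *
    have key : f11 = (4 * a * f + 6 * a ^ 2 * r + k + 2 * (1 - a * p) * (3 * a * w * (p - a⁻¹ - a * y * q * i))
        - 3 * a * q * (i * (3 * a ^ 2 * q - a * y * (3 * a * w * (p - a⁻¹ - a * y * q * i))))
        - a * y * f01) * i / 2 := by
      rw [← sub_eq_zero]
      linear_combination (i / 2) * P2 - f11 * hiZ
    have hi : i = 1 / Z := by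
      rw [eq_div_iff hZ]
      exact hiZ
    rw [key]
    clear_value i w
    rw [hi]
    field_simp
    ring

end Pool.Agent.Lib.MP_4d1bc1_mp.Kv
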