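import Pool.Agent.Lib.MP_4d1bc1_mp.Kv.RedDef

set_option autoImplicit false
set_option linter.unusedSimpArgs false

/-! Row kv-N6: case `f_r ≠ 0`, the integrated fourth coefficient for `δθ`. -/

namespace Pool.Agent.Lib.MP_4d1bc1_mp.Kv

open Finset Polynomial

universe u

variable {F : Type u} [Field F] [Algebra ℝ F] {J : Jet F}

/-- the integrated equation -/
noncomputable def W2 (J : Jet F) (a k f θ : F) : F :=
  12 * a * θ + 3 * a * J.D (J.D f) + 6 * J.cB f + 3 * J.D (J.cG f)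
    - 3 * a * J.ip (J.DM (J.v1 f)) (X ^ 2) - 6 * a * J.ip (J.v0 f) (X ^ 2)
    - 3 * a * (J.ip (J.grad 1 f) (Jet.K3 f) + J.ip (J.grad 2 f) (J.DM (Jet.K3 f))
        - J.ip (J.DM (J.grad 2 f)) (Jet.K3 f))
    + 2 * k * f + 2 * k * J.cJ f - 3 * a * f ^ 2 + 5 * a * f * J.cJ f
    + (k + 4 * a * f) * J.D (J.cK f) + a * J.cK f * J.D f

theorem N6_mu {f : F} (hf : J.Six f) (hα : J.IsC (J.pd 2 2 f)) :
    J.cM f = J.cJ f - f + J.D (J.cK f) := by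
  have h1 : J.cM f = 2 * J.ip (J.DM (J.grad 2 f)) X - J.ip (J.grad 1 f) X := by
    rw [← hf.ip_v1 hα, Jet.v1, Jet.ip_sub_left]
    congr 1
    rw [← map_ofNat (C : F →+* F[X]) 2, Jet.ip_C_mul_left]
  have h2 : J.cJ f = f - J.ip (J.grad 1 f) X + J.D (J.ip (J.grad 2 f) X)
      - 2 * J.ip (J.grad 2 f) (X ^ 2) := by
    rw [Jet.cJ, Jet.cK, hf.grad1, hf.grad2]
    simp only [J.unr, pow_zero]
    ring_nf
  have h3 : J.D (J.cK f) = J.ip (J.DM (J.grad 2 f)) X + J.ip (J.grad 2 f) (X ^ 2) := by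
    rw [← hf.ip_v2, Jet.v2, Jet.D_ip, Jet.DM_X]
  have h4 : J.cK f = J.ip (J.grad 2 f) X := by
    rw [← hf.ip_v2, Jet.v2]
  rw [h1, h2, ← h4, h3]
  ring

/-- the third scalar product of `v0` -/
theorem N6_v03 {f : F} (hf : J.Six f) (hα : J.IsC (J.pd 2 2 f)) :
    J.ip (J.v0 f) (X ^ 3) = J.evo (Jet.K3 f) f - f * J.cE f
      - J.D (J.ip (J.grad 1 f) (Jet.K3 f) + J.ip (J.grad 2 f) (J.DM (Jet.K3 f))
        - J.ip (J.DM (J.grad 2 f)) (Jet.K3 f)) := by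
  have h1 : J.evo (Jet.K3 f) f = J.ip (J.grad 0 f) (Jet.K3 f)
      + J.ip (J.grad 1 f) (J.DM (Jet.K3 f)) + J.ip (J.grad 2 f) (J.DM (J.DM (Jet.K3 f))) := by
    rw [J.evo_eq_sum (Jet.K3 f) hf.bd, sum_range_succ, sum_range_succ, sum_range_one]
    simp only [Function.iterate_succ, Function.iterate_zero, Function.comp_apply, id_eq]
  have h2 : J.ip (J.v0 f) (Jet.K3 f) = J.ip (J.v0 f) (X ^ 3) + f * J.cE f := by
    rw [Jet.K3, Jet.ip_add_right, Jet.ip_C_mul_right, hf.ip_v0 hα]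
  have h3 : J.ip (J.v0 f) (Jet.K3 f) = J.ip (J.grad 0 f) (Jet.K3 f)
      - J.ip (J.DM (J.grad 1 f)) (Jet.K3 f) + J.ip (J.DM (J.DM (J.grad 2 f))) (Jet.K3 f) := by
    rw [Jet.v0, Jet.ip_add_left, Jet.ip_sub_left]
  rw [map_sub, map_add, Jet.D_ip, Jet.D_ip, Jet.D_ip]
  linear_combination h3 - h2 - h1

/-- the scalar product of `-δθ` with `u_1` -/
theorem N6_e {f : F} (hf : J.Six f) (hα : J.IsC (J.pd 2 2 f)) :
    J.ip (J.mth f) X = J.evo (Jet.K3 f) (J.cM f) - J.D (J.D (J.D (J.cM f)))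
      - J.D (f * J.cM f) - J.D f * J.cM f + 3 * J.D (J.ip (J.DM (J.v1 f)) (X ^ 2))
      - 3 * J.D (J.D (J.cE f)) + 6 * J.D (J.ip (J.v0 f) (X ^ 2)) - 3 * J.ip (J.v0 f) (X ^ 3)
      - f * J.cE f + 2 * J.cM f * J.cE f + J.cM f * J.D (J.cM f) + 2 * J.cK f * J.D (J.cE f)
      + J.cK f * J.D (J.D (J.cM f)) := by
  have hK : J.evoV (Jet.K3 f) (X : F[X]) = X ^ 4 + C f * X ^ 2 + C (J.D f) * X := by
    have h := J.evoV_X_pow (Jet.K3 f) 1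
    rw [pow_one] at h
    rw [h, J.iter_K3_1 f]
  have h1 : J.evo (Jet.K3 f) (J.cM f) = J.ip (J.evoV (Jet.K3 f) (J.v1 f)) X
      + J.ip (J.v1 f) (X ^ 4) + f * J.ip (J.v1 f) (X ^ 2) + J.D f * J.cM f := by
    rw [← hf.ip_v1 hα, Jet.evo_ip, hK, Jet.ip_add_right, Jet.ip_add_right, Jet.ip_C_mul_right,
      Jet.ip_C_mul_right]
    ring
  have h2 : J.D (J.D (J.cE f)) = J.ip (J.DM (J.DM (J.v0 f))) X
      + 2 * J.ip (J.DM (J.v0 f)) (X ^ 2) + J.ip (J.v0 f) (X ^ 3) := by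
    rw [← hf.ip_v0 hα, Jet.D_ip, map_add, Jet.D_ip, Jet.D_ip, Jet.DM_X, Jet.DM_X_pow]
    ring
  have h3 : J.D (J.ip (J.v0 f) (X ^ 2)) = J.ip (J.DM (J.v0 f)) (X ^ 2)
      + J.ip (J.v0 f) (X ^ 3) := by
    rw [Jet.D_ip, Jet.DM_X_pow]
  have h4 : J.D (J.D (J.D (J.cM f))) = J.ip (J.DM (J.DM (J.DM (J.v1 f)))) X
      + 3 * J.ip (J.DM (J.DM (J.v1 f))) (X ^ 2) + 3 * J.ip (J.DM (J.v1 f)) (X ^ 3)
      + J.ip (J.v1 f) (X ^ 4) := by
    rw [← hf.ip_v1 hα, Jet.D_ip, map_add, map_add, Jet.D_ip, Jet.D_ip, map_add, map_add,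
      Jet.D_ip, Jet.D_ip, Jet.D_ip, Jet.DM_X, Jet.DM_X_pow, Jet.DM_X_pow]
    ring
  have h5 : J.D (J.ip (J.DM (J.v1 f)) (X ^ 2)) = J.ip (J.DM (J.DM (J.v1 f))) (X ^ 2)
      + J.ip (J.DM (J.v1 f)) (X ^ 3) := by
    rw [Jet.D_ip, Jet.DM_X_pow]
  have h6 : J.ip (J.DM (C f * J.v1 f)) X = J.D (f * J.cM f) - f * J.ip (J.v1 f) (X ^ 2) := by
    have h : J.D (J.ip (C f * J.v1 f) X) = J.ip (J.DM (C f * J.v1 f)) X
        + J.ip (C f * J.v1 f) (X ^ 2) := by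
      rw [Jet.D_ip, Jet.DM_X]
    rw [Jet.ip_C_mul_left, Jet.ip_C_mul_left, hf.ip_v1 hα] at h
    linear_combination -h
  have h7 : J.ip (3 * J.DM (J.DM (J.v0 f))) X = 3 * J.ip (J.DM (J.DM (J.v0 f))) X := by
    rw [← map_ofNat (C : F →+* F[X]) 3, Jet.ip_C_mul_left]
  rw [Jet.mth, Jet.cosL1]
  simp only [Jet.ip_add_left, Jet.ip_sub_left, Jet.ip_C_mul_left, hf.ip_v0 hα, hf.ip_v1 hα,
    hf.ip_v2, h6, h7]
  linear_combination -h1 + 3 * h2 - 6 * h3 + h4 - 3 * h5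

theorem N6 {f θ a k : F} (hf : J.Six f) (ha : J.IsC a) (a0 : a ≠ 0)
    (hr : J.pd 2 2 f = -(3 / 2) * a) (h0 : J.cosL f (J.v0 f) = 0) (hk : J.IsC k)
    (hA : J.cA f = 3 * a * f + a * J.cJ f + k)
    (P1 : rZ J a * J.pd 1 2 f + a * J.u 0 1 * J.pd 0 2 f = 3 * a ^ 2 * J.u 1 2)
    (hθ : J.cosL f (-J.mth f) = 0) (hT : J.evo (Jet.K3 f) f = J.D θ) :
    J.IsC (W2 J a k f θ) := by
  have hch := J.charZero
  have hα : J.IsC (J.pd 2 2 f) := Jet.isC_pd22 hf h0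
  have hc : J.IsC (3 / 2 : F) := (Jet.isC_ofNat 3).div (Jet.isC_ofNat 2)
  have hfq : J.pd 1 2 f = -a * J.cK f := by
    rw [Jet.cK, hr]
    rw [rZ] at P1
    linear_combination P1
  have hμ := N6_mu hf hα
  have he := Jet.cE_eq hf hα
  have hE := N6_e hf hα
  have h3 := N6_v03 hf hα
  have hII := Jet.eq_II hf hα h0
  obtain ⟨m6, m5, m4, m3⟩ := Jet.mth_hi hf hα
  have m2 := Jet.mth_2 hf hα
  obtain ⟨a0', a1', a2', a3', a4', a5'⟩ := hf.c0 hα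
  obtain ⟨b0', b1', b2', b3', b5'⟩ := hf.c1 hα
  obtain ⟨c0', c1', c2', c5'⟩ := hf.c2
  have hip : J.ip (-J.mth f) X = -J.ip (J.mth f) X := J.ip_neg_left _ _
  have h4 := congrArg (fun U : F[X] => U.coeff 4) hθ
  simp only [J.coeff_cosL_4 f (b := -J.mth f) (fun i hi => by
      rw [coeff_neg, Jet.mth_big hf hα i hi, neg_zero]), Jet.coeff_Ef, coeff_zero, coeff_neg, m6,
    m5, m4, m3, m2, hip, a4', b5' 4 (by omega), c5' 4 (by omega)] at h4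
  rw [hE, h3] at h4
  rw [hr, hμ, he, hA, hfq] at h4
  rw [hr, he, hA, hfq] at hII
  simp only [map_add, map_sub, map_neg, der_mul, dnum, ha.D, ha.evo, hk.D, hk.evo, hc.D,
    hc.evo, map_zero, neg_zero, mul_zero, zero_mul, add_zero, zero_add, Jet.evo_D, hT] at h4 hII
  apply Jet.isC_of_D_zero
  rw [W2, pow_two f]
  simp only [map_add, map_sub, map_neg, der_mul, dnum, ha.D, hk.D, map_zero,
    mul_zero, zero_mul, add_zero, zero_add]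
  linear_combination (-1 / 3) * h4 - hII

end Pool.Agent.Lib.MP_4d1bc1_mp.Kv
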