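import Pool.Agent.Lib.MP_4d1bc1_mp.Kv.Rows.RowRedT

set_option autoImplicit false
set_option linter.unusedSimpArgs false

/-! Row kv-s5: the potential `θ` and the condition for the symmetry of order five. -/

namespace Pool.Agent.Lib.MP_4d1bc1_mp.Kv

open Finset Polynomial

universe u

variable {F : Type u} [Field F] [Algebra ℝ F] {J : Jet F} {a κ w : F}

/-- rules of a derivation on the reduced variables -/
private structure S5R (δ : Derivation ℝ F F) (a w M E : F) (p o : ℕ → F) (h : ℕ → ℕ → F) :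
    Prop where
  dE : δ (E) =
    2 * M - 2 * E * o 2
  dM : δ (M) =
    w + E * p 2 - M * o 2
  da : δ (a) =
    0
  dh22 : δ (h 2 2) =
    2 * h 2 3 - 2 * h 2 2 * o 2
  dh23 : δ (h 2 3) =
    h 2 4 + h 3 3 - h 2 2 * o 3 - h 2 3 * o 2
  dh24 : δ (h 2 4) =
    h 2 5 + h 3 4 - h 2 2 * o 4 - h 2 4 * o 2
  dh25 : δ (h 2 5) =
    h 2 6 + h 3 5 - h 2 2 * o 5 - h 2 5 * o 2
  dh26 : δ (h 2 6) =
    h 2 7 + h 3 6 - h 2 2 * o 6 - h 2 6 * o 2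
  dh33 : δ (h 3 3) =
    2 * h 3 4 - 2 * h 2 3 * o 3
  dh34 : δ (h 3 4) =
    h 3 5 + h 4 4 - h 2 3 * o 4 - h 2 4 * o 3
  dh35 : δ (h 3 5) =
    h 3 6 + h 4 5 - h 2 3 * o 5 - h 2 5 * o 3
  dh44 : δ (h 4 4) =
    2 * h 4 5 - 2 * h 2 4 * o 4
  do2 : δ (o 2) =
    -(o 2 * o 2) + o 3 - p 2 + E * h 2 2
  do3 : δ (o 3) =
    o 4 - p 3 + E * h 2 3 - o 2 * o 3
  do4 : δ (o 4) =
    o 5 - p 4 + E * h 2 4 - o 2 * o 4
  do5 : δ (o 5) =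
    o 6 - p 5 + E * h 2 5 - o 2 * o 5
  dp2 : δ (p 2) =
    p 3 - M * h 2 2 - o 2 * p 2
  dp3 : δ (p 3) =
    p 4 - M * h 2 3 - o 3 * p 2
  dp4 : δ (p 4) =
    p 5 - M * h 2 4 - o 4 * p 2
  dw : δ (w) =
    2 * M * p 2

section
variable {δ : Derivation ℝ F F} {M E : F} {p o : ℕ → F} {h : ℕ → ℕ → F}

private theorem S5_H1 (R : S5R δ a w M E p o h) : δ (
    h 2 2) =
    2 * h 2 3 - 2 * h 2 2 * o 2 := by
  simp only [map_add, map_sub, map_neg, der_mul, dnum, R.dh22]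
private theorem S5_H2 (R : S5R δ a w M E p o h) : δ (
    2 * h 2 3 - 2 * h 2 2 * o 2) =
    2 * h 2 4 + 2 * h 3 3 - 2 * E * h 2 2 * h 2 2 + 6 * h 2 2 * o 2 * o 2 - 4 * h 2 2 * o 3
    + 2 * h 2 2 * p 2 - 6 * h 2 3 * o 2 := by
  simp only [map_add, map_sub, map_neg, der_mul, dnum, R.dh22, R.dh23, R.do2]
  ring

private theorem S5_H3 (R : S5R δ a w M E p o h) : δ (
    2 * h 2 4 + 2 * h 3 3 - 2 * E * h 2 2 * h 2 2 + 6 * h 2 2 * o 2 * o 2 - 4 * h 2 2 * o 3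
    + 2 * h 2 2 * p 2 - 6 * h 2 3 * o 2) =
    2 * h 2 5 + 6 * h 3 4 - 6 * M * h 2 2 * h 2 2 - 24 * h 2 2 * o 2 * o 2 * o 2
    - 6 * h 2 2 * o 4 + 6 * h 2 2 * p 3 + 24 * h 2 3 * o 2 * o 2 - 18 * h 2 3 * o 3
    + 10 * h 2 3 * p 2 - 8 * h 2 4 * o 2 - 6 * h 3 3 * o 2 - 18 * E * h 2 2 * h 2 3
    + 24 * E * h 2 2 * h 2 2 * o 2 + 30 * h 2 2 * o 2 * o 3 - 18 * h 2 2 * o 2 * p 2 := by
  simp only [map_add, map_sub, map_neg, der_mul, dnum, R.dE, R.dh22, R.dh23, R.dh24, R.dh33, R.do2, R.do3, R.dp2]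
  ring

private theorem S5_H4 (R : S5R δ a w M E p o h) : δ (
    2 * h 2 5 + 6 * h 3 4 - 6 * M * h 2 2 * h 2 2 - 24 * h 2 2 * o 2 * o 2 * o 2
    - 6 * h 2 2 * o 4 + 6 * h 2 2 * p 3 + 24 * h 2 3 * o 2 * o 2 - 18 * h 2 3 * o 3
    + 10 * h 2 3 * p 2 - 8 * h 2 4 * o 2 - 6 * h 3 3 * o 2 - 18 * E * h 2 2 * h 2 3
    + 24 * E * h 2 2 * h 2 2 * o 2 + 30 * h 2 2 * o 2 * o 3 - 18 * h 2 2 * o 2 * p 2) =
    2 * h 2 6 + 8 * h 3 5 + 6 * h 4 4 - 54 * E * h 2 3 * h 2 3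
    + 24 * E * E * h 2 2 * h 2 2 * h 2 2 + 120 * h 2 2 * o 2 * o 2 * o 2 * o 2
    + 48 * h 2 2 * o 3 * o 3 - 8 * h 2 2 * o 5 + 18 * h 2 2 * p 2 * p 2 + 12 * h 2 2 * p 4
    - 6 * h 2 2 * h 2 2 * w - 120 * h 2 3 * o 2 * o 2 * o 2 - 36 * h 2 3 * o 4
    + 40 * h 2 3 * p 3 + 40 * h 2 4 * o 2 * o 2 - 32 * h 2 4 * o 3 + 18 * h 2 4 * p 2
    - 10 * h 2 5 * o 2 + 30 * h 3 3 * o 2 * o 2 - 24 * h 3 3 * o 3 + 16 * h 3 3 * p 2
    - 20 * h 3 4 * o 2 - 32 * E * h 2 2 * h 2 4 - 24 * E * h 2 2 * h 3 3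
    - 240 * E * h 2 2 * h 2 2 * o 2 * o 2 + 72 * E * h 2 2 * h 2 2 * o 3
    - 48 * E * h 2 2 * h 2 2 * p 2 - 76 * M * h 2 2 * h 2 3 + 96 * M * h 2 2 * h 2 2 * o 2
    + 56 * h 2 2 * o 2 * o 4 - 60 * h 2 2 * o 2 * p 3 - 216 * h 2 2 * o 2 * o 2 * o 3
    + 144 * h 2 2 * o 2 * o 2 * p 2 - 64 * h 2 2 * o 3 * p 2 + 156 * h 2 3 * o 2 * o 3
    - 104 * h 2 3 * o 2 * p 2 + 264 * E * h 2 2 * h 2 3 * o 2 := by
  simp only [map_add, map_sub, map_neg, der_mul, dnum, R.dE, R.dM, R.dh22, R.dh23, R.dh24, R.dh25, R.dh33, R.dh34, R.do2, R.do3, R.do4, R.dp2, R.dp3]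
  ring

private theorem S5_H5 (R : S5R δ a w M E p o h) : δ (
    2 * h 2 6 + 8 * h 3 5 + 6 * h 4 4 - 54 * E * h 2 3 * h 2 3
    + 24 * E * E * h 2 2 * h 2 2 * h 2 2 + 120 * h 2 2 * o 2 * o 2 * o 2 * o 2
    + 48 * h 2 2 * o 3 * o 3 - 8 * h 2 2 * o 5 + 18 * h 2 2 * p 2 * p 2 + 12 * h 2 2 * p 4
    - 6 * h 2 2 * h 2 2 * w - 120 * h 2 3 * o 2 * o 2 * o 2 - 36 * h 2 3 * o 4
    + 40 * h 2 3 * p 3 + 40 * h 2 4 * o 2 * o 2 - 32 * h 2 4 * o 3 + 18 * h 2 4 * p 2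
    - 10 * h 2 5 * o 2 + 30 * h 3 3 * o 2 * o 2 - 24 * h 3 3 * o 3 + 16 * h 3 3 * p 2
    - 20 * h 3 4 * o 2 - 32 * E * h 2 2 * h 2 4 - 24 * E * h 2 2 * h 3 3
    - 240 * E * h 2 2 * h 2 2 * o 2 * o 2 + 72 * E * h 2 2 * h 2 2 * o 3
    - 48 * E * h 2 2 * h 2 2 * p 2 - 76 * M * h 2 2 * h 2 3 + 96 * M * h 2 2 * h 2 2 * o 2
    + 56 * h 2 2 * o 2 * o 4 - 60 * h 2 2 * o 2 * p 3 - 216 * h 2 2 * o 2 * o 2 * o 3
    + 144 * h 2 2 * o 2 * o 2 * p 2 - 64 * h 2 2 * o 3 * p 2 + 156 * h 2 3 * o 2 * o 3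
    - 104 * h 2 3 * o 2 * p 2 + 264 * E * h 2 2 * h 2 3 * o 2) =
    2 * h 2 7 + 10 * h 3 6 + 20 * h 4 5 - 300 * M * h 2 3 * h 2 3
    - 720 * h 2 2 * o 2 * o 2 * o 2 * o 2 * o 2 - 10 * h 2 2 * o 6 + 20 * h 2 2 * p 5
    + 720 * h 2 3 * o 2 * o 2 * o 2 * o 2 + 300 * h 2 3 * o 3 * o 3 - 60 * h 2 3 * o 5
    + 140 * h 2 3 * p 2 * p 2 + 100 * h 2 3 * p 4 - 240 * h 2 4 * o 2 * o 2 * o 2
    - 80 * h 2 4 * o 4 + 90 * h 2 4 * p 3 + 60 * h 2 5 * o 2 * o 2 - 50 * h 2 5 * o 3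
    + 28 * h 2 5 * p 2 - 12 * h 2 6 * o 2 - 180 * h 3 3 * o 2 * o 2 * o 2 - 60 * h 3 3 * o 4
    + 80 * h 3 3 * p 3 + 120 * h 3 4 * o 2 * o 2 - 100 * h 3 4 * o 3 + 70 * h 3 4 * p 2
    - 30 * h 3 5 * o 2 - 20 * h 4 4 * o 2 + 240 * E * M * h 2 2 * h 2 2 * h 2 2
    - 50 * E * h 2 2 * h 2 5 - 100 * E * h 2 2 * h 3 4
    + 2400 * E * h 2 2 * h 2 2 * o 2 * o 2 * o 2 + 160 * E * h 2 2 * h 2 2 * o 4
    - 180 * E * h 2 2 * h 2 2 * p 3 - 240 * E * h 2 3 * h 2 4 - 180 * E * h 2 3 * h 3 3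
    + 900 * E * h 2 3 * h 2 3 * o 2 + 480 * E * E * h 2 2 * h 2 2 * h 2 3
    - 720 * E * E * h 2 2 * h 2 2 * h 2 2 * o 2 - 170 * M * h 2 2 * h 2 4
    - 140 * M * h 2 2 * h 3 3 - 1200 * M * h 2 2 * h 2 2 * o 2 * o 2
    + 380 * M * h 2 2 * h 2 2 * o 3 - 240 * M * h 2 2 * h 2 2 * p 2 - 100 * h 2 2 * h 2 3 * w
    - 780 * h 2 2 * o 2 * o 3 * o 3 + 90 * h 2 2 * o 2 * o 5 - 360 * h 2 2 * o 2 * p 2 * p 2
    - 140 * h 2 2 * o 2 * p 4 - 480 * h 2 2 * o 2 * o 2 * o 4 + 540 * h 2 2 * o 2 * o 2 * p 3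
    + 1680 * h 2 2 * o 2 * o 2 * o 2 * o 3 - 1200 * h 2 2 * o 2 * o 2 * o 2 * p 2
    + 220 * h 2 2 * o 3 * o 4 - 260 * h 2 2 * o 3 * p 3 - 150 * h 2 2 * o 4 * p 2
    + 160 * h 2 2 * p 2 * p 3 + 120 * h 2 2 * h 2 2 * o 2 * w + 360 * h 2 3 * o 2 * o 4
    - 420 * h 2 3 * o 2 * p 3 - 1320 * h 2 3 * o 2 * o 2 * o 3 + 960 * h 2 3 * o 2 * o 2 * p 2
    - 460 * h 2 3 * o 3 * p 2 + 320 * h 2 4 * o 2 * o 3 - 220 * h 2 4 * o 2 * p 2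
    + 240 * h 3 3 * o 2 * o 3 - 180 * h 3 3 * o 2 * p 2 - 3120 * E * h 2 2 * h 2 3 * o 2 * o 2
    + 960 * E * h 2 2 * h 2 3 * o 3 - 700 * E * h 2 2 * h 2 3 * p 2
    + 560 * E * h 2 2 * h 2 4 * o 2 + 420 * E * h 2 2 * h 3 3 * o 2
    - 1680 * E * h 2 2 * h 2 2 * o 2 * o 3 + 1200 * E * h 2 2 * h 2 2 * o 2 * p 2
    + 1380 * M * h 2 2 * h 2 3 * o 2 + 1140 * h 2 2 * o 2 * o 3 * p 2 := by
  simp only [map_add, map_sub, map_neg, der_mul, dnum, R.dE, R.dM, R.dh22, R.dh23, R.dh24, R.dh25, R.dh26, R.dh33, R.dh34, R.dh35, R.dh44, R.do2, R.do3, R.do4, R.do5, R.dp2, R.dp3, R.dp4, R.dw]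
  ring

private theorem S5_T1 (R : S5R δ a w M E p o h) : δ (
    -(24 * h 2 4) + 12 * h 3 3 - 12 * E * h 2 2 * h 2 2 + 45 * a * h 2 2 * h 2 2
    - 72 * h 2 2 * o 2 * o 2 - 24 * h 2 2 * o 3 - 24 * h 2 2 * p 2 + 72 * h 2 3 * o 2) =
    -(24 * h 2 5) + 288 * h 2 2 * o 2 * o 2 * o 2 - 288 * h 2 3 * o 2 * o 2 - 120 * h 2 3 * p 2
    + 96 * h 2 4 * o 2 + 72 * h 3 3 * o 2 - 72 * E * h 2 2 * h 2 2 * o 2
    + 180 * a * h 2 2 * h 2 3 - 180 * a * h 2 2 * h 2 2 * o 2 - 144 * h 2 2 * o 2 * o 3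
    + 216 * h 2 2 * o 2 * p 2 := by
  simp only [map_add, map_sub, map_neg, der_mul, dnum, R.dE, R.da, R.dh22, R.dh23, R.dh24, R.dh33, R.do2, R.do3, R.dp2]
  ring

private theorem S5_T2 (R : S5R δ a w M E p o h) : δ (
    -(24 * h 2 5) + 288 * h 2 2 * o 2 * o 2 * o 2 - 288 * h 2 3 * o 2 * o 2 - 120 * h 2 3 * p 2
    + 96 * h 2 4 * o 2 + 72 * h 3 3 * o 2 - 72 * E * h 2 2 * h 2 2 * o 2
    + 180 * a * h 2 2 * h 2 3 - 180 * a * h 2 2 * h 2 2 * o 2 - 144 * h 2 2 * o 2 * o 3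
    + 216 * h 2 2 * o 2 * p 2) =
    -(24 * h 2 6) - 24 * h 3 5 - 72 * E * E * h 2 2 * h 2 2 * h 2 2 + 360 * a * h 2 3 * h 2 3
    - 1440 * h 2 2 * o 2 * o 2 * o 2 * o 2 - 144 * h 2 2 * o 3 * o 3 + 24 * h 2 2 * o 5
    - 216 * h 2 2 * p 2 * p 2 + 1440 * h 2 3 * o 2 * o 2 * o 2 - 120 * h 2 3 * p 3
    - 480 * h 2 4 * o 2 * o 2 + 96 * h 2 4 * o 3 - 216 * h 2 4 * p 2 + 120 * h 2 5 * o 2
    - 360 * h 3 3 * o 2 * o 2 + 72 * h 3 3 * o 3 - 192 * h 3 3 * p 2 + 240 * h 3 4 * o 2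
    - 180 * E * a * h 2 2 * h 2 2 * h 2 2 + 96 * E * h 2 2 * h 2 4 + 72 * E * h 2 2 * h 3 3
    + 1368 * E * h 2 2 * h 2 2 * o 2 * o 2 - 216 * E * h 2 2 * h 2 2 * o 3
    + 288 * E * h 2 2 * h 2 2 * p 2 + 120 * M * h 2 2 * h 2 3 - 360 * M * h 2 2 * h 2 2 * o 2
    + 180 * a * h 2 2 * h 2 4 + 180 * a * h 2 2 * h 3 3 + 900 * a * h 2 2 * h 2 2 * o 2 * o 2
    - 360 * a * h 2 2 * h 2 2 * o 3 + 180 * a * h 2 2 * h 2 2 * p 2 - 240 * h 2 2 * o 2 * o 4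
    + 360 * h 2 2 * o 2 * p 3 + 1728 * h 2 2 * o 2 * o 2 * o 3 - 1728 * h 2 2 * o 2 * o 2 * p 2
    + 480 * h 2 2 * o 3 * p 2 - 1008 * h 2 3 * o 2 * o 3 + 1248 * h 2 3 * o 2 * p 2
    - 1008 * E * h 2 2 * h 2 3 * o 2 - 1260 * a * h 2 2 * h 2 3 * o 2 := by
  simp only [map_add, map_sub, map_neg, der_mul, dnum, R.dE, R.da, R.dh22, R.dh23, R.dh24, R.dh25, R.dh33, R.do2, R.do3, R.dp2]
  ring

private theorem S5_T3 (R : S5R δ a w M E p o h) : δ (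
    -(24 * h 2 6) - 24 * h 3 5 - 72 * E * E * h 2 2 * h 2 2 * h 2 2 + 360 * a * h 2 3 * h 2 3
    - 1440 * h 2 2 * o 2 * o 2 * o 2 * o 2 - 144 * h 2 2 * o 3 * o 3 + 24 * h 2 2 * o 5
    - 216 * h 2 2 * p 2 * p 2 + 1440 * h 2 3 * o 2 * o 2 * o 2 - 120 * h 2 3 * p 3
    - 480 * h 2 4 * o 2 * o 2 + 96 * h 2 4 * o 3 - 216 * h 2 4 * p 2 + 120 * h 2 5 * o 2
    - 360 * h 3 3 * o 2 * o 2 + 72 * h 3 3 * o 3 - 192 * h 3 3 * p 2 + 240 * h 3 4 * o 2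
    - 180 * E * a * h 2 2 * h 2 2 * h 2 2 + 96 * E * h 2 2 * h 2 4 + 72 * E * h 2 2 * h 3 3
    + 1368 * E * h 2 2 * h 2 2 * o 2 * o 2 - 216 * E * h 2 2 * h 2 2 * o 3
    + 288 * E * h 2 2 * h 2 2 * p 2 + 120 * M * h 2 2 * h 2 3 - 360 * M * h 2 2 * h 2 2 * o 2
    + 180 * a * h 2 2 * h 2 4 + 180 * a * h 2 2 * h 3 3 + 900 * a * h 2 2 * h 2 2 * o 2 * o 2
    - 360 * a * h 2 2 * h 2 2 * o 3 + 180 * a * h 2 2 * h 2 2 * p 2 - 240 * h 2 2 * o 2 * o 4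
    + 360 * h 2 2 * o 2 * p 3 + 1728 * h 2 2 * o 2 * o 2 * o 3 - 1728 * h 2 2 * o 2 * o 2 * p 2
    + 480 * h 2 2 * o 3 * p 2 - 1008 * h 2 3 * o 2 * o 3 + 1248 * h 2 3 * o 2 * p 2
    - 1008 * E * h 2 2 * h 2 3 * o 2 - 1260 * a * h 2 2 * h 2 3 * o 2) =
    -(24 * h 2 7) - 48 * h 3 6 - 24 * h 4 5 + 360 * M * h 2 3 * h 2 3
    + 8640 * h 2 2 * o 2 * o 2 * o 2 * o 2 * o 2 + 48 * h 2 2 * o 6 - 24 * h 2 2 * p 5
    - 8640 * h 2 3 * o 2 * o 2 * o 2 * o 2 - 1440 * h 2 3 * o 3 * o 3 + 72 * h 2 3 * o 5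
    - 1680 * h 2 3 * p 2 * p 2 - 120 * h 2 3 * p 4 + 2880 * h 2 4 * o 2 * o 2 * o 2
    + 96 * h 2 4 * o 4 - 432 * h 2 4 * p 3 - 720 * h 2 5 * o 2 * o 2 + 240 * h 2 5 * o 3
    - 336 * h 2 5 * p 2 + 144 * h 2 6 * o 2 + 2160 * h 3 3 * o 2 * o 2 * o 2 + 72 * h 3 3 * o 4
    - 384 * h 3 3 * p 3 - 1440 * h 3 4 * o 2 * o 2 + 480 * h 3 4 * o 3 - 840 * h 3 4 * p 2
    + 360 * h 3 5 * o 2 + 240 * h 4 4 * o 2 - 936 * E * M * h 2 2 * h 2 2 * h 2 2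
    + 240 * E * h 2 2 * h 2 5 + 480 * E * h 2 2 * h 3 4
    - 16704 * E * h 2 2 * h 2 2 * o 2 * o 2 * o 2 - 552 * E * h 2 2 * h 2 2 * o 4
    + 864 * E * h 2 2 * h 2 2 * p 3 + 288 * E * h 2 3 * h 2 4 + 216 * E * h 2 3 * h 3 3
    - 3024 * E * h 2 3 * h 2 3 * o 2 - 1656 * E * E * h 2 2 * h 2 2 * h 2 3
    + 3456 * E * E * h 2 2 * h 2 2 * h 2 2 * o 2 - 540 * M * a * h 2 2 * h 2 2 * h 2 2
    + 528 * M * h 2 2 * h 2 4 + 456 * M * h 2 2 * h 3 3 + 6624 * M * h 2 2 * h 2 2 * o 2 * o 2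
    - 1392 * M * h 2 2 * h 2 2 * o 3 + 1368 * M * h 2 2 * h 2 2 * p 2 + 180 * a * h 2 2 * h 2 5
    + 540 * a * h 2 2 * h 3 4 - 5400 * a * h 2 2 * h 2 2 * o 2 * o 2 * o 2
    - 540 * a * h 2 2 * h 2 2 * o 4 + 540 * a * h 2 2 * h 2 2 * p 3 + 1080 * a * h 2 3 * h 2 4
    + 1080 * a * h 2 3 * h 3 3 - 3240 * a * h 2 3 * h 2 3 * o 2 + 120 * h 2 2 * h 2 3 * w
    + 5040 * h 2 2 * o 2 * o 3 * o 3 - 432 * h 2 2 * o 2 * o 5 + 4320 * h 2 2 * o 2 * p 2 * p 2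
    + 600 * h 2 2 * o 2 * p 4 + 3168 * h 2 2 * o 2 * o 2 * o 4 - 4536 * h 2 2 * o 2 * o 2 * p 3
    - 15840 * h 2 2 * o 2 * o 2 * o 2 * o 3 + 14400 * h 2 2 * o 2 * o 2 * o 2 * p 2
    - 624 * h 2 2 * o 3 * o 4 + 1248 * h 2 2 * o 3 * p 3 + 936 * h 2 2 * o 4 * p 2
    - 1272 * h 2 2 * p 2 * p 3 - 360 * h 2 2 * h 2 2 * o 2 * w - 1728 * h 2 3 * o 2 * o 4
    + 3096 * h 2 3 * o 2 * p 3 + 11520 * h 2 3 * o 2 * o 2 * o 3
    - 11520 * h 2 3 * o 2 * o 2 * p 2 + 3720 * h 2 3 * o 3 * p 2 - 2400 * h 2 4 * o 2 * o 3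
    + 2640 * h 2 4 * o 2 * p 2 - 1800 * h 3 3 * o 2 * o 3 + 2160 * h 3 3 * o 2 * p 2
    - 2700 * E * a * h 2 2 * h 2 2 * h 2 3 + 3240 * E * a * h 2 2 * h 2 2 * h 2 2 * o 2
    + 17568 * E * h 2 2 * h 2 3 * o 2 * o 2 - 3312 * E * h 2 2 * h 2 3 * o 3
    + 4008 * E * h 2 2 * h 2 3 * p 2 - 2688 * E * h 2 2 * h 2 4 * o 2
    - 2016 * E * h 2 2 * h 3 3 * o 2 + 8712 * E * h 2 2 * h 2 2 * o 2 * o 3
    - 8568 * E * h 2 2 * h 2 2 * o 2 * p 2 - 5544 * M * h 2 2 * h 2 3 * o 2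
    + 8640 * a * h 2 2 * h 2 3 * o 2 * o 2 - 3780 * a * h 2 2 * h 2 3 * o 3
    + 1980 * a * h 2 2 * h 2 3 * p 2 - 1800 * a * h 2 2 * h 2 4 * o 2
    - 1620 * a * h 2 2 * h 3 3 * o 2 + 4860 * a * h 2 2 * h 2 2 * o 2 * o 3
    - 2700 * a * h 2 2 * h 2 2 * o 2 * p 2 - 10440 * h 2 2 * o 2 * o 3 * p 2 := by
  simp only [map_add, map_sub, map_neg, der_mul, dnum, R.dE, R.dM, R.da, R.dh22, R.dh23, R.dh24, R.dh25, R.dh26, R.dh33, R.dh34, R.dh35, R.do2, R.do3, R.do4, R.do5, R.dp2, R.dp3]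
  ring

end

/-- a vector without `u_0` component -/
private noncomputable def S5v (a g1 g2 c3 c4 c5 c6 c7 : F) : F[X] :=
  C (a * g1) * X + C (a * g2) * X ^ 2 + C c3 * X ^ 3 + C c4 * X ^ 4 + C c5 * X ^ 5
    + C c6 * X ^ 6 + C c7 * X ^ 7

private theorem S5_DM (ca : J.D a = 0) {g1 g2 c3 c4 c5 c6 e1 e2 e3 e4 e5 e6 e7 : F}
    (h1 : e1 = J.D g1) (h2 : e2 = g1 + J.D g2) (h3 : e3 = a * g2 + J.D c3)
    (h4 : e4 = c3 + J.D c4) (h5 : e5 = c4 + J.D c5) (h6 : e6 = c5 + J.D c6) (h7 : e7 = c6) :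
    J.DM (S5v a g1 g2 c3 c4 c5 c6 0) = S5v a e1 e2 e3 e4 e5 e6 e7 := by
  have hX : J.DM (X : F[X]) = X ^ 2 := by
    have h := J.DM_X_pow 1
    rwa [pow_one] at h
  subst h1 h2 h3 h4 h5 h6 h7
  simp only [S5v, map_add, Jet.DM_C_mul, Jet.DM_X_pow, hX, der_mul, ca]
  simp only [C_add, C_mul, map_zero, C_0]
  ring

private theorem S5_rv (R : Red J a κ w) {j : ℕ} (hj : 2 ≤ j) (g1 g2 c3 c4 c5 c6 c7 : F) :
    J.ip (S5v a g1 g2 c3 c4 c5 c6 c7) (rv J a w j) = g1 * ro J a w j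
      + (a * g2 * rh J a w 2 j - g2 * rp J a w j) + c3 * rh J a w 3 j + c4 * rh J a w 4 j
      + c5 * rh J a w 5 j + c6 * rh J a w 6 j + c7 * rh J a w 7 j := by
  have ha : a * a⁻¹ = 1 := mul_inv_cancel₀ R.a0
  simp only [S5v, Jet.ip_add_left, Jet.ip_C_mul_left]
  rw [R.ip_rv_one hj, R.ip_rv (n := 2) (by norm_num) hj, R.ip_rv (n := 3) (by norm_num) hj,
    R.ip_rv (n := 4) (by norm_num) hj, R.ip_rv (n := 5) (by norm_num) hj,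
    R.ip_rv (n := 6) (by norm_num) hj, R.ip_rv (n := 7) (by norm_num) hj,
    if_pos rfl, if_neg (by norm_num), if_neg (by norm_num), if_neg (by norm_num),
    if_neg (by norm_num), if_neg (by norm_num)]
  linear_combination (g1 * ro J a w j - g2 * rp J a w j) * ha

private theorem S5_r0 (R : Red J a κ w) (g1 g2 c3 c4 c5 c6 c7 : F) :
    J.ip (S5v a g1 g2 c3 c4 c5 c6 c7) (r0 J a w) = g1 * rM J a w
      + (a * g2 * rp J a w 2 + g2 * w) + c3 * rp J a w 3 + c4 * rp J a w 4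
      + c5 * rp J a w 5 + c6 * rp J a w 6 + c7 * rp J a w 7 := by
  have ha : a * a⁻¹ = 1 := mul_inv_cancel₀ R.a0
  simp only [S5v, Jet.ip_add_left, Jet.ip_C_mul_left]
  rw [R.ip_r0_one, R.ip_r0 (n := 2) (by norm_num), R.ip_r0 (n := 3) (by norm_num),
    R.ip_r0 (n := 4) (by norm_num), R.ip_r0 (n := 5) (by norm_num),
    R.ip_r0 (n := 6) (by norm_num), R.ip_r0 (n := 7) (by norm_num),
    if_pos rfl, if_neg (by norm_num), if_neg (by norm_num), if_neg (by norm_num),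
    if_neg (by norm_num), if_neg (by norm_num)]
  linear_combination (g1 * rM J a w + g2 * w) * ha

private theorem S5_r1 (R : Red J a κ w) (g1 g2 c3 c4 c5 c6 c7 : F) :
    J.ip (S5v a g1 g2 c3 c4 c5 c6 c7) (r1 J a w) = a * g1 - g1 * rE J a w
      + (a * g2 * ro J a w 2 - g2 * rM J a w) + c3 * ro J a w 3 + c4 * ro J a w 4
      + c5 * ro J a w 5 + c6 * ro J a w 6 + c7 * ro J a w 7 := by
  have ha : a * a⁻¹ = 1 := mul_inv_cancel₀ R.a0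
  simp only [S5v, Jet.ip_add_left, Jet.ip_C_mul_left]
  rw [R.ip_r1_one, R.ip_r1 (n := 2) (by norm_num), R.ip_r1 (n := 3) (by norm_num),
    R.ip_r1 (n := 4) (by norm_num), R.ip_r1 (n := 5) (by norm_num),
    R.ip_r1 (n := 6) (by norm_num), R.ip_r1 (n := 7) (by norm_num),
    if_pos rfl, if_neg (by norm_num), if_neg (by norm_num), if_neg (by norm_num),
    if_neg (by norm_num), if_neg (by norm_num)]
  linear_combination (-g1 * rE J a w - g2 * rM J a w) * ha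

private theorem S5_rules (R : Red J a κ w) : S5R J.D a w (rM J a w) (rE J a w) (rp J a w)
    (ro J a w) (rh J a w) := by
  have hs : ∀ i j, rh J a w i j = rh J a w j i := rh_symm
  constructor
  · rw [R.D_E] <;> ring
  · rw [R.D_M] <;> ring
  · exact R.ca.D
  · rw [R.D_h (i := 2) (j := 2) (by norm_num) (by norm_num), hs 3 2] <;> ring
  · rw [R.D_h (i := 2) (j := 3) (by norm_num) (by norm_num), hs 3 2] <;> ring
  · rw [R.D_h (i := 2) (j := 4) (by norm_num) (by norm_num), hs 4 2] <;> ring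
  · rw [R.D_h (i := 2) (j := 5) (by norm_num) (by norm_num), hs 5 2] <;> ring
  · rw [R.D_h (i := 2) (j := 6) (by norm_num) (by norm_num), hs 6 2] <;> ring
  · rw [R.D_h (i := 3) (j := 3) (by norm_num) (by norm_num), hs 4 3, hs 3 2] <;> ring
  · rw [R.D_h (i := 3) (j := 4) (by norm_num) (by norm_num), hs 3 2, hs 4 2] <;> ring
  · rw [R.D_h (i := 3) (j := 5) (by norm_num) (by norm_num), hs 3 2, hs 5 2] <;> ring
  · rw [R.D_h (i := 4) (j := 4) (by norm_num) (by norm_num), hs 5 4, hs 4 2] <;> ring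
  · rw [R.D_o (i := 2) (by norm_num)] <;> ring
  · rw [R.D_o (i := 3) (by norm_num), hs 3 2] <;> ring
  · rw [R.D_o (i := 4) (by norm_num), hs 4 2] <;> ring
  · rw [R.D_o (i := 5) (by norm_num), hs 5 2] <;> ring
  · rw [R.D_p (i := 2) (by norm_num)] <;> ring
  · rw [R.D_p (i := 3) (by norm_num), hs 3 2] <;> ring
  · rw [R.D_p (i := 4) (by norm_num), hs 4 2] <;> ring
  · rw [R.D_w] <;> ring

private theorem S5_scT {δ : Derivation ℝ F F} (ha : δ a = 0) (x : F) :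
    δ (a * (1 / 8 * x)) = a * (1 / 8 * δ x) := by
  have h8 : δ (1 / 8 : F) = 0 := der_div_zero δ (Derivation.map_one_eq_zero δ) (dnum δ 8)
  rw [der_const_mul δ ha, der_const_mul δ h8]

private theorem S5_scF {δ : Derivation ℝ F F} (ha : δ a = 0) (x : F) :
    δ (a * (-(3 / 2) * x)) = a * (-(3 / 2) * δ x) := by
  have h8 : δ (-(3 / 2) : F) = 0 := by
    rw [map_neg, der_div_zero δ (dnum δ 3) (dnum δ 2), neg_zero]
  rw [der_const_mul δ ha, der_const_mul δ h8]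


private theorem S5_b (δ : Derivation ℝ F F) : δ (-(3 / 2) : F) = 0 := by
  rw [map_neg, der_div_zero δ (dnum δ 3) (dnum δ 2), neg_zero]

private theorem S5_53 (δ : Derivation ℝ F F) : δ (5 / 3 : F) = 0 :=
  der_div_zero δ (dnum δ 5) (dnum δ 3)

private theorem S5_59 (δ : Derivation ℝ F F) : δ (5 / 9 : F) = 0 :=
  der_div_zero δ (dnum δ 5) (dnum δ 9)

private theorem S5_V (R : Red J a κ w) {x1 x2 x3 x4 : F} (h1 : J.D (rh J a w 2 2) = x1)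
    (h2 : J.D x1 = x2) (h3 : J.D x2 = x3) (h4 : J.D x3 = x4) :
    Jet.K3 (rf J a w) = S5v a (-(3 / 2) * rh J a w 2 2) 0 1 0 0 0 0
    ∧ J.DM (Jet.K3 (rf J a w)) = S5v a (-(3 / 2) * x1) (-(3 / 2) * rh J a w 2 2) 0 1 0 0 0
    ∧ J.DM^[2] (Jet.K3 (rf J a w)) = S5v a (-(3 / 2) * x2) (2 * (-(3 / 2) * x1))
        (a * (-(3 / 2) * rh J a w 2 2)) 0 1 0 0
    ∧ J.DM^[3] (Jet.K3 (rf J a w)) = S5v a (-(3 / 2) * x3) (3 * (-(3 / 2) * x2))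
        (a * (3 * (-(3 / 2) * x1))) (a * (-(3 / 2) * rh J a w 2 2)) 0 1 0
    ∧ J.DM^[4] (Jet.K3 (rf J a w)) = S5v a (-(3 / 2) * x4) (4 * (-(3 / 2) * x3))
        (a * (6 * (-(3 / 2) * x2))) (a * (4 * (-(3 / 2) * x1)))
        (a * (-(3 / 2) * rh J a w 2 2)) 0 1 := by
  have : CharZero F := J.charZero
  have ca := R.ca.D
  have hb := S5_b J.D
  have k0 : Jet.K3 (rf J a w) = S5v a (-(3 / 2) * rh J a w 2 2) 0 1 0 0 0 0 := by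
    have e : rf J a w = a * (-(3 / 2) * rh J a w 2 2) := by rw [rf]; ring
    rw [Jet.K3, e, S5v]
    simp only [C_0, C_1, mul_zero, zero_mul, add_zero, one_mul]
    ring
  have k1 : J.DM (Jet.K3 (rf J a w))
      = S5v a (-(3 / 2) * x1) (-(3 / 2) * rh J a w 2 2) 0 1 0 0 0 := by
    rw [k0]
    apply S5_DM ca <;>
      simp only [der_mul, dnum, hb, ca, h1, h2, h3, h4, Derivation.map_one_eq_zero, map_zero] <;>
      ring
  have k2 : J.DM^[2] (Jet.K3 (rf J a w)) = S5v a (-(3 / 2) * x2) (2 * (-(3 / 2) * x1))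
        (a * (-(3 / 2) * rh J a w 2 2)) 0 1 0 0 := by
    rw [Function.iterate_succ_apply', Function.iterate_one, k1]
    apply S5_DM ca <;>
      simp only [der_mul, dnum, hb, ca, h1, h2, h3, h4, Derivation.map_one_eq_zero, map_zero] <;>
      ring
  have k3 : J.DM^[3] (Jet.K3 (rf J a w)) = S5v a (-(3 / 2) * x3) (3 * (-(3 / 2) * x2))
        (a * (3 * (-(3 / 2) * x1))) (a * (-(3 / 2) * rh J a w 2 2)) 0 1 0 := by
    rw [Function.iterate_succ_apply', k2]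
    apply S5_DM ca <;>
      simp only [der_mul, dnum, hb, ca, h1, h2, h3, h4, Derivation.map_one_eq_zero, map_zero] <;>
      ring
  have k4 : J.DM^[4] (Jet.K3 (rf J a w)) = S5v a (-(3 / 2) * x4) (4 * (-(3 / 2) * x3))
        (a * (6 * (-(3 / 2) * x2))) (a * (4 * (-(3 / 2) * x1)))
        (a * (-(3 / 2) * rh J a w 2 2)) 0 1 := by
    rw [Function.iterate_succ_apply', k3]
    apply S5_DM ca <;>
      simp only [der_mul, dnum, hb, ca, h1, h2, h3, h4, Derivation.map_one_eq_zero, map_zero] <;>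
      ring
  exact ⟨k0, k1, k2, k3, k4⟩

private theorem S5_evK (R : Red J a κ w) {x1 x2 x3 x4 : F} (h1 : J.D (rh J a w 2 2) = x1)
    (h2 : J.D x1 = x2) (h3 : J.D x2 = x3) (h4 : J.D x3 = x4) :
    J.evo (Jet.K3 (rf J a w)) (rh J a w 2 2) =
      2 * rh J a w 2 5 - 2 * rh J a w 2 3 * rp J a w 2 - 2 * rh J a w 2 4 * ro J a w 2 - 3 * ro J a w 2 * x2 + 3 * ro J a w 2 * ro J a w 2 * x1
      + 6 * rp J a w 2 * x1 - 3 * a * rh J a w 2 2 * rh J a w 2 3 - 6 * a * rh J a w 2 2 * x1 + 3 * a * rh J a w 2 2 * rh J a w 2 2 * ro J a w 2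
    ∧ J.evo (Jet.K3 (rf J a w)) (rh J a w 2 3) =
      rh J a w 2 6 + rh J a w 3 5 - rh J a w 2 3 * rp J a w 3 - rh J a w 2 4 * ro J a w 3 - rh J a w 3 3 * rp J a w 2 - rh J a w 3 4 * ro J a w 2 - 3 / 2 * ro J a w 2 * x3
      - 3 / 2 * ro J a w 3 * x2 + 9 / 2 * rp J a w 2 * x2 + 3 * rp J a w 3 * x1 - 3 / 2 * a * rh J a w 2 2 * rh J a w 2 4
      - 3 / 2 * a * rh J a w 2 2 * rh J a w 3 3 - 9 / 2 * a * rh J a w 2 2 * x2 + 3 / 2 * a * rh J a w 2 2 * rh J a w 2 2 * ro J a w 3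
      - 15 / 2 * a * rh J a w 2 3 * x1 + 3 * ro J a w 2 * ro J a w 3 * x1 + 3 / 2 * a * rh J a w 2 2 * rh J a w 2 3 * ro J a w 2
    ∧ J.evo (Jet.K3 (rf J a w)) (rh J a w 2 4) =
      rh J a w 2 7 + rh J a w 4 5 - rh J a w 2 3 * rp J a w 4 - rh J a w 2 4 * ro J a w 4 - rh J a w 3 4 * rp J a w 2 - rh J a w 4 4 * ro J a w 2 - 3 / 2 * ro J a w 2 * x4
      - 3 / 2 * ro J a w 4 * x2 + 6 * rp J a w 2 * x3 + 3 * rp J a w 4 * x1 - 3 / 2 * a * rh J a w 2 2 * rh J a w 2 5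
      - 3 / 2 * a * rh J a w 2 2 * rh J a w 3 4 - 6 * a * rh J a w 2 2 * x3 + 3 / 2 * a * rh J a w 2 2 * rh J a w 2 2 * ro J a w 4
      - 9 * a * rh J a w 2 3 * x2 - 9 * a * rh J a w 2 4 * x1 + 3 * ro J a w 2 * ro J a w 4 * x1
      + 3 / 2 * a * rh J a w 2 2 * rh J a w 2 4 * ro J a w 2
    ∧ J.evo (Jet.K3 (rf J a w)) (rh J a w 3 3) =
      2 * rh J a w 3 6 - 2 * rh J a w 3 3 * rp J a w 3 - 2 * rh J a w 3 4 * ro J a w 3 - 3 * ro J a w 3 * x3 + 3 * ro J a w 3 * ro J a w 3 * x1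
      + 9 * rp J a w 3 * x2 - 3 * a * rh J a w 2 2 * rh J a w 3 4 - 9 * a * rh J a w 2 3 * x2 - 9 * a * rh J a w 3 3 * x1
      + 3 * a * rh J a w 2 2 * rh J a w 2 3 * ro J a w 3
    ∧ J.evo (Jet.K3 (rf J a w)) (rE J a w) =
      -(2 * rE J a w * ro J a w 4) - 3 * rE J a w * rE J a w * x1 + 2 * rM J a w * ro J a w 3 + 3 * rE J a w * a * x1 - 3 * rM J a w * a * rh J a w 2 2
      + 3 * rE J a w * a * rh J a w 2 2 * ro J a w 2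
    ∧ J.evo (Jet.K3 (rf J a w)) (ro J a w 2) =
      ro J a w 5 + rE J a w * rh J a w 2 4 + 3 / 2 * rE J a w * x2 - rM J a w * rh J a w 2 3 + 3 * rM J a w * x1 - 3 / 2 * a * x2 - ro J a w 2 * ro J a w 4
      - ro J a w 3 * rp J a w 2 - 3 / 2 * rE J a w * a * rh J a w 2 2 * rh J a w 2 2 - 3 * rE J a w * ro J a w 2 * x1
      + 3 / 2 * a * rh J a w 2 2 * ro J a w 2 * ro J a w 2 - 3 / 2 * a * rh J a w 2 2 * ro J a w 3 + 3 / 2 * a * rh J a w 2 2 * rp J a w 2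
      - 3 / 2 * a * ro J a w 2 * x1
    ∧ J.evo (Jet.K3 (rf J a w)) (ro J a w 3) =
      ro J a w 6 + rE J a w * rh J a w 3 4 + 3 / 2 * rE J a w * x3 - rM J a w * rh J a w 3 3 + 9 / 2 * rM J a w * x2 - 3 / 2 * a * x3 - ro J a w 3 * ro J a w 4
      - ro J a w 3 * rp J a w 3 - 3 * rE J a w * ro J a w 3 * x1 - 3 / 2 * a * rh J a w 2 2 * ro J a w 4 + 3 / 2 * a * rh J a w 2 2 * rp J a w 3
      - 9 / 2 * a * ro J a w 2 * x2 - 3 * a * ro J a w 3 * x1 - 3 / 2 * rE J a w * a * rh J a w 2 2 * rh J a w 2 3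
      + 3 / 2 * a * rh J a w 2 2 * ro J a w 2 * ro J a w 3
    ∧ J.evo (Jet.K3 (rf J a w)) (rp J a w 2) =
      rp J a w 5 - rM J a w * rh J a w 2 4 - 3 / 2 * rM J a w * x2 + rh J a w 2 3 * w - ro J a w 2 * rp J a w 4 - rp J a w 2 * rp J a w 3 - 3 * w * x1
      + 3 / 2 * rM J a w * a * rh J a w 2 2 * rh J a w 2 2 + 3 * rM J a w * ro J a w 2 * x1 - 3 / 2 * a * rh J a w 2 2 * rp J a w 3
      - 3 * a * rp J a w 2 * x1 + 3 / 2 * a * rh J a w 2 2 * ro J a w 2 * rp J a w 2 := by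
  have : CharZero F := J.charZero
  obtain ⟨k0, k1, k2, k3, k4⟩ := S5_V R h1 h2 h3 h4
  have v2 := fun g1 g2 c3 c4 c5 c6 c7 => S5_rv R (j := 2) (by norm_num) g1 g2 c3 c4 c5 c6 c7
  have v3 := fun g1 g2 c3 c4 c5 c6 c7 => S5_rv R (j := 3) (by norm_num) g1 g2 c3 c4 c5 c6 c7
  have v4 := fun g1 g2 c3 c4 c5 c6 c7 => S5_rv R (j := 4) (by norm_num) g1 g2 c3 c4 c5 c6 c7
  have s32 : rh J a w 3 2 = rh J a w 2 3 := rh_symm 3 2
  have s42 : rh J a w 4 2 = rh J a w 2 4 := rh_symm 4 2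
  have s43 : rh J a w 4 3 = rh J a w 3 4 := rh_symm 4 3
  have s52 : rh J a w 5 2 = rh J a w 2 5 := rh_symm 5 2
  have s53 : rh J a w 5 3 = rh J a w 3 5 := rh_symm 5 3
  have s54 : rh J a w 5 4 = rh J a w 4 5 := rh_symm 5 4
  have s62 : rh J a w 6 2 = rh J a w 2 6 := rh_symm 6 2
  have s63 : rh J a w 6 3 = rh J a w 3 6 := rh_symm 6 3
  have s72 : rh J a w 7 2 = rh J a w 2 7 := rh_symm 7 2
  refine ⟨?_, ?_, ?_, ?_, ?_, ?_, ?_, ?_⟩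
  · rw [R.evo_h _ (i := 2) (j := 2) (by norm_num) (by norm_num)]
    simp only [k4, k3, k2, k1]
    simp only [k0, v2, v3, v4, S5_r0 R, S5_r1 R, s32, s42, s43, s52, s53, s54, s62, s63, s72]
    ring
  · rw [R.evo_h _ (i := 2) (j := 3) (by norm_num) (by norm_num)]
    simp only [k4, k3, k2, k1]
    simp only [k0, v2, v3, v4, S5_r0 R, S5_r1 R, s32, s42, s43, s52, s53, s54, s62, s63, s72]
    ring
  · rw [R.evo_h _ (i := 2) (j := 4) (by norm_num) (by norm_num)]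
    simp only [k4, k3, k2, k1]
    simp only [k0, v2, v3, v4, S5_r0 R, S5_r1 R, s32, s42, s43, s52, s53, s54, s62, s63, s72]
    ring
  · rw [R.evo_h _ (i := 3) (j := 3) (by norm_num) (by norm_num)]
    simp only [k4, k3, k2, k1]
    simp only [k0, v2, v3, v4, S5_r0 R, S5_r1 R, s32, s42, s43, s52, s53, s54, s62, s63, s72]
    ring
  · rw [R.evo_E]
    simp only [k4, k3, k2, k1]
    simp only [k0, v2, v3, v4, S5_r0 R, S5_r1 R, s32, s42, s43, s52, s53, s54, s62, s63, s72]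
    ring
  · rw [R.evo_o _ (i := 2) (by norm_num)]
    simp only [k4, k3, k2, k1]
    simp only [k0, v2, v3, v4, S5_r0 R, S5_r1 R, s32, s42, s43, s52, s53, s54, s62, s63, s72]
    ring
  · rw [R.evo_o _ (i := 3) (by norm_num)]
    simp only [k4, k3, k2, k1]
    simp only [k0, v2, v3, v4, S5_r0 R, S5_r1 R, s32, s42, s43, s52, s53, s54, s62, s63, s72]
    ring
  · rw [R.evo_p _ (i := 2) (by norm_num)]
    simp only [k4, k3, k2, k1]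
    simp only [k0, v2, v3, v4, S5_r0 R, S5_r1 R, s32, s42, s43, s52, s53, s54, s62, s63, s72]
    ring

private theorem S5_cF {δ : Derivation ℝ F F} (ha : δ a = 0) {f x y : F}
    (hf : f = a * (-(3 / 2) * x)) (h : δ x = y) : δ f = a * (-(3 / 2) * y) := by
  rw [hf, S5_scF ha, h]

private theorem S5_cT {δ : Derivation ℝ F F} (ha : δ a = 0) {f x y : F}
    (hf : f = a * (1 / 8 * x)) (h : δ x = y) : δ f = a * (1 / 8 * y) := by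
  rw [hf, S5_scT ha, h]

private theorem S5_f (w : F) : rf J a w = a * (-(3 / 2) * rh J a w 2 2) := by rw [rf]; ring

private theorem S5_th (w : F) : rth J a w = a * (1 / 8 * (
      -(24 * rh J a w 2 4) + 12 * rh J a w 3 3 - 12 * rE J a w * rh J a w 2 2 * rh J a w 2 2 + 45 * a * rh J a w 2 2 * rh J a w 2 2
      - 72 * rh J a w 2 2 * ro J a w 2 * ro J a w 2 - 24 * rh J a w 2 2 * ro J a w 3 - 24 * rh J a w 2 2 * rp J a w 2 + 72 * rh J a w 2 3 * ro J a w 2)) := by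
  have : CharZero F := J.charZero
  rw [rth]; ring

theorem Red.evo_f (R : Red J a κ w) : J.evo (Jet.K3 (rf J a w)) (rf J a w) = J.D (rth J a w) := by
  have : CharZero F := J.charZero
  have hr := S5_rules R
  obtain ⟨e22, -⟩ := S5_evK R (S5_H1 hr) (S5_H2 hr) (S5_H3 hr) (S5_H4 hr)
  have eT := S5_T1 hr
  rw [S5_th w, S5_scT R.ca.D, eT]
  conv_lhs => rw [S5_f w]
  rw [S5_scF (R.ca.evo _), ← S5_f w, e22]
  ring

/-- the symmetry of order five -/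
private theorem S5_W (R : Red J a κ w) {x1 x2 x3 x4 t0 t1 t2 : F} (h1 : J.D (rh J a w 2 2) = x1)
    (h2 : J.D x1 = x2) (h3 : J.D x2 = x3) (h4 : J.D x3 = x4) (ht : rth J a w = a * t0)
    (ht1 : J.D t0 = t1) (ht2 : J.D t1 = t2) :
    G5 J (rf J a w) (rth J a w) = S5v a
      (5 / 9 * (t0 + 2 * (-(3 / 2) * x2) + a * (-(3 / 2) * rh J a w 2 2) * (-(3 / 2) * rh J a w 2 2)))
      (5 / 3 * (-(3 / 2) * x1)) (5 / 3 * (a * (-(3 / 2) * rh J a w 2 2))) 0 1 0 0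
    ∧ J.DM (G5 J (rf J a w) (rth J a w)) = S5v a
      (5 / 9 * (t1 + 2 * (-(3 / 2) * x3) + 2 * (a * (-(3 / 2) * x1) * (-(3 / 2) * rh J a w 2 2))))
      (5 / 9 * (t0 + 2 * (-(3 / 2) * x2) + a * (-(3 / 2) * rh J a w 2 2) * (-(3 / 2) * rh J a w 2 2))
        + 5 / 3 * (-(3 / 2) * x2))
      (2 * (5 / 3 * (a * (-(3 / 2) * x1)))) (5 / 3 * (a * (-(3 / 2) * rh J a w 2 2))) 0 1 0
    ∧ J.DM^[2] (G5 J (rf J a w) (rth J a w)) = S5v a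
      (5 / 9 * (t2 + 2 * (-(3 / 2) * x4) + 2 * (a * (-(3 / 2) * x2) * (-(3 / 2) * rh J a w 2 2))
        + 2 * (a * (-(3 / 2) * x1) * (-(3 / 2) * x1))))
      (2 * (5 / 9 * (t1 + 2 * (-(3 / 2) * x3) + 2 * (a * (-(3 / 2) * x1) * (-(3 / 2) * rh J a w 2 2))))
        + 5 / 3 * (-(3 / 2) * x3))
      (a * (5 / 9 * (t0 + 2 * (-(3 / 2) * x2) + a * (-(3 / 2) * rh J a w 2 2) * (-(3 / 2) * rh J a w 2 2)))
        + 3 * (5 / 3 * (a * (-(3 / 2) * x2))))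
      (3 * (5 / 3 * (a * (-(3 / 2) * x1)))) (5 / 3 * (a * (-(3 / 2) * rh J a w 2 2))) 0 1 := by
  have : CharZero F := J.charZero
  have ca := R.ca.D
  have hb := S5_b J.D
  have h53 := S5_53 J.D
  have h59 := S5_59 J.D
  have k0 : G5 J (rf J a w) (rth J a w) = S5v a
      (5 / 9 * (t0 + 2 * (-(3 / 2) * x2) + a * (-(3 / 2) * rh J a w 2 2) * (-(3 / 2) * rh J a w 2 2)))
      (5 / 3 * (-(3 / 2) * x1)) (5 / 3 * (a * (-(3 / 2) * rh J a w 2 2))) 0 1 0 0 := by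
    have d1 : J.D (rf J a w) = a * (-(3 / 2) * x1) := by rw [S5_f w, S5_scF ca, h1]
    have d2 : J.D (J.D (rf J a w)) = a * (-(3 / 2) * x2) := by rw [d1, S5_scF ca, h2]
    rw [G5, d2, d1, ht, S5_f w, S5v]
    have e1 : 5 / 3 * (a * (-(3 / 2) * x1)) = a * (5 / 3 * (-(3 / 2) * x1)) := by ring
    have e2 : 5 / 9 * (a * t0 + 2 * (a * (-(3 / 2) * x2)) + (a * (-(3 / 2) * rh J a w 2 2)) ^ 2)
        = a * (5 / 9 * (t0 + 2 * (-(3 / 2) * x2)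
          + a * (-(3 / 2) * rh J a w 2 2) * (-(3 / 2) * rh J a w 2 2))) := by ring
    rw [e1, e2]
    simp only [C_0, C_1, zero_mul, add_zero, one_mul]
    ring
  have k1 : J.DM (G5 J (rf J a w) (rth J a w)) = S5v a
      (5 / 9 * (t1 + 2 * (-(3 / 2) * x3) + 2 * (a * (-(3 / 2) * x1) * (-(3 / 2) * rh J a w 2 2))))
      (5 / 9 * (t0 + 2 * (-(3 / 2) * x2) + a * (-(3 / 2) * rh J a w 2 2) * (-(3 / 2) * rh J a w 2 2))
        + 5 / 3 * (-(3 / 2) * x2))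
      (2 * (5 / 3 * (a * (-(3 / 2) * x1)))) (5 / 3 * (a * (-(3 / 2) * rh J a w 2 2))) 0 1 0 := by
    rw [k0]
    apply S5_DM ca <;>
      simp only [map_add, der_mul, dnum, hb, h53, h59, ca, h1, h2, h3, h4, ht1, ht2,
        Derivation.map_one_eq_zero, map_zero] <;>
      ring
  refine ⟨k0, k1, ?_⟩
  rw [Function.iterate_succ_apply', Function.iterate_one, k1]
  apply S5_DM ca <;>
    simp only [map_add, der_mul, dnum, hb, h53, h59, ca, h1, h2, h3, h4, ht1, ht2,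
      Derivation.map_one_eq_zero, map_zero] <;>
    ring

private theorem S5_evW (R : Red J a κ w) {x1 x2 x3 x4 t0 t1 t2 : F} (h1 : J.D (rh J a w 2 2) = x1)
    (h2 : J.D x1 = x2) (h3 : J.D x2 = x3) (h4 : J.D x3 = x4) (ht : rth J a w = a * t0)
    (ht1 : J.D t0 = t1) (ht2 : J.D t1 = t2) :
    J.evo (G5 J (rf J a w) (rth J a w)) (rh J a w 2 2) =
      2 * rh J a w 2 7 - 2 * rh J a w 2 5 * rp J a w 2 - 2 * rh J a w 2 6 * ro J a w 2 + 10 / 9 * ro J a w 2 * t2 - 10 / 3 * ro J a w 2 * x4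
      - 10 / 9 * ro J a w 2 * ro J a w 2 * t1 + 10 / 3 * ro J a w 2 * ro J a w 2 * x3 - 20 / 9 * rp J a w 2 * t1
      + 35 / 3 * rp J a w 2 * x3 - 5 * rp J a w 2 * rp J a w 2 * x1 - 5 * a * rh J a w 2 2 * rh J a w 2 5 + 20 / 9 * a * rh J a w 2 2 * t1
      - 35 / 3 * a * rh J a w 2 2 * x3 + 10 / 9 * a * rh J a w 2 3 * t0 - 55 / 3 * a * rh J a w 2 3 * x2
      - 15 * a * rh J a w 2 4 * x1 + 5 * a * ro J a w 2 * x1 * x1 + 5 / 2 * a * a * rh J a w 2 2 * rh J a w 2 2 * rh J a w 2 3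
      + 10 * a * a * rh J a w 2 2 * rh J a w 2 2 * x1 - 5 / 2 * a * a * rh J a w 2 2 * rh J a w 2 2 * rh J a w 2 2 * ro J a w 2
      - 5 * ro J a w 2 * rp J a w 2 * x2 + 5 * a * rh J a w 2 2 * rh J a w 2 3 * rp J a w 2 + 5 * a * rh J a w 2 2 * rh J a w 2 4 * ro J a w 2
      - 10 / 9 * a * rh J a w 2 2 * ro J a w 2 * t0 + 40 / 3 * a * rh J a w 2 2 * ro J a w 2 * x2
      - 5 * a * rh J a w 2 2 * ro J a w 2 * ro J a w 2 * x1 - 5 * a * rh J a w 2 2 * rp J a w 2 * x1 + 10 * a * rh J a w 2 3 * ro J a w 2 * x1 := by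
  have : CharZero F := J.charZero
  obtain ⟨k0, k1, k2⟩ := S5_W R h1 h2 h3 h4 ht ht1 ht2
  have v2 := fun g1 g2 c3 c4 c5 c6 c7 => S5_rv R (j := 2) (by norm_num) g1 g2 c3 c4 c5 c6 c7
  have s32 : rh J a w 3 2 = rh J a w 2 3 := rh_symm 3 2
  have s42 : rh J a w 4 2 = rh J a w 2 4 := rh_symm 4 2
  have s52 : rh J a w 5 2 = rh J a w 2 5 := rh_symm 5 2
  have s62 : rh J a w 6 2 = rh J a w 2 6 := rh_symm 6 2
  have s72 : rh J a w 7 2 = rh J a w 2 7 := rh_symm 7 2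
  rw [R.evo_h _ (i := 2) (j := 2) (by norm_num) (by norm_num)]
  simp only [k2, k1]
  simp only [k0, v2, s32, s42, s52, s62, s72]
  ring

private theorem S5_dT {δ : Derivation ℝ F F} {E : F} {p o : ℕ → F} {h : ℕ → ℕ → F}
    {y22 y23 y24 y33 yE yo2 yo3 yp2 : F} (ha : δ a = 0) (e22 : δ (h 2 2) = y22)
    (e23 : δ (h 2 3) = y23) (e24 : δ (h 2 4) = y24) (e33 : δ (h 3 3) = y33) (eE : δ E = yE)
    (eo2 : δ (o 2) = yo2) (eo3 : δ (o 3) = yo3) (ep2 : δ (p 2) = yp2) : δ (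
      -(24 * h 2 4) + 12 * h 3 3 - 12 * E * h 2 2 * h 2 2 + 45 * a * h 2 2 * h 2 2
      - 72 * h 2 2 * o 2 * o 2 - 24 * h 2 2 * o 3 - 24 * h 2 2 * p 2 + 72 * h 2 3 * o 2) =
      -(24 * y24) + 12 * y33 - 24 * h 2 2 * yo3 - 24 * h 2 2 * yp2 - 12 * h 2 2 * h 2 2 * yE
      + 72 * h 2 3 * yo2 + 72 * o 2 * y23 - 72 * o 2 * o 2 * y22 - 24 * o 3 * y22
      - 24 * p 2 * y22 - 24 * E * h 2 2 * y22 + 90 * a * h 2 2 * y22 - 144 * h 2 2 * o 2 * yo2 := by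
  simp only [map_add, map_sub, map_neg, der_mul, dnum, ha, e22, e23, e24, e33, eE, eo2, eo3, ep2]
  ring

theorem Red.s5 (R : Red J a κ w) :
    9 * J.evo (G5 J (rf J a w) (rth J a w)) (rf J a w)
      = 5 * (J.evo (Jet.K3 (rf J a w)) (rth J a w) + J.D (J.D (J.D (rth J a w)))
          + J.D (rf J a w * rth J a w) - rf J a w ^ 2 * J.D (rf J a w)
          - J.D (rf J a w * J.D (J.D (rf J a w))))
        - J.D (J.D (J.D (J.D (J.D (rf J a w))))) := by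
  have : CharZero F := J.charZero
  have hr := S5_rules R
  have ca := R.ca.D
  have H1 := S5_H1 hr
  have H2 := S5_H2 hr
  have H3 := S5_H3 hr
  have H4 := S5_H4 hr
  have H5 := S5_H5 hr
  have T1 := S5_T1 hr
  have T2 := S5_T2 hr
  have T3 := S5_T3 hr
  have h18 : J.D (1 / 8 : F) = 0 := der_div_zero J.D (Derivation.map_one_eq_zero J.D) (dnum J.D 8)
  have U1 := (der_const_mul J.D h18 _).trans (congrArg (fun z => 1 / 8 * z) T1)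
  have U2 := (der_const_mul J.D h18 _).trans (congrArg (fun z => 1 / 8 * z) T2)
  have eW := S5_evW R H1 H2 H3 H4 (S5_th w) U1 U2
  obtain ⟨e22, e23, e24, e33, eE, eo2, eo3, ep2⟩ := S5_evK R H1 H2 H3 H4
  have eT := S5_dT (R.ca.evo (Jet.K3 (rf J a w))) e22 e23 e24 e33 eE eo2 eo3 ep2
  have L := S5_cF (R.ca.evo (G5 J (rf J a w) (rth J a w))) (S5_f w) eW
  have L2 := S5_cT (R.ca.evo (Jet.K3 (rf J a w))) (S5_th w) eT
  have f1 := S5_cF ca (S5_f w) H1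
  have f2 := S5_cF ca f1 H2
  have f3 := S5_cF ca f2 H3
  have f4 := S5_cF ca f3 H4
  have f5 := S5_cF ca f4 H5
  have t1 := S5_cT ca (S5_th w) T1
  have t2 := S5_cT ca t1 T2
  have t3 := S5_cT ca t2 T3
  rw [L, L2, t3, der_mul, der_mul, f5, f3, f2, f1, t1, S5_f w, S5_th w]
  ring

end Pool.Agent.Lib.MP_4d1bc1_mp.Kv
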