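import Pool.Agent.Lib.MP_4d1bc1_mp.Kv.RedDef

set_option autoImplicit false
set_option linter.unusedSimpArgs false

/-! Row kv-sym5: the criterion for the symmetry of order five, and the shift of `f` by a
constant. -/

namespace Pool.Agent.Lib.MP_4d1bc1_mp.Kv

open Finset Polynomial

universe u

variable {F : Type u} [Field F] [Algebra ℝ F] (J : Jet F)

private theorem Sym5_c0 (f θ : F) : (G5 J f θ).coeff 0 = 0 := by
  simp [G5, coeff_X_pow, coeff_X, coeff_C_mul]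

private theorem Sym5_c1 (f θ : F) :
    (G5 J f θ).coeff 1 = 5 / 9 * (θ + 2 * J.D (J.D f) + f ^ 2) := by
  unfold G5
  simp only [coeff_add, coeff_C_mul, coeff_X_pow, coeff_X]
  norm_num

private theorem Sym5_c2 (f θ : F) : (G5 J f θ).coeff 2 = 5 / 3 * J.D f := by
  unfold G5
  simp only [coeff_add, coeff_C_mul, coeff_X_pow, coeff_X]
  norm_num

private theorem Sym5_c3 (f θ : F) : (G5 J f θ).coeff 3 = 5 / 3 * f := by
  unfold G5
  simp only [coeff_add, coeff_C_mul, coeff_X_pow, coeff_X]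
  norm_num

private theorem Sym5_c4 (f θ : F) : (G5 J f θ).coeff 4 = 0 := by
  unfold G5
  simp only [coeff_add, coeff_C_mul, coeff_X_pow, coeff_X]
  norm_num

private theorem Sym5_c5 (f θ : F) : (G5 J f θ).coeff 5 = 1 := by
  unfold G5
  simp only [coeff_add, coeff_C_mul, coeff_X_pow, coeff_X]
  norm_num

private theorem Sym5_c6 (f θ : F) (n : ℕ) : (G5 J f θ).coeff (n + 6) = 0 := by
  unfold G5
  simp only [coeff_add, coeff_C_mul, coeff_X_pow, coeff_X]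
  rw [if_neg (by omega), if_neg (by omega), if_neg (by omega), if_neg (by omega)]
  ring

private theorem Sym5_53 (g : F) (δ : Derivation ℝ F F) : δ (5 / 3 * g) = 5 / 3 * δ g :=
  der_const_mul _ (der_div_zero _ (dnum _ 5) (dnum _ 3)) g

private theorem Sym5_59 (g : F) (δ : Derivation ℝ F F) : δ (5 / 9 * g) = 5 / 9 * δ g :=
  der_const_mul _ (der_div_zero _ (dnum _ 5) (dnum _ 9)) g

private theorem Sym5_q3 (δ : Derivation ℝ F F) : δ (5 / 3) = 0 := der_div_zero _ (dnum _ 5) (dnum _ 3)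

private theorem Sym5_q9 (δ : Derivation ℝ F F) : δ (5 / 9) = 0 := der_div_zero _ (dnum _ 5) (dnum _ 9)

private theorem Sym5_2 (g : F) (δ : Derivation ℝ F F) : δ (2 * g) = 2 * δ g :=
  der_const_mul _ (dnum _ 2) g

private theorem Sym5_sq (g : F) (δ : Derivation ℝ F F) : δ (g ^ 2) = 2 * (g * δ g) := by
  rw [sq, der_mul]
  ring

private theorem Sym5_right (G : F[X]) (f : F) : J.evoV G (Jet.K3 f) =
    J.DM (J.DM (J.DM G)) + (C (J.evo G f) * X + C f * J.DM G) := by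
  unfold Jet.K3
  rw [map_add, J.evoV_X_pow, J.evoV_C_mul, J.evoV_X]
  rfl

private theorem Sym5_left (f θ : F) (hT : J.evo (Jet.K3 f) f = J.D θ) :
    J.evoV (Jet.K3 f) (G5 J f θ) =
    J.DM^[5] (Jet.K3 f) + (C (5 / 3 * J.D θ) * X ^ 3 + C (5 / 3 * f) * J.DM^[3] (Jet.K3 f))
      + (C (5 / 3 * J.D (J.D θ)) * X ^ 2 + C (5 / 3 * J.D f) * J.DM^[2] (Jet.K3 f))
      + (C (5 / 9 * (J.evo (Jet.K3 f) θ + 2 * J.D (J.D (J.D θ)) + 2 * (f * J.D θ))) * X
        + C (5 / 9 * (θ + 2 * J.D (J.D f) + f ^ 2)) * J.DM^[1] (Jet.K3 f)) := by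
  unfold G5
  rw [map_add, map_add, map_add, J.evoV_X_pow, J.evoV_C_mul, J.evoV_C_mul, J.evoV_C_mul,
    J.evoV_X_pow, J.evoV_X_pow, J.evoV_X]
  simp only [Sym5_53, Sym5_59, map_add, Sym5_2, Sym5_sq, J.evo_D, hT]

private theorem Sym5_ck (f θ : F) {k : ℕ} (hk : 6 ≤ k) : (G5 J f θ).coeff k = 0 := by
  obtain ⟨n, rfl⟩ : ∃ n, k = n + 6 := ⟨k - 6, by omega⟩
  exact Sym5_c6 J f θ n

theorem sym5 {f θ : F} (hT : J.evo (Jet.K3 f) f = J.D θ)
    (h5 : 9 * J.evo (G5 J f θ) f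
      = 5 * (J.evo (Jet.K3 f) θ + J.D (J.D (J.D θ)) + J.D (f * θ) - f ^ 2 * J.D f
          - J.D (f * J.D (J.D f))) - J.D (J.D (J.D (J.D (J.D f))))) :
    J.evoV (Jet.K3 f) (G5 J f θ) = J.evoV (G5 J f θ) (Jet.K3 f) := by
  have := J.charZero
  have hs : J.evo (G5 J f θ) f = 1 / 9 * (5 * (J.evo (Jet.K3 f) θ + J.D (J.D (J.D θ)) +
      (J.D f * θ + f * J.D θ) - f ^ 2 * J.D f
      - (J.D f * J.D (J.D f) + f * J.D (J.D (J.D f)))) - J.D (J.D (J.D (J.D (J.D f))))) := by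
    rw [der_mul, der_mul] at h5
    linear_combination (1 / 9) * h5
  have k6 := Sym5_ck J f θ (show 6 ≤ 6 by norm_num)
  have k7 := Sym5_ck J f θ (show 6 ≤ 7 by norm_num)
  have k8 := Sym5_ck J f θ (show 6 ≤ 8 by norm_num)
  rw [Sym5_left J f θ hT, Sym5_right, hs, Jet.iter_K3_5, Jet.iter_K3_3, Jet.iter_K3_2, Jet.iter_K3_1]
  refine Polynomial.ext fun n => ?_
  rcases n with _ | _ | _ | _ | _ | _ | _ | _ | _ | n
  iterate 9
    · simp only [coeff_add, coeff_C_mul, coeff_X_pow, coeff_X, J.coeff_DM_zero, J.coeff_DM_succ,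
        Nat.reduceAdd, Nat.zero_add, Sym5_c0, Sym5_c1, Sym5_c2, Sym5_c3, Sym5_c4, Sym5_c5, k6, k7, k8,
        map_zero, mul_add]
      try simp [Sym5_53, Sym5_59, Sym5_2, Sym5_sq, der_mul, dnum, Sym5_q3, Sym5_q9]
      try ring
  · have k9 := Sym5_ck J f θ (show 6 ≤ n + 9 by omega)
    have k10 := Sym5_ck J f θ (show 6 ≤ n + 8 by omega)
    have k11 := Sym5_ck J f θ (show 6 ≤ n + 7 by omega)
    have k12 := Sym5_ck J f θ (show 6 ≤ n + 6 by omega)
    simp only [coeff_add, coeff_C_mul, coeff_X_pow, coeff_X, J.coeff_DM_zero, J.coeff_DM_succ,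
      Nat.reduceAdd, k9, k10, k11, k12, map_zero, mul_add]
    simp

/-! ### Linearity in the flow -/

private theorem Sym5_iter_add (G H : F[X]) (i : ℕ) : J.DM^[i] (G + H) = J.DM^[i] G + J.DM^[i] H := by
  induction i with
  | zero => rfl
  | succ i ih =>
    rw [Function.iterate_succ_apply', Function.iterate_succ_apply', Function.iterate_succ_apply', ih, map_add]

private theorem Sym5_iter_C {c : F} (hc : J.IsC c) (G : F[X]) (i : ℕ) :
    J.DM^[i] (C c * G) = C c * J.DM^[i] G := by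
  induction i with
  | zero => rfl
  | succ i ih =>
    rw [Function.iterate_succ_apply', Function.iterate_succ_apply', ih, J.DM_C_mul, hc.D, C_0, zero_mul, zero_add]

private theorem Sym5_iter_X (i : ℕ) : J.DM^[i] (X : F[X]) = X ^ (i + 1) := by
  induction i with
  | zero => rw [Function.iterate_zero, id_eq, zero_add, pow_one]
  | succ i ih => rw [Function.iterate_succ_apply', ih, J.DM_X_pow]

private theorem Sym5_isVF_evo (G : F[X]) : J.T.IsVF (J.evo G) := J.isVF_fld _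

private theorem Sym5_evo (c : F) (hc : J.IsC c) (G : F[X]) (g : F) :
    J.evo (G + C c * X) g = J.evo G g + c * J.D g := by
  refine J.vf_ext (δ := J.evo (G + C c * X)) (ε := fun g => J.evo G g + c * J.D g)
    (Sym5_isVF_evo J _) ((Sym5_isVF_evo J _).add ((J.isVF_fld _).mul c)) (fun i j => ?_) g
  simp only [J.evo_u, Sym5_iter_add, Sym5_iter_C J hc, Sym5_iter_X, J.ip_add_left, J.ip_add_right, J.ip_C_mul_left,
    J.ip_C_mul_right, J.ip_X_pow, J.D_u]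
  ring

private theorem Sym5_evoV (c : F) (hc : J.IsC c) (G W : F[X]) :
    J.evoV (G + C c * X) W = J.evoV G W + C c * J.DM W := by
  induction W using Polynomial.induction_on' with
  | add U V hU hV => rw [map_add, map_add, hU, hV, map_add]; ring
  | monomial n a =>
    rw [← C_mul_X_pow_eq_monomial, J.evoV_C_mul, J.evoV_C_mul, J.evoV_X_pow, J.evoV_X_pow, Sym5_evo J c hc,
      Sym5_iter_add, Sym5_iter_C J hc, Sym5_iter_X, J.DM_C_mul, J.DM_X_pow, C_add, C_mul]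
    ring

/-- a symmetry of the equation with `f` and of `u_τ = u_x` is a symmetry for `f + c` -/
theorem sym_shift {f c : F} (hc : J.IsC c) {G : F[X]}
    (h : J.evoV (Jet.K3 f) G = J.evoV G (Jet.K3 f)) :
    J.evoV (Jet.K3 (f + c)) G = J.evoV G (Jet.K3 (f + c)) := by
  have e : Jet.K3 (f + c) = Jet.K3 f + C c * X := by
    unfold Jet.K3
    rw [C_add]
    ring
  rw [e, Sym5_evoV J c hc, h, map_add, J.evoV_C_mul, hc.evo, J.evoV_X, C_0, zero_mul, zero_add]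
  rfl

theorem G5_natDegree (f θ : F) : (G5 J f θ).natDegree = 5 := by
  unfold G5
  compute_degree!

private theorem Sym5_evo_G5 (f θ : F) : J.evo (G5 J f θ) (J.u 0 0) =
    2 * (J.u 0 5 + 5 / 3 * f * J.u 0 3 + 5 / 3 * J.D f * J.u 0 2
      + 5 / 9 * (θ + 2 * J.D (J.D f) + f ^ 2) * J.u 0 1) := by
  rw [J.evo_u]
  unfold G5
  simp only [Function.iterate_zero, id_eq, J.ip_add_left, J.ip_add_right, J.ip_C_mul_left,
    J.ip_C_mul_right, J.ip_X_left, J.ip_X_right, J.ip_X_pow]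
  have e1 : J.ip (X : F[X]) (X ^ 0) = J.u 1 0 := by
    have := J.ip_X_pow 1 0
    rwa [pow_one] at this
  have e2 : J.ip (X ^ 0 : F[X]) X = J.u 0 1 := by
    have := J.ip_X_pow 0 1
    rwa [pow_one] at this
  rw [e1, e2, J.u_symm 5 0, J.u_symm 3 0, J.u_symm 2 0, J.u_symm 1 0]
  ring

/-- the equation `u_t = u_xxx + (c₁ u_[0,0] + c₀) u_x` has a symmetry of order five -/
theorem sym_mkdv {c1 c0 : F} (h1 : J.IsC c1) (h0 : J.IsC c0) :
    ∃ G : F[X], G.natDegree = 5 ∧ J.evoV (Jet.K3 (c1 * J.u 0 0 + c0)) G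
      = J.evoV G (Jet.K3 (c1 * J.u 0 0 + c0)) := by
  have := J.charZero
  obtain ⟨f, hf⟩ : ∃ f, f = c1 * J.u 0 0 := ⟨_, rfl⟩
  obtain ⟨θ, hθ⟩ : ∃ θ, θ = c1 * (2 * J.u 0 2 - J.u 1 1) + 1 / 2 * f ^ 2 := ⟨_, rfl⟩
  have d1 : J.D f = c1 * (2 * J.u 0 1) := by
    rw [hf, h1.D_mul, J.D_u, J.u_symm 1 0]; ring
  have d2 : J.D (J.D f) = c1 * (2 * (J.u 1 1 + J.u 0 2)) := by
    rw [d1, h1.D_mul, Sym5_2, J.D_u]
  have d3 : J.D (J.D (J.D f)) = c1 * (2 * (3 * J.u 1 2 + J.u 0 3)) := by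
    rw [d2, h1.D_mul, Sym5_2, map_add, J.D_u, J.D_u, J.u_symm 2 1]
    ring
  have d4 : J.D (J.D (J.D (J.D f))) = c1 * (2 * (3 * J.u 2 2 + 4 * J.u 1 3 + J.u 0 4)) := by
    rw [d3, h1.D_mul, Sym5_2, map_add, der_const_mul _ (dnum _ 3), J.D_u, J.D_u]
    ring
  have d5 : J.D (J.D (J.D (J.D (J.D f)))) = c1 * (2 * (10 * J.u 2 3 + 5 * J.u 1 4 + J.u 0 5)) := by
    rw [d4, h1.D_mul, Sym5_2, map_add, map_add, der_const_mul _ (dnum _ 3), der_const_mul _ (dnum _ 4), J.D_u,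
      J.D_u, J.D_u, J.u_symm 3 2]
    ring
  have hh : ∀ (δ : Derivation ℝ F F) (g : F), δ (1 / 2 * g ^ 2) = g * δ g := by
    intro δ g
    rw [der_const_mul _ (der_div_zero _ (Derivation.map_one_eq_zero _) (dnum _ 2)), Sym5_sq]
    ring
  have t1 : J.D θ = c1 * (2 * J.u 0 3) + f * J.D f := by
    rw [hθ, map_add, h1.D_mul, map_sub, Sym5_2, J.D_u, J.D_u, hh, J.u_symm 2 1]
    ring
  have t2 : J.D (J.D θ) = c1 * (2 * (J.u 1 3 + J.u 0 4)) + (J.D f * J.D f + f * J.D (J.D f)) := by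
    rw [t1, map_add, h1.D_mul, Sym5_2, J.D_u, der_mul]
  have t3 : J.D (J.D (J.D θ)) = c1 * (2 * (J.u 2 3 + 2 * J.u 1 4 + J.u 0 5))
      + (3 * (J.D f * J.D (J.D f)) + f * J.D (J.D (J.D f))) := by
    rw [t2, map_add, h1.D_mul, Sym5_2, map_add, map_add, J.D_u, J.D_u, der_mul, der_mul]
    ring
  have ef : J.evo (Jet.K3 f) f = c1 * (2 * (J.u 0 3 + f * J.u 0 1)) := by
    have := h1.evo_mul (Jet.K3 f) (J.u 0 0)
    rw [← hf, J.evo_u_00] at this
    exact this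
  have eθ : J.evo (Jet.K3 f) θ = c1 * (2 * J.evo (Jet.K3 f) (J.u 0 2) - J.evo (Jet.K3 f) (J.u 1 1))
      + f * J.evo (Jet.K3 f) f := by
    rw [hθ, map_add, h1.evo_mul, map_sub, Sym5_2, hh]
  have eG : J.evo (G5 J f θ) f = c1 * J.evo (G5 J f θ) (J.u 0 0) := by
    have := h1.evo_mul (G5 J f θ) (J.u 0 0)
    rw [← hf] at this
    exact this
  have hT : J.evo (Jet.K3 f) f = J.D θ := by
    rw [ef, t1, d1]
    ring
  rw [← hf]
  refine ⟨G5 J f θ, G5_natDegree J f θ, sym_shift J h0 (sym5 J hT ?_)⟩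
  rw [eG, Sym5_evo_G5, eθ, ef, J.evo_u_02, J.evo_u_11, der_mul, der_mul, t3, t1, d5, d3, d2, d1, hθ]
  rw [hf]
  ring

end Pool.Agent.Lib.MP_4d1bc1_mp.Kv
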