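import Pool.Agent.Lib.MP_4d1bc1_mp.Kv.RedDef

set_option autoImplicit false
set_option linter.unusedSimpArgs false

/-! Row kv-Y1: `f = a u_[1,1] + c` violates the third condition. -/

namespace Pool.Agent.Lib.MP_4d1bc1_mp.Kv

open Finset Polynomial

universe u

variable {F : Type u} [Field F] [Algebra ℝ F] {J : Jet F}

theorem Y1_del4 (c h : F) : J.del c h 4 = C c * J.grad 0 h - J.DM (C c * J.grad 1 h)
    + J.DM (J.DM (C c * J.grad 2 h)) - J.DM (J.DM (J.DM (C c * J.grad 3 h))) := by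
  rw [Jet.del, sum_range_succ, sum_range_succ, sum_range_succ, sum_range_one]
  simp only [Function.iterate_succ, Function.iterate_zero, Function.comp_apply, id_eq]
  ring

theorem Y1_del14 (h : F) : J.del1 h 4 = - J.grad 1 h + 2 * J.DM (J.grad 2 h)
    - 3 * J.DM (J.DM (J.grad 3 h)) := by
  rw [Jet.del1, sum_range_succ, sum_range_succ, sum_range_succ, sum_range_one]
  simp only [Function.iterate_succ, Function.iterate_zero, Function.comp_apply, id_eq,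
    Nat.cast_zero, Nat.cast_one, Nat.sub_self, zero_mul]
  norm_num
  ring

theorem Y1_gradc {c : F} (hc : J.IsC c) (k : ℕ) (g : F) : J.grad k (c * g) = C c * J.grad k g := by
  rw [J.grad_mul, hc.grad, mul_zero, add_zero]

theorem Y1_eul_add {g h : F} {V W : F[X]} (h1 : J.Eul 1 g V) (h2 : J.Eul 1 h W) :
    J.Eul 1 (g + h) (V + W) := by
  intro U
  refine ((h1 U).add (h2 U)).congr ?_
  rw [map_add, J.ip_add_left]
  ring

theorem Y1_eul_mul {g h : F} {V W : F[X]} (h1 : J.Eul g h V) (h2 : J.Eul h g W) :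
    J.Eul 1 (g * h) (V + W) := by
  intro U
  refine ((h1 U).add (h2 U)).congr ?_
  rw [der_mul, J.ip_add_left]
  ring

theorem Y1_eul_cube {f : F} {V : F[X]} (h1 : J.Eul (f ^ 2) f V) :
    J.Eul 1 (-(f ^ 3 / 3)) (-V) := by
  have := J.charZero
  intro U
  refine ((h1 U).neg).congr ?_
  have h3 : J.evo U (-(f ^ 3 / 3)) = -(f ^ 2 * J.evo U f) := by
    have h4 : J.IsC (3 : F)⁻¹ := (Jet.isC_ofNat 3).inv
    rw [map_neg, div_eq_mul_inv, mul_comm, h4.evo_mul, der_pow (J.evo U) f 2]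
    push_cast
    field_simp
    ring
  rw [h3, J.ip_neg_left]
  ring

theorem Y1_eul_sq {f : F} {V : F[X]} (h1 : J.Eul (J.D (2 * J.D f)) f V) :
    J.Eul 1 (J.D f ^ 2) (-V) := by
  have h2 := J.eul_D (2 * J.D f) f h1
  intro U
  refine (h2 U).congr ?_
  rw [der_pow (J.evo U) (J.D f) 1]
  push_cast
  ring

/-- everything about `θ` -/
theorem Y1_theta {f θ a : F} (ha : J.IsC a) (hform : f = a * J.u 1 1)
    (hT : J.evo (Jet.K3 f) f = J.D θ) :
    J.D θ = 2 * a * J.u 1 4 + 3 * (f * J.D f) ∧ J.grad 0 θ = 0 ∧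
      J.grad 1 θ = C (2 * a) * X ^ 3 + C (6 * (a * f)) * X ∧ J.grad 2 θ = C (-2 * a) * X ^ 2 ∧
      J.grad 3 θ = C (2 * a) * X ∧ J.Bd θ 4 := by
  have := J.charZero
  have hDf : J.D f = a * (2 * J.u 1 2) := by
    rw [hform, ha.D_mul, J.D_u]
    rw [J.u_2_1]
    ring
  have hTf : J.evo (Jet.K3 f) f = 2 * a * J.u 1 4 + 3 * (f * J.D f) := by
    have h1 : J.evo (Jet.K3 f) f = a * J.evo (Jet.K3 f) (J.u 1 1) := by
      have h2 := ha.evo_mul (Jet.K3 f) (J.u 1 1)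
      rw [← hform] at h2
      exact h2
    rw [h1, J.evo_u_11]
    have h3 : a * (2 * (J.u 1 4 + f * J.u 1 2 + J.D f * J.u 1 1)) =
        2 * a * J.u 1 4 + f * (a * (2 * J.u 1 2)) + 2 * (J.D f * (a * J.u 1 1)) := by ring
    rw [h3, ← hDf, ← hform]
    ring
  obtain ⟨θ0, hθ0⟩ : ∃ θ0, θ0 = 2 * a * J.u 1 3 + -a * J.u 2 2 + 3 / 2 * (f * f) := ⟨_, rfl⟩
  have h2a : J.IsC (2 * a) := (Jet.isC_ofNat 2).mul ha
  have h32 : J.IsC (3 / 2 : F) := (Jet.isC_ofNat 3).div (Jet.isC_ofNat 2)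
  have hD0 : J.D θ0 = J.D θ := by
    rw [← hT, hTf, hθ0, map_add, map_add, h2a.D_mul, ha.neg.D_mul, h32.D_mul, J.D_u, J.D_u,
      der_mul]
    simp only [Nat.reduceAdd]
    simp only [J.unr, pow_zero]
    ring
  have hC : J.IsC (θ - θ0) := by
    apply Jet.isC_of_D_zero
    rw [map_sub, hD0, sub_self]
  have hgr : ∀ k, J.grad k θ = C (2 * a) * J.grad k (J.u 1 3) + C (-a) * J.grad k (J.u 2 2)
      + C (3 / 2 : F) * (C f * (C a * J.grad k (J.u 1 1)) + C f * (C a * J.grad k (J.u 1 1))) := by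
    intro k
    have h1 : J.grad k θ = J.grad k (θ - θ0) + J.grad k θ0 := by
      rw [← J.grad_add, sub_add_cancel]
    have h2 : J.grad k f = C a * J.grad k (J.u 1 1) := by
      have h3 := Y1_gradc ha k (J.u 1 1)
      rw [← hform] at h3
      exact h3
    rw [h1, hC.grad, zero_add, hθ0, J.grad_add, J.grad_add, Y1_gradc h2a, Y1_gradc ha.neg,
      Y1_gradc h32, J.grad_mul, h2]
  have hc : (C (3 / 2 : F) : F[X]) * 2 = 3 := by
    have h4 : (C (3 / 2 : F) : F[X]) * C (2 : F) = C (3 : F) := by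
      rw [← C_mul]
      congr 1
      norm_num
    rwa [map_ofNat C 2, map_ofNat C 3] at h4
  refine ⟨?_, ?_, ?_, ?_, ?_, ?_⟩
  · rw [← hT, hTf]
  · rw [hgr, J.grad_u, J.grad_u, J.grad_u]
    simp
  · rw [hgr, J.grad_u, J.grad_u, J.grad_u]
    simp only [if_true, if_false, OfNat.ofNat_ne_one, Nat.reduceEqDiff, OfNat.one_ne_ofNat]
    simp only [C_mul, C_neg, map_ofNat C, pow_one, zero_add, add_zero, mul_zero]
    linear_combination (2 * C f * C a * X) * hc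
  · rw [hgr, J.grad_u, J.grad_u, J.grad_u]
    simp only [if_true, if_false, OfNat.ofNat_ne_one, Nat.reduceEqDiff, OfNat.one_ne_ofNat]
    simp only [C_mul, C_neg, map_ofNat C, pow_one, zero_add, add_zero, mul_zero]
    ring
  · rw [hgr, J.grad_u, J.grad_u, J.grad_u]
    simp only [if_true, if_false, OfNat.ofNat_ne_one, Nat.reduceEqDiff, OfNat.one_ne_ofNat]
    simp only [C_mul, C_neg, map_ofNat C, pow_one, zero_add, add_zero, mul_zero]
  · intro k hk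
    have e1 : ¬ k = 1 := by omega
    have e2 : ¬ k = 2 := by omega
    have e3 : ¬ k = 3 := by omega
    rw [hgr, J.grad_u, J.grad_u, J.grad_u]
    simp [e1, e2, e3]

/-- `v0`, `v1`, `v2` of `f` -/
theorem Y1_v {f a : F} (ha : J.IsC a) (hform : f = a * J.u 1 1) :
    J.v0 f = C (-2 * a) * X ^ 2 ∧ J.v1 f = C (-2 * a) * X ∧ J.v2 f = 0 ∧ J.Bd f 3 := by
  have hgr : ∀ k, J.grad k f = C a * J.grad k (J.u 1 1) := by
    intro k
    have h3 := Y1_gradc ha k (J.u 1 1)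
    rw [← hform] at h3
    exact h3
  have g0 : J.grad 0 f = 0 := by
    rw [hgr, J.grad_u]
    simp
  have g1 : J.grad 1 f = C (2 * a) * X := by
    rw [hgr, J.grad_u]
    simp only [if_true, pow_one, C_mul, map_ofNat C]
    ring
  have g2 : J.grad 2 f = 0 := by
    rw [hgr, J.grad_u]
    simp
  have h2a : J.IsC (2 * a) := (Jet.isC_ofNat 2).mul ha
  refine ⟨?_, ?_, ?_, ?_⟩
  · rw [Jet.v0, g0, g1, g2, J.DM_C_mul, h2a.D, J.DM_X, map_zero, map_zero, map_zero]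
    simp only [C_mul, C_neg, map_ofNat C, C_0, neg_mul]
    ring
  · rw [Jet.v1, g1, g2, map_zero]
    simp only [C_mul, C_neg, map_ofNat C, C_0, neg_mul]
    ring
  · rw [Jet.v2, g2]
  · intro k hk
    have e1 : ¬ k = 1 := by omega
    rw [hgr, J.grad_u]
    simp [e1]

/-- `δσ` -/
theorem Y1_sigma {f θ σ a : F} (ha : J.IsC a) (hform : f = a * J.u 1 1)
    (hT : J.evo (Jet.K3 f) f = J.D θ) (hS : J.evo (Jet.K3 f) θ = J.D σ) :
    ∃ q : F, J.Eul 1 σ (C (-18 * a) * X ^ 6 + C (-24 * (a * f)) * X ^ 4 + C (-48 * (a * J.D f)) * X ^ 3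
      + C (-36 * (a * J.D (J.D f)) - 6 * (a * f ^ 2) + 2 * a * (-6 * a * (2 * J.u 1 3) - 6 * (f * f)))
        * X ^ 2 + C q * X) := by
  obtain ⟨v0, v1, v2, hbd⟩ := Y1_v ha hform
  obtain ⟨hDθ, g0, g1, g2, g3, hθ⟩ := Y1_theta ha hform hT
  obtain ⟨M, hM⟩ := J.exists_bd σ
  have h1 := (J.cos_main hbd hθ hM hS).2
  have h2 := J.eul_del 1 hM
  rw [h1] at h2
  have hb0 : J.del 1 θ 4 = C (-6 * a) * X ^ 4 + C (-6 * (a * f)) * X ^ 2
      + C (-6 * (a * J.D f)) * X := by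
    rw [Y1_del4, g0, g1, g2, g3]
    simp only [C_1, one_mul, mul_zero, map_add, map_zero, J.DM_C_mul, J.DM_X_pow, J.DM_X, der_mul, dnum,
      ha.D, map_neg, neg_zero, zero_mul, add_zero, zero_add, C_0]
    simp only [C_mul, C_neg, map_ofNat C, C_0, C_add]
    ring
  have hb1 : J.del1 θ 4 = C (-12 * a) * X ^ 3 + C (-6 * (a * f)) * X := by
    rw [Y1_del14, g1, g2, g3]
    simp only [C_1, one_mul, mul_zero, map_add, map_zero, J.DM_C_mul, J.DM_X_pow, J.DM_X, der_mul, dnum,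
      ha.D, map_neg, neg_zero, zero_mul, add_zero, zero_add, C_0]
    simp only [C_mul, C_neg, map_ofNat C, C_0, C_add]
    ring
  obtain ⟨s1, hs1⟩ : ∃ s1, s1 = J.ip (J.del1 θ 4) X := ⟨_, rfl⟩
  obtain ⟨s0, hs0⟩ : ∃ s0, s0 = J.ip (J.del 1 θ 4) X := ⟨_, rfl⟩
  have hs1' : s1 = -6 * a * (2 * J.u 1 3) - 6 * (f * f) := by
    rw [hs1, hb1]
    simp only [J.unr, pow_zero]
    have : -6 * (a * f) * J.u 1 1 = -6 * (f * (a * J.u 1 1)) := by ring
    rw [this, ← hform]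
    ring
  have h3 : -J.cosL1 f (J.del 1 θ 4) (J.del1 θ 4) = C (-18 * a) * X ^ 6 + C (-24 * (a * f)) * X ^ 4
      + C (-48 * (a * J.D f)) * X ^ 3
      + C (-36 * (a * J.D (J.D f)) - 6 * (a * f ^ 2) + 2 * a * s1) * X ^ 2
      + C (6 * (a * (-2 * J.D (J.D (J.D f)) + J.evo (Jet.K3 f) f - 2 * (f * J.D f)))
        + 2 * a * (s0 + J.D s1)) * X := by
    rw [Jet.cosL1, ← hs1, ← hs0, v0, v1, v2, hb0, hb1]
    simp only [map_add, J.evoV_C_mul, J.evoV_X_pow, J.evoV_X, J.iter_K3_1, J.iter_K3_3, mul_add,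
      J.DM_C_mul, J.DM_X_pow, J.DM_X, der_mul, dnum, ha.D, ha.evo, map_neg, neg_zero, zero_mul,
      mul_zero, add_zero, zero_add, C_0]
    generalize J.evo (Jet.K3 f) f = T
    simp only [C_mul, C_neg, map_ofNat C, C_0, C_add, C_sub, C_pow]
    ring
  rw [h3, hs1'] at h2
  exact ⟨_, h2⟩

/-- the case `c = 0` -/
theorem Y1_zero {f θ σ ψ a : F} (ha : J.IsC a) (a0 : a ≠ 0) (hform : f = a * J.u 1 1)
    (hT : J.evo (Jet.K3 f) f = J.D θ) (hS : J.evo (Jet.K3 f) θ = J.D σ)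
    (hP : J.evo (Jet.K3 f) (σ + f * θ + -(f ^ 3 / 3) + J.D f ^ 2) = J.D ψ) : False := by
  have := J.charZero
  obtain ⟨v0, v1, v2, hbd⟩ := Y1_v ha hform
  obtain ⟨hDθ, g0, g1, g2, g3, hθ⟩ := Y1_theta ha hform hT
  obtain ⟨q, hq⟩ := Y1_sigma ha hform hT hS
  obtain ⟨N, hN⟩ := J.exists_bd (σ + f * θ + -(f ^ 3 / 3) + J.D f ^ 2)
  obtain ⟨M, hM⟩ := J.exists_bd ψ
  have h1 := (J.cos_main hbd hN hM hP).1
  have e1 := J.eul_del 1 hN
  have e2 : J.Eul 1 (f * θ) (J.del f θ 4 + J.Ef f θ) := Y1_eul_mul (J.eul_del f hθ) (J.eul_Ef hbd θ)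
  have e3 := Y1_eul_cube (J.eul_Ef hbd (f ^ 2))
  have e4 := Y1_eul_sq (J.eul_Ef hbd (J.D (2 * J.D f)))
  have e5 := e1.unique (Y1_eul_add (Y1_eul_add (Y1_eul_add hq e2) e3) e4)
  have hDf : J.D (J.D (J.D f)) = a * (2 * J.u 1 4 + 6 * J.u 2 3) := by
    rw [hform, ha.D_mul, ha.D_mul, ha.D_mul]
    simp only [J.D_u, map_add]
    simp only [Nat.reduceAdd]
    simp only [J.unr, pow_zero]
    ring
  obtain ⟨q1, q2, hb⟩ : ∃ q1 q2 : F, J.del 1 (σ + f * θ + -(f ^ 3 / 3) + J.D f ^ 2) N =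
      C 0 + C q1 * X + C (-40 * (a * J.D (J.D f)) - 10 * (a * f ^ 2)
        + 2 * a * (-6 * a * (2 * J.u 1 3) - 6 * (f * f)) - 2 * (a * θ)) * X ^ 2
        + C (-60 * (a * J.D f)) * X ^ 3 + C (-30 * (a * f)) * X ^ 4 + C 0 * X ^ 5
        + C (-18 * a) * X ^ 6 := by
    refine ⟨q - 2 * a * (6 * (f * J.D f) + J.D (J.D (J.D f))) - 2 * (a * J.D θ)
      + 2 * a * (2 * (f * J.D f)) + 2 * a * (2 * J.D (J.D (J.D f))), 0, ?_⟩
    have hD2 : J.D (f ^ 2) = 2 * (f * J.D f) := by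
      rw [pow_two, der_mul]
      ring
    rw [e5, Y1_del4, g0, g1, g2, g3, Jet.Ef, Jet.Ef, Jet.Ef, v0, v1, v2]
    simp only [mul_add, mul_zero, map_add, map_zero, J.DM_C_mul, J.DM_X_pow, J.DM_X, hD2, der_mul, dnum,
      ha.D, map_neg, neg_zero, zero_mul, add_zero, zero_add, C_0]
    simp only [C_mul, C_neg, map_ofNat C, C_0, C_add, C_sub, C_pow]
    ring
  rw [Jet.cosL, hb, J.cos_expand, Jet.Ef, v0, v1, v2] at h1
  have h2 := congrArg (fun p : F[X] => p.coeff 4) h1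
  simp only [coeff_add, coeff_C_mul, coeff_X_pow, coeff_C, coeff_X, coeff_zero, mul_ite, mul_one,
    mul_zero, if_true, if_false, OfNat.ofNat_ne_one, OfNat.one_ne_ofNat, Nat.reduceEqDiff,
    OfNat.ofNat_ne_zero, add_zero, zero_add] at h2
  simp only [map_add, map_sub, ha.D, ha.evo, der_mul, dnum, map_neg, neg_zero, zero_mul, mul_zero,
    add_zero, zero_add, map_zero, sub_zero, pow_two, hT, hDθ, J.D_u, Nat.reduceAdd] at h2
  have h3 : -36 * (a * a) * (J.u 1 4 + 3 * J.u 2 3) = 0 := by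
    linear_combination h2 + 30 * a * hDf
  have h4 := congrArg (J.pd 1 4) h3
  have hc : J.IsC (-36 * (a * a)) := (Jet.isC_ofNat 36).neg.mul (ha.mul ha)
  rw [hc.pd_mul, map_zero, map_add, (Jet.isC_ofNat 3).pd_mul, J.pd_u, J.pd_u] at h4
  norm_num at h4
  exact a0 h4

/-- adding a constant to `f` -/
theorem Y1_shift {c : F} (hc : J.IsC c) (f g : F) :
    J.evo (Jet.K3 f) g = J.evo (Jet.K3 (f - c)) g + c * J.D g := by
  have hit : ∀ i, J.DM^[i] (Jet.K3 f) = J.DM^[i] (Jet.K3 (f - c)) + C c * X ^ (i + 1) := by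
    intro i
    induction i with
    | zero =>
      simp only [Function.iterate_zero, id_eq, Jet.K3, C_sub]
      ring
    | succ i ih =>
      rw [Function.iterate_succ_apply', Function.iterate_succ_apply', ih, map_add, J.DM_C_mul,
        J.DM_X_pow, hc.D, C_0, zero_mul, zero_add]
  refine J.vf_ext (J.isVF_fld _) ((J.isVF_fld _).add ((J.isVF_fld _).mul c)) (fun i j => ?_) g
  change J.evo (Jet.K3 f) (J.u i j) = J.evo (Jet.K3 (f - c)) (J.u i j) + c * J.D (J.u i j)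
  rw [J.evo_u, J.evo_u, hit, hit, J.ip_add_left, J.ip_add_right, J.ip_C_mul_left, J.ip_C_mul_right,
    J.ip_X_pow, J.ip_X_pow, J.D_u]
  ring

/-- `f = a u_[1,1] + c` -/
theorem Y1 {f θ σ ψ a c : F} (ha : J.IsC a) (a0 : a ≠ 0) (hc : J.IsC c)
    (hform : f = a * J.u 1 1 + c) (hT : J.evo (Jet.K3 f) f = J.D θ)
    (hS : J.evo (Jet.K3 f) θ = J.D σ)
    (hP : J.evo (Jet.K3 f) (σ + f * θ - f ^ 3 / 3 + J.D f ^ 2) = J.D ψ) : False := by
  have := J.charZero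
  have hs : ∀ g, J.evo (Jet.K3 (f - c)) g = J.evo (Jet.K3 f) g - c * J.D g := by
    intro g
    rw [Y1_shift hc f g]
    ring
  have hDf : J.D (f - c) = J.D f := by rw [map_sub, hc.D, sub_zero]
  have hcc : J.IsC (c ^ 2) := hc.pow 2
  have hccc : J.IsC (c ^ 3) := hc.pow 3
  have h3c : J.IsC (3 * c) := (Jet.isC_ofNat 3).mul hc
  have h2c : J.IsC (2 * c) := (Jet.isC_ofNat 2).mul hc
  have hc3 : J.IsC (c ^ 3 / 3) := hccc.div (Jet.isC_ofNat 3)
  refine Y1_zero (J := J) (f := f - c) (θ := θ - c * f) (σ := σ - 2 * c * θ + c ^ 2 * f)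
    (ψ := ψ - 3 * c * σ + c ^ 2 * θ - c * (σ + f * θ - f ^ 3 / 3 + J.D f ^ 2) + 3 * c ^ 2 * θ
      - c ^ 3 * f) ha a0 ?_ ?_ ?_ ?_
  · rw [hform]; ring
  · rw [hs, hDf, map_sub, hc.evo, sub_zero, hT, map_sub, hc.D_mul]
  · rw [hs, map_sub, hc.evo_mul, hT, hS, map_sub, hc.D_mul, map_add, map_sub, h2c.D_mul, hcc.D_mul]
    ring
  · have h1 : σ - 2 * c * θ + c ^ 2 * f + (f - c) * (θ - c * f) + -((f - c) ^ 3 / 3) + J.D (f - c) ^ 2
        = (σ + f * θ - f ^ 3 / 3 + J.D f ^ 2) - 3 * c * θ + c ^ 2 * f + c ^ 3 / 3 := by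
      rw [hDf]
      ring
    have h3cc : J.IsC (3 * c ^ 2) := (Jet.isC_ofNat 3).mul hcc
    rw [h1, hs]
    generalize (σ + f * θ - f ^ 3 / 3 + J.D f ^ 2) = ρ at hP ⊢
    simp only [map_add, map_sub, h3c.evo_mul, hcc.evo_mul, hc3.evo, h3c.D_mul, hcc.D_mul, hc3.D,
      hP, hS, hT, hc.D_mul, h3cc.D_mul, hccc.D_mul]
    ring

end Pool.Agent.Lib.MP_4d1bc1_mp.Kv
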