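import Pool.Agent.Lib.MP_4d1bc1_mp.Kv.RedDef

set_option autoImplicit false
set_option linter.unusedSimpArgs false

/-! Row kv-Y2: `f = (g u_[0,1])' + c` violates the third condition. -/

namespace Pool.Agent.Lib.MP_4d1bc1_mp.Kv

open Finset Polynomial

universe u

variable {F : Type u} [Field F] [Algebra ℝ F] {J : Jet F}

private theorem Y2_congr {c h : F} {V V' : F[X]} (h1 : J.Eul c h V) (e : V = V') : J.Eul c h V' := e ▸ h1

private theorem Y2_mul {c g h : F} {V1 V2 : F[X]} (h1 : J.Eul (c * g) h V1) (h2 : J.Eul (c * h) g V2) :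
    J.Eul c (g * h) (V1 + V2) := by
  intro W
  refine ((h1 W).add (h2 W)).congr ?_
  rw [der_mul, Jet.ip_add_left]
  ring

private theorem Y2_add {c g h : F} {V1 V2 : F[X]} (h1 : J.Eul c g V1) (h2 : J.Eul c h V2) :
    J.Eul c (g + h) (V1 + V2) := by
  intro W
  refine ((h1 W).add (h2 W)).congr ?_
  rw [map_add, Jet.ip_add_left]
  ring

private theorem Y2_const (c : F) {k : F} (hk : J.IsC k) : J.Eul c k 0 := by
  intro W
  refine Jet.Ex.zero.congr ?_
  rw [hk.evo, Jet.ip_zero_left]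
  ring

private theorem Y2_DM1 : J.DM (1 : F[X]) = X := by simpa using J.DM_X_pow 0

private theorem Y2_y (c : F) : J.Eul c (J.u 0 1) (C (-(J.D c))) := by
  intro W
  refine (Jet.Ex.D (J := J) (c * J.ip 1 W)).congr ?_
  rw [der_mul, Jet.D_ip, Jet.evo_u, Y2_DM1, Jet.ip_C_left, J.ip_symm X W]
  simp only [Function.iterate_zero, id_eq, Function.iterate_one, pow_zero, pow_one]
  ring

private theorem Y2_u3 (c : F) : J.Eul c (J.u 0 3) (C (-(J.D (J.D (J.D c)))) + C (-(3 * J.D (J.D c))) * X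
    + C (-(3 * J.D c)) * X ^ 2) := by
  intro W
  refine (J.ex_ip_iter 3 (C c) W).congr ?_
  have h1 : (-1 : F[X]) ^ 3 * J.DM^[3] (C c) = (C (-(J.D (J.D (J.D c)))) + C (-(3 * J.D (J.D c))) * X
      + C (-(3 * J.D c)) * X ^ 2) - C c * X ^ 3 := by
    simp only [Function.iterate_succ, Function.iterate_zero, Function.comp_apply, id_eq, Jet.DM_C, map_add,
      Jet.DM_C_mul, Jet.DM_X, Jet.DM_X_pow]
    simp only [C_neg, C_mul, map_ofNat C]
    ring
  rw [h1, Jet.ip_sub_left, Jet.evo_u, Jet.ip_C_mul_left, Jet.ip_C_left, J.ip_symm (X ^ 3) W]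
  simp only [Function.iterate_zero, id_eq, pow_zero]
  ring

private theorem Y2_g {g : F} (hg : J.FX g) (c : F) : J.Eul c g (C (2 * c * J.pd 0 0 g)) := by
  intro W
  refine Jet.Ex.zero.congr ?_
  rw [hg.vf (δ := J.evo W) (J.isVF_fld _), Jet.evo_u, Jet.ip_C_left]
  simp only [Function.iterate_zero, id_eq, pow_zero]
  rw [J.ip_symm W 1]
  ring

private theorem Y2_gy {g : F} (hg : J.FX g) (c : F) : J.Eul c (g * J.u 0 1) (C (-(J.D c * g))) := by
  refine Y2_congr (Y2_mul (Y2_y (c * g)) (Y2_g hg (c * J.u 0 1))) ?_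
  rw [← C_add, der_mul, hg.D]
  congr 1
  ring

private theorem Y2_f {f g c₀ : F} (hg : J.FX g) (hc : J.IsC c₀) (hform : f = J.D (g * J.u 0 1) + c₀) (c : F) :
    J.Eul c f (C (g * J.D (J.D c))) := by
  rw [hform]
  refine Y2_congr (Y2_add (J.eul_D c _ (Y2_gy hg (J.D c))) (Y2_const c hc)) ?_
  rw [add_zero, ← C_neg]
  congr 1
  ring

/-- the Euler operator of `g u03 + f g u01` with the multiplier `c` -/
private noncomputable def Y2_VP (J : Jet F) (f g c : F) : F[X] :=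
  C (-(J.D (J.D (J.D (c * g)))) + 2 * (c * J.u 0 3) * J.pd 0 0 g - J.D (c * f) * g
    + g * J.D (J.D (c * (g * J.u 0 1)))) + C (-(3 * J.D (J.D (c * g)))) * X + C (-(3 * J.D (c * g))) * X ^ 2

private theorem Y2_P {f g c₀ : F} (hg : J.FX g) (hc : J.IsC c₀) (hform : f = J.D (g * J.u 0 1) + c₀) (c : F) :
    J.Eul c (g * J.u 0 3 + f * (g * J.u 0 1)) (Y2_VP J f g c) := by
  refine Y2_congr (Y2_add (Y2_mul (Y2_u3 (c * g)) (Y2_g hg (c * J.u 0 3)))
    (Y2_mul (Y2_gy hg (c * f)) (Y2_f hg hc hform (c * (g * J.u 0 1))))) ?_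
  rw [Y2_VP]
  simp only [C_add, C_sub, C_neg, C_mul]
  ring

private theorem Y2_VP_hi (f g c : F) (i : ℕ) (hi : 2 < i) : (Y2_VP J f g c).coeff i = 0 := by
  rw [Y2_VP]
  simp only [coeff_add, coeff_C_mul, coeff_X_pow, coeff_C, coeff_X]
  rw [if_neg (by omega), if_neg (by omega), if_neg (by omega)]
  ring

private theorem Y2_VP_2 (f g c : F) : (Y2_VP J f g c).coeff 2 = -(3 * J.D (c * g)) := by
  rw [Y2_VP]
  simp only [coeff_add, coeff_C_mul, coeff_X_pow, coeff_C, coeff_X]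
  norm_num

private theorem Y2_cosL {f g : F} (hE : ∀ c, J.Ef f c = C (g * J.D (J.D c))) {b : F[X]}
    (hb : ∀ i, 2 < i → b.coeff i = 0) : (∀ i, 4 < i → (J.cosL f b).coeff i = 0) ∧
      (J.cosL f b).coeff 4 = -(3 * J.D (b.coeff 2)) := by
  have h := J.cos_expand f (b.coeff 0) (b.coeff 1) (b.coeff 2) (b.coeff 3) (b.coeff 4)
    (b.coeff 5) (b.coeff 6)
  rw [← eq_expand (fun i hi => hb i (by omega)), hb 3 (by omega), hb 4 (by omega), hb 5 (by omega),
    hb 6 (by omega)] at h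
  simp only [map_zero, mul_zero, zero_mul, sub_zero, add_zero, zero_sub, C_0] at h
  have h1 : J.cosL f b = (J.evoV (Jet.K3 f) b - J.DM (J.DM (J.DM b)) - J.DM (C f * b)) +
      C (g * J.D (J.D (J.ip b X))) := by
    rw [Jet.cosL, hE]
  rw [h1, h]
  constructor
  · intro i hi
    simp only [coeff_add, coeff_C_mul, coeff_X_pow, coeff_C, coeff_X]
    rw [if_neg (by omega), if_neg (by omega), if_neg (by omega), if_neg (by omega), if_neg (by omega)]
    simp only [mul_zero, add_zero, zero_add]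
    rw [if_neg (by omega)]
  · simp only [coeff_add, coeff_C_mul, coeff_X_pow, coeff_C, coeff_X]
    norm_num

/-- the third density: its variational derivative -/
private theorem Y2_rho {f g c₀ k₁ k₂ : F} (hg : J.FX g) (hc : J.IsC c₀) (hk₁ : J.IsC k₁) (hk₂ : J.IsC k₂)
    (hform : f = J.D (g * J.u 0 1) + c₀) (hE : ∀ c, J.Ef f c = C (g * J.D (J.D c))) :
    ∃ e : F, J.Eul 1 (J.evo (Jet.K3 f) (g * J.u 0 3 + f * (g * J.u 0 1)) + k₂ +
      f * (J.D (g * J.u 0 3 + f * (g * J.u 0 1)) + k₁) - f ^ 3 / 3 + J.D f ^ 2)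
        (J.cosL f (Y2_VP J f g 1) - Y2_VP J f g (J.D f) + C e) := by
  have := J.charZero
  set P := g * J.u 0 3 + f * (g * J.u 0 1) with hPd
  have hP : ∀ c, J.Eul c P (Y2_VP J f g c) := fun c => Y2_P hg hc hform c
  have hf : ∀ c, J.Eul c f (C (g * J.D (J.D c))) := fun c => Y2_f hg hc hform c
  -- the time derivative
  have h1 : J.Eul 1 (J.evo (Jet.K3 f) P) (J.cosL f (Y2_VP J f g 1)) := by
    have h2 := J.eul_evo (f := f) (hP 1) (V' := 0) (by
      rw [Derivation.map_one_eq_zero]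
      intro W
      refine Jet.Ex.zero.congr ?_
      rw [Jet.ip_zero_left]
      ring) (hf (J.ip (Y2_VP J f g 1) X))
    refine Y2_congr h2 ?_
    rw [Jet.cosL, hE]
    ring
  -- `f P'`
  have h3 : J.Eul 1 (f * J.D P) (-Y2_VP J f g (J.D f) + C (g * J.D (J.D (J.D P)))) := by
    refine Y2_congr (Y2_mul (c := 1) (g := f) (h := J.D P) (V1 := -Y2_VP J f g (J.D f))
      (V2 := C (g * J.D (J.D (J.D P)))) ?_ ?_) rfl
    · rw [one_mul]
      exact J.eul_D f P (hP _)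
    · rw [one_mul]
      exact hf _
  -- `k₁ f`
  have h4 : J.Eul 1 (f * k₁) 0 := by
    intro W
    refine (hf k₁ W).congr ?_
    rw [der_mul, hk₁.evo, hk₁.D, map_zero, mul_zero, C_0]
    ring
  -- `- f ^ 3 / 3`
  have h5 : J.Eul 1 (-(f ^ 3 / 3)) (C (-(g * J.D (J.D (f ^ 2))))) := by
    intro W
    refine (hf (f ^ 2) W).neg.congr ?_
    have e1 : J.evo W (-(f ^ 3 / 3)) = -(f ^ 2 * J.evo W f) := by
      rw [map_neg, div_eq_mul_inv, der_mul, der_inv_zero _ (dnum _ 3), der_pow (J.evo W) f 2]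
      push_cast
      field_simp
      ring
    rw [e1, Jet.ip_C_left, Jet.ip_C_left]
    ring
  -- `f' ^ 2`
  have h6 : J.Eul 1 (J.D f ^ 2) (-C (g * J.D (J.D (J.D (2 * J.D f))))) := by
    intro W
    refine ((J.eul_D (2 * J.D f) f (hf _)) W).congr ?_
    rw [der_pow (J.evo W) (J.D f) 1]
    push_cast
    ring
  have h7 := Y2_add (Y2_add (Y2_add (Y2_add (Y2_add h1 (Y2_const 1 hk₂)) h3) h4) h5) h6
  refine ⟨g * J.D (J.D (J.D P)) + -(g * J.D (J.D (f ^ 2))) + -(g * J.D (J.D (J.D (2 * J.D f)))), ?_⟩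
  intro W
  refine (h7 W).congr ?_
  have e1 : J.cosL f (Y2_VP J f g 1) + 0 + (-Y2_VP J f g (J.D f) + C (g * J.D (J.D (J.D P)))) + 0 +
      C (-(g * J.D (J.D (f ^ 2)))) + -C (g * J.D (J.D (J.D (2 * J.D f)))) =
      J.cosL f (Y2_VP J f g 1) - Y2_VP J f g (J.D f) + C (g * J.D (J.D (J.D P)) + -(g * J.D (J.D (f ^ 2))) +
        -(g * J.D (J.D (J.D (2 * J.D f))))) := by
    simp only [C_add, C_neg]
    ring
  have e2 : J.evo (Jet.K3 f) P + k₂ + f * J.D P + f * k₁ + -(f ^ 3 / 3) + J.D f ^ 2 =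
      J.evo (Jet.K3 f) P + k₂ + f * (J.D P + k₁) - f ^ 3 / 3 + J.D f ^ 2 := by ring
  rw [e1, e2]

/-- `f = (g u_[0,1])' + c` -/
theorem Y2 {f θ σ ψ g c : F} (hg : J.FX g) (hc : J.IsC c)
    (hform : f = J.D (g * J.u 0 1) + c) (hT : J.evo (Jet.K3 f) f = J.D θ)
    (hS : J.evo (Jet.K3 f) θ = J.D σ)
    (hP : J.evo (Jet.K3 f) (σ + f * θ - f ^ 3 / 3 + J.D f ^ 2) = J.D ψ) : g = 0 := by
  have := J.charZero
  -- the order of `f`
  have hgk : ∀ k, 1 ≤ k → J.grad k g = 0 := by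
    intro k hk
    refine Polynomial.ext fun j => ?_
    rw [Jet.coeff_grad, Jet.Gu_apply, coeff_zero, hg, mul_zero]
    intro h
    have h1 := (mk2_eq_iff _ _ _ _).1 h
    omega
  have hgy : ∀ k, 2 ≤ k → J.grad k (g * J.u 0 1) = 0 := by
    intro k hk
    rw [Jet.grad_mul, hgk k (by omega), Jet.grad_u, if_neg (by omega), if_neg (by omega)]
    simp
  have hbd : J.Bd f 3 := by
    intro k hk
    obtain ⟨k, rfl⟩ : ∃ k', k = k' + 1 := ⟨k - 1, by omega⟩
    rw [hform, Jet.grad_add, Jet.grad_succ_D, hgy _ (by omega), hgy _ (by omega), hc.grad, map_zero]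
    simp
  have hf : ∀ d, J.Eul d f (C (g * J.D (J.D d))) := fun d => Y2_f hg hc hform d
  have hE : ∀ d, J.Ef f d = C (g * J.D (J.D d)) := fun d => (J.eul_Ef hbd d).unique (hf d)
  -- `θ` and `σ`
  have hTy : J.evo (Jet.K3 f) (g * J.u 0 1) = J.D (g * J.u 0 3 + f * (g * J.u 0 1)) := by
    rw [der_mul, hg.vf (δ := J.evo (Jet.K3 f)) (J.isVF_fld _), Jet.evo_u_00, Jet.evo_u_01, map_add, der_mul,
      der_mul, der_mul, hg.D, Jet.D_u, Jet.D_u]
    simp only [Nat.zero_add, Nat.reduceAdd]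
    ring
  have hTf : J.evo (Jet.K3 f) f = J.D (J.D (g * J.u 0 3 + f * (g * J.u 0 1))) := by
    conv_lhs => rw [hform, map_add, Jet.evo_D, ← hform, hc.evo, add_zero]
    rw [hTy]
  have hk₁ : J.IsC (θ - J.D (g * J.u 0 3 + f * (g * J.u 0 1))) := by
    apply Jet.isC_of_D_zero
    rw [map_sub, ← hT, hTf, sub_self]
  have hk₂ : J.IsC (σ - J.evo (Jet.K3 f) (g * J.u 0 3 + f * (g * J.u 0 1))) := by
    apply Jet.isC_of_D_zero
    have h1 := hk₁.evo (Jet.K3 f)
    rw [map_sub, Jet.evo_D, hS] at h1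
    rw [map_sub]
    exact h1
  obtain ⟨e, hρ⟩ := Y2_rho hg hc hk₁ hk₂ hform hE
  have hρe : J.evo (Jet.K3 f) (g * J.u 0 3 + f * (g * J.u 0 1)) +
      (σ - J.evo (Jet.K3 f) (g * J.u 0 3 + f * (g * J.u 0 1))) +
      f * (J.D (g * J.u 0 3 + f * (g * J.u 0 1)) + (θ - J.D (g * J.u 0 3 + f * (g * J.u 0 1)))) -
      f ^ 3 / 3 + J.D f ^ 2 = σ + f * θ - f ^ 3 / 3 + J.D f ^ 2 := by ring
  rw [hρe] at hρ
  obtain ⟨N, hN⟩ := J.exists_bd (σ + f * θ - f ^ 3 / 3 + J.D f ^ 2)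
  obtain ⟨M, hM⟩ := J.exists_bd ψ
  have hmain := (J.cos_main hbd hN hM hP).1
  rw [(J.eul_del 1 hN).unique hρ] at hmain
  have hb1 := Y2_cosL hE (fun i hi => Y2_VP_hi (J := J) f g 1 i hi)
  rw [Y2_VP_2, one_mul] at hb1
  set V := J.cosL f (Y2_VP J f g 1) - Y2_VP J f g (J.D f) + C e with hV
  have hVi : ∀ i, 2 < i → V.coeff i = (J.cosL f (Y2_VP J f g 1)).coeff i := by
    intro i hi
    rw [hV, coeff_add, coeff_sub, Y2_VP_hi _ _ _ i hi, coeff_C, if_neg (by omega), sub_zero, add_zero]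
  have hEi : ∀ d i, 0 < i → (J.Ef f d).coeff i = 0 := by
    intro d i hi
    rw [hE, coeff_C, if_neg (by omega)]
  -- stage 1
  have hg3 : J.D (J.D (J.D g)) = 0 := by
    have h1 := congrArg (fun U : F[X] => U.coeff 6) hmain
    simp only [coeff_zero] at h1
    rw [J.coeff_cosL_6 f (fun i hi => by rw [hVi i (by omega), hb1.1 i (by omega)]),
      hVi 6 (by omega), hVi 5 (by omega), hVi 4 (by omega), hb1.1 6 (by omega), hb1.1 5 (by omega), hb1.2,
      hEi _ 6 (by omega)] at h1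
    simp only [map_zero, mul_zero, zero_mul, sub_zero, add_zero, zero_sub, map_neg, der_mul, dnum,
      zero_add] at h1
    linear_combination (-1 / 27) * h1
  have hgC : J.IsC g := Jet.isC_of_D (Jet.isC_of_D (Jet.isC_of_D_zero hg3))
  -- stage 2
  have hDf : J.D f = J.D (J.D (g * J.u 0 1)) := by
    conv_lhs => rw [hform, map_add, hc.D, add_zero]
  have hVP : Y2_VP J f g 1 = 0 := by
    rw [Y2_VP]
    simp only [one_mul, hgC.D, map_zero, hgC.pd, mul_zero, neg_zero, hDf]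
    simp only [C_0, zero_mul, add_zero, zero_add]
    rw [← C_0]
    congr 1
    ring
  have hcos0 : J.cosL f 0 = 0 := by
    rw [Jet.cosL, hE]
    simp
  have hV2 : V.coeff 2 = 3 * J.D (J.D f * g) := by
    rw [hV, hVP, hcos0, coeff_add, coeff_sub, Y2_VP_2, coeff_C, if_neg (by omega)]
    simp
  have hVi0 : ∀ i, 2 < i → V.coeff i = 0 := by
    intro i hi
    rw [hVi i hi, hVP, hcos0, coeff_zero]
  have h1 := congrArg (fun U : F[X] => U.coeff 4) hmain
  simp only [coeff_zero] at h1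
  rw [J.coeff_cosL_4 f (fun i hi => hVi0 i (by omega)), hVi0 3 (by omega), hVi0 4 (by omega),
    hVi0 5 (by omega), hVi0 6 (by omega), hV2, hEi _ 4 (by omega)] at h1
  simp only [map_zero, mul_zero, zero_mul, sub_zero, add_zero, zero_sub, map_neg, der_mul, dnum,
    zero_add, hgC.D, hDf, hgC.D_mul, map_add] at h1
  by_contra hne
  have h4 : J.D (J.D (J.D (J.D (J.u 0 1)))) = 0 := by
    have h5 : g * g * J.D (J.D (J.D (J.D (J.u 0 1)))) = 0 := by linear_combination (-1 / 9) * h1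
    rcases mul_eq_zero.1 h5 with h6 | h6
    · exact absurd h6 (mul_ne_zero hne hne)
    · exact h6
  have h5 : J.IsC (J.u 0 1) :=
    Jet.isC_of_D (Jet.isC_of_D (Jet.isC_of_D (Jet.isC_of_D_zero h4)))
  have h6 := h5.pd 0 1
  rw [Jet.pd_u] at h6
  simp at h6

end Pool.Agent.Lib.MP_4d1bc1_mp.Kv
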