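import Pool.Agent.Lib.MP_4d1bc1_mp.Kv.RedDef

set_option autoImplicit false
set_option linter.unusedSimpArgs false

/-! Row kv-Z1: case `f_r = 0`, first consequences. -/

namespace Pool.Agent.Lib.MP_4d1bc1_mp.Kv

open Finset Polynomial

universe u

variable {F : Type u} [Field F] [Algebra ℝ F] {J : Jet F}

/-- `A` and `f_q` are constants -/
theorem Z1 {f : F} (hf : J.Six f) (hr : J.pd 2 2 f = 0) (h0 : J.cosL f (J.v0 f) = 0)
    (hθ : J.cosL f (-J.mth f) = 0) : J.IsC (J.cA f) ∧ J.IsC (J.pd 1 2 f) := by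
  have := J.charZero
  have hα : J.IsC (J.pd 2 2 f) := by rw [hr]; exact Jet.isC_zero
  have hI := Jet.eq_I hf hα h0
  rw [hr] at hI
  have hA : J.D (J.cA f) = 0 := by linear_combination (1 / 3) * hI
  refine ⟨Jet.isC_of_D_zero hA, ?_⟩
  obtain ⟨m6, m5, m4, m3⟩ := Jet.mth_hi hf hα
  obtain ⟨a0, a1, a2, a3, a4, a5⟩ := hf.c0 hα
  obtain ⟨b0, b1, b2, b3, b5⟩ := hf.c1 hα
  obtain ⟨c0, c1, c2, c5⟩ := hf.c2
  rw [hr] at m6 m4
  have h1 := congrArg (fun U : F[X] => U.coeff 6) hθ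
  simp only [J.coeff_cosL_6 f (fun i hi => by rw [coeff_neg, Jet.mth_big hf hα i hi, neg_zero]),
    Jet.coeff_Ef, coeff_zero, coeff_neg, m6, m5, m4, a5 6 (by omega), b5 6 (by omega),
    c5 6 (by omega), map_zero, der_mul, dnum, map_neg, map_sub, map_add, zero_mul, mul_zero,
    add_zero, zero_add, neg_zero, sub_zero, hA] at h1
  refine Jet.isC_of_D (Jet.isC_of_D_zero ?_)
  linear_combination (-1 / 9) * h1

end Pool.Agent.Lib.MP_4d1bc1_mp.Kv
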