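import Pool.Agent.Lib.MP_4d1bc1_mp.Kv.RedDef

set_option autoImplicit false
set_option linter.unusedSimpArgs false

/-! Row kv-Z2: case `f_r = 0`, the form of `f`. -/

namespace Pool.Agent.Lib.MP_4d1bc1_mp.Kv

open Finset Polynomial

universe u

variable {F : Type u} [Field F] [Algebra ℝ F] {J : Jet F}

/-- `f_pp = 0` -/
theorem Z2_pp {f : F} (hf : J.Six f) (hr : J.pd 2 2 f = 0) (h0 : J.cosL f (J.v0 f) = 0)
    (hA : J.IsC (J.cA f)) (hq : J.IsC (J.pd 1 2 f)) : J.pd 0 2 (J.pd 0 2 f) = 0 := by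
  have := J.charZero
  have hα : J.IsC (J.pd 2 2 f) := by rw [hr]; exact Jet.isC_zero
  have hII := Jet.eq_II hf hα h0
  have hs : ∀ i j : ℕ, J.Six (J.pd i j f) := fun i j => hf.P _
  have z3 : ∀ g : F, J.Six g → J.pd 0 3 g = 0 := fun g hg => hg.pd_eq_zero (by norm_num)
  have z4 : ∀ g : F, J.Six g → J.pd 0 4 g = 0 := fun g hg => hg.pd_eq_zero (by norm_num)
  have z5 : ∀ g : F, J.Six g → J.pd 0 5 g = 0 := fun g hg => hg.pd_eq_zero (by norm_num)
  have hB5 : J.pd 0 5 (J.cB f) = 0 := by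
    rw [Jet.cB]
    simp only [map_add, map_sub, der_mul, dnum, J.pd_D_0_5, J.pd_D_0_4, J.pd_D_0_3,
      z3 _ (hs _ _), z4 _ (hs _ _), z5 _ (hs _ _), map_zero]
    ring
  have hB4 : J.pd 0 4 (J.cB f) = J.pd 0 2 (J.pd 0 2 f) := by
    rw [Jet.cB]
    simp only [map_add, map_sub, der_mul, dnum, J.pd_D_0_5, J.pd_D_0_4, J.pd_D_0_3,
      z3 _ (hs _ _), z4 _ (hs _ _), z5 _ (hs _ _), map_zero]
    ring
  have hE : J.cE f = J.u 0 1 * J.cB f - J.u 1 2 * J.cA f := by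
    rw [Jet.cE, hr, hA.D]
    ring
  rw [hE, hr, hA.evo, hA.D, map_zero, map_zero] at hII
  have h5 := congrArg (J.pd 0 5) hII
  simp only [map_add, map_sub, map_neg, der_mul, dnum, map_zero, hA.D, hA.pd, hq.pd, J.D_u, J.pd_D_0_5,
    J.pd_D_0_4, hB5, hB4, z3 _ hf, z4 _ hf, z5 _ hf, J.pd_u] at h5
  norm_num at h5
  have h6 : J.pd 0 2 (J.pd 0 2 f) * (J.u 0 1 * J.pd 1 2 f - 3) = 0 := by
    linear_combination h5
  rcases mul_eq_zero.1 h6 with h7 | h7
  · exact h7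
  · exfalso
    have h8 := congrArg (J.pd 0 1) h7
    simp only [map_sub, der_mul, dnum, map_zero, hq.pd, J.pd_u] at h8
    norm_num at h8
    rw [h8, mul_zero, zero_sub] at h7
    exact three_ne_zero (neg_eq_zero.1 h7)

/-- the form of `f` -/
theorem Z2 {f : F} (hf : J.Six f) (hr : J.pd 2 2 f = 0) (h0 : J.cosL f (J.v0 f) = 0)
    (hA : J.IsC (J.cA f)) (hq : J.IsC (J.pd 1 2 f)) :
    ∃ g η : F, J.FXY g ∧ J.FXY η ∧
      f = g * (J.u 0 2 + J.u 1 1) + J.pd 1 2 f * J.u 1 2 + J.cA f / 2 * J.u 1 1 + η := by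
  have := J.charZero
  have hpp := Z2_pp hf hr h0 hA hq
  have hA2 : J.cA f = 2 * J.pd 1 1 f - 2 * J.pd 0 2 f := by
    rw [Jet.cA, hq.D]
    ring
  have hpz : J.pd 1 1 (J.pd 0 2 f) = 0 := by
    have h1 := hA.pd 0 2
    rw [hA2] at h1
    simp only [map_sub, der_mul, dnum, hpp] at h1
    rw [J.pd_comm 0 2 1 1] at h1
    have h2 : (2 : F) * J.pd 1 1 (J.pd 0 2 f) = 0 := by linear_combination h1
    exact (mul_eq_zero.1 h2).resolve_left two_ne_zero
  have hpq : J.pd 1 2 (J.pd 0 2 f) = 0 := by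
    rw [J.pd_comm 1 2 0 2]
    exact hq.pd 0 2
  have hpr : J.pd 2 2 (J.pd 0 2 f) = 0 := by
    rw [J.pd_comm 2 2 0 2, hr, map_zero]
  have key : ∀ g : F, J.Six g → J.pd 0 2 g = 0 → J.pd 1 1 g = 0 → J.pd 1 2 g = 0 → J.pd 2 2 g = 0 →
      J.FXY g := by
    rintro g hg h02 h11 h12 h22 ⟨⟨i, j⟩, hij⟩ ha hb
    by_cases h2 : 2 < j
    · exact hg _ h2
    · simp only [not_lt] at h2 hij
      have hi : i ≤ 2 := hij.trans h2
      interval_cases j <;> interval_cases i <;> first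
        | omega
        | exact absurd rfl ha
        | exact absurd rfl hb
        | exact h02
        | exact h11
        | exact h12
        | exact h22
  have hg : J.FXY (J.pd 0 2 f) := key _ (hf.P _) hpp hpz hpq hpr
  refine ⟨J.pd 0 2 f, f - (J.pd 0 2 f * (J.u 0 2 + J.u 1 1) + J.pd 1 2 f * J.u 1 2 + J.cA f / 2 * J.u 1 1),
    hg, ?_, by ring⟩
  have hc : J.IsC (J.cA f / 2) := hA.div (Jet.isC_ofNat 2)
  have hfz : J.pd 1 1 f = J.pd 0 2 f + J.cA f / 2 := by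
    rw [hA2]; ring
  apply key
  · intro a ha
    have e1 : J.T.P a (J.u 0 2) = 0 := by
      rw [Jet.u, J.P_U, if_neg]
      rintro rfl
      exact absurd ha (by decide)
    have e2 : J.T.P a (J.u 1 1) = 0 := by
      rw [Jet.u, J.P_U, if_neg]
      rintro rfl
      exact absurd ha (by decide)
    have e3 : J.T.P a (J.u 1 2) = 0 := by
      rw [Jet.u, J.P_U, if_neg]
      rintro rfl
      exact absurd ha (by decide)
    have e4 : J.T.P a (J.pd 0 2 f) = 0 := hf.P _ a ha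
    simp only [map_sub, map_add, der_mul, e1, e2, e3, e4, hf a ha, hq a, hc a]
    ring
  all_goals
    simp only [map_sub, map_add, der_mul, hpp, hpz, hpq, hpr, hq.pd, hc.pd, J.pd_u]
  · norm_num
  · norm_num
    rw [hfz]
    ring
  · norm_num
  · norm_num
    exact hr

end Pool.Agent.Lib.MP_4d1bc1_mp.Kv
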