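import Pool.Agent.Lib.MP_4d1bc1_mp.Kv.RedDef

set_option autoImplicit false
set_option linter.unusedSimpArgs false

/-! Row kv-Z3: case `f_r = 0`, the functions `A, B, Γ, e, μ` and the equations. -/

namespace Pool.Agent.Lib.MP_4d1bc1_mp.Kv

open Finset Polynomial

universe u

variable {F : Type u} [Field F] [Algebra ℝ F] {J : Jet F}

private theorem RowZ3_six {f g η ε k : F} (hg : J.FXY g) (hη : J.FXY η) (hε : J.IsC ε)
    (hk : J.IsC k)
    (hform : f = g * (J.u 0 2 + J.u 1 1) + ε * J.u 1 2 + k / 2 * J.u 1 1 + η) :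
    J.Six f := by
  intro a ha
  have hU : ∀ i j, i ≤ 2 → j ≤ 2 → J.T.P a (J.u i j) = 0 := by
    intro i j hi hj
    rw [Jet.u, J.P_U, if_neg]
    rintro rfl
    have : (mk2 i j).1.2 = max i j := rfl
    rw [this] at ha
    omega
  have h1 : J.T.P a g = 0 := hg.xyz.six a ha
  have h2 : J.T.P a η = 0 := hη.xyz.six a ha
  have h3 : J.T.P a (k / 2) = 0 := der_div_zero _ (hk a) (der_ofNat _ 2)
  rw [hform]
  simp only [map_add, der_mul, h1, h2, h3, hε a, hU 0 2 (by norm_num) (by norm_num),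
    hU 1 1 (by norm_num) (by norm_num), hU 1 2 (by norm_num) (by norm_num)]
  ring

private theorem RowZ3_xy {g : F} (hg : J.FXY g) (i j : ℕ) (h0 : mk2 i j ≠ mk2 0 0)
    (h1 : mk2 i j ≠ mk2 0 1) : J.pd i j g = 0 := hg _ h0 h1

/-- all partial derivatives -/
private theorem RowZ3_pd {f g η ε k : F} (hg : J.FXY g) (hη : J.FXY η) (hε : J.IsC ε)
    (hk : J.IsC k)
    (hform : f = g * (J.u 0 2 + J.u 1 1) + ε * J.u 1 2 + k / 2 * J.u 1 1 + η) :
    J.pd 2 2 f = 0 ∧ J.pd 1 2 f = ε ∧ J.pd 0 2 f = g ∧ J.pd 1 1 f = g + k / 2 ∧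
    J.pd 0 1 f = J.pd 0 1 g * (J.u 0 2 + J.u 1 1) + J.pd 0 1 η ∧
    J.pd 0 0 f = J.pd 0 0 g * (J.u 0 2 + J.u 1 1) + J.pd 0 0 η := by
  have h3 : ∀ i j, J.pd i j (k / 2) = 0 := fun i j => der_div_zero _ (hk.pd i j) (der_ofNat _ 2)
  have hε' : ∀ i j, J.pd i j ε = 0 := fun i j => hε.pd i j
  refine ⟨?_, ?_, ?_, ?_, ?_, ?_⟩
  · rw [hform]
    simp only [map_add, der_mul, h3, hε', J.pd_u, RowZ3_xy hg 2 2 (by decide) (by decide),
      RowZ3_xy hη 2 2 (by decide) (by decide)]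
    norm_num
  · rw [hform]
    simp only [map_add, der_mul, h3, hε', J.pd_u, RowZ3_xy hg 1 2 (by decide) (by decide),
      RowZ3_xy hη 1 2 (by decide) (by decide)]
    norm_num
  · rw [hform]
    simp only [map_add, der_mul, h3, hε', J.pd_u, RowZ3_xy hg 0 2 (by decide) (by decide),
      RowZ3_xy hη 0 2 (by decide) (by decide)]
    norm_num
  · rw [hform]
    simp only [map_add, der_mul, h3, hε', J.pd_u, RowZ3_xy hg 1 1 (by decide) (by decide),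
      RowZ3_xy hη 1 1 (by decide) (by decide)]
    norm_num
  · rw [hform]
    simp only [map_add, der_mul, h3, hε', J.pd_u]
    norm_num
  · rw [hform]
    simp only [map_add, der_mul, h3, hε', J.pd_u]
    norm_num

/-- the auxiliary functions for `f` of the form found in Z2 -/
theorem Z3_aux {f g η ε k : F} (hg : J.FXY g) (hη : J.FXY η) (hε : J.IsC ε) (hk : J.IsC k)
    (hform : f = g * (J.u 0 2 + J.u 1 1) + ε * J.u 1 2 + k / 2 * J.u 1 1 + η) :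
    J.Six f ∧ J.pd 2 2 f = 0 ∧ J.pd 1 2 f = ε ∧ J.pd 0 2 f = g ∧ J.cA f = k
    ∧ J.cG f = (J.u 0 2 + J.u 1 1) * J.pd 0 1 g + 4 * J.u 0 1 * J.pd 0 0 g - J.pd 0 1 η
    ∧ J.cB f = (J.u 0 2 + J.u 1 1) * (4 * J.pd 0 0 g + 2 * J.u 0 1 * J.pd 0 0 (J.pd 0 1 g)
        - J.pd 0 1 (J.pd 0 1 η))
        + (2 * J.pd 0 0 η + 4 * J.u 0 1 ^ 2 * J.pd 0 0 (J.pd 0 0 g)
          - 2 * J.u 0 1 * J.pd 0 0 (J.pd 0 1 η))
    ∧ J.cE f = J.u 0 1 * J.cB f - k * J.u 1 2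
    ∧ J.cM f = J.u 0 1 * J.cG f - k * J.u 1 1 + ε * J.u 1 2 := by
  have := J.charZero
  obtain ⟨p22, p12, p02, p11, p01, p00⟩ := RowZ3_pd hg hη hε hk hform
  have hA : J.cA f = k := by
    rw [Jet.cA, p11, p12, p02, hε.D]
    ring
  refine ⟨RowZ3_six hg hη hε hk hform, p22, p12, p02, hA, ?_, ?_, ?_, ?_⟩
  · rw [Jet.cG, p02, p01, hg.D]
    ring
  · have hgx : J.FXY (J.pd 0 0 g) := hg.P _
    have hgy : J.FXY (J.pd 0 1 g) := hg.P _
    have hηy : J.FXY (J.pd 0 1 η) := hη.P _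
    have hc : J.pd 0 1 (J.pd 0 0 g) = J.pd 0 0 (J.pd 0 1 g) := J.pd_comm 0 1 0 0 g
    rw [Jet.cB, p00, p01, p02, hg.D]
    simp only [map_add, der_mul, dnum, J.D_u, hgx.D, hgy.D, hηy.D, hc, Jet.u_1_0, Jet.u_2_1]
    ring
  · rw [Jet.cE, hA, p22, hk.D]
    ring
  · rw [Jet.cM, hA, p22, p12, hε.D]
    ring

/-- the fourth coefficient of the equation for `δθ`, integrated -/
theorem Z3_W {f g η ε k : F} (hg : J.FXY g) (hη : J.FXY η) (hε : J.IsC ε) (hk : J.IsC k)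
    (hform : f = g * (J.u 0 2 + J.u 1 1) + ε * J.u 1 2 + k / 2 * J.u 1 1 + η)
    (hθ : J.cosL f (-J.mth f) = 0) :
    J.IsC (3 * J.D (J.cG f) - ε * J.D f + 3 * J.cB f + 2 * k * f + k * J.cM f
      - ε * (J.cE f + J.D (J.cM f))) := by
  have := J.charZero
  obtain ⟨hf, p22, p12, p02, hA, -, -, -, -⟩ := Z3_aux hg hη hε hk hform
  have hα : J.IsC (J.pd 2 2 f) := by rw [p22]; exact Jet.isC_zero
  obtain ⟨m6, m5, m4, m3⟩ := Jet.mth_hi hf hα
  have m2 := Jet.mth_2 hf hα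
  have hbig := Jet.mth_big hf hα
  obtain ⟨a0, a1, a2, a3, a4, a5⟩ := hf.c0 hα
  obtain ⟨b0, b1, b2, b3, b5⟩ := hf.c1 hα
  obtain ⟨c0, c1, c2, c5⟩ := hf.c2
  have h1 := congrArg (fun U : F[X] => U.coeff 4) hθ
  simp only [J.coeff_cosL_4 f (b := -J.mth f)
    (fun i hi => by rw [coeff_neg, hbig i hi, neg_zero]), Jet.coeff_Ef, coeff_zero,
    coeff_neg, m6, m5, m4, m3, m2, a4, b5 4 (by omega), c5 4 (by omega)] at h1
  simp only [p22, p12, hA, map_zero, der_mul, dnum, hk.D, hε.D, hk.evo, hε.evo, map_neg, map_add,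
    map_sub, zero_mul, mul_zero, add_zero, zero_add, sub_zero, zero_sub, neg_zero] at h1
  apply Jet.isC_of_D_zero
  simp only [map_add, map_sub, der_mul, dnum, hk.D, hε.D]
  linear_combination (-1 / 3) * h1

/-- `ε = 0` and `g` is a function of `u_[0,0]` -/
theorem Z3 {f g η ε k : F} (hg : J.FXY g) (hη : J.FXY η) (hε : J.IsC ε) (hk : J.IsC k)
    (hform : f = g * (J.u 0 2 + J.u 1 1) + ε * J.u 1 2 + k / 2 * J.u 1 1 + η)
    (hθ : J.cosL f (-J.mth f) = 0) : ε = 0 ∧ J.FX g := by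
  have := J.charZero
  obtain ⟨hf, p22, p12, p02, hA, hG, hB, hE, hM⟩ := Z3_aux hg hη hε hk hform
  have hW := Z3_W hg hη hε hk hform hθ
  have hgx : J.FXY (J.pd 0 0 g) := hg.P _
  have hgy : J.FXY (J.pd 0 1 g) := hg.P _
  have hηy : J.FXY (J.pd 0 1 η) := hη.P _
  have hηx : J.FXY (J.pd 0 0 η) := hη.P _
  have hgxy : J.FXY (J.pd 0 0 (J.pd 0 1 g)) := hgy.P _
  have hgxx : J.FXY (J.pd 0 0 (J.pd 0 0 g)) := hgx.P _
  have hηyy : J.FXY (J.pd 0 1 (J.pd 0 1 η)) := hηy.P _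
  have hηxy : J.FXY (J.pd 0 0 (J.pd 0 1 η)) := hηy.P _
  have key : ∀ i j, mk2 i j ≠ mk2 0 0 → mk2 i j ≠ mk2 0 1 →
      J.pd i j (J.cG f) = J.pd i j (J.u 0 2 + J.u 1 1) * J.pd 0 1 g
        + 4 * J.pd i j (J.u 0 1) * J.pd 0 0 g ∧
      J.pd i j (J.cB f) = J.pd i j (J.u 0 2 + J.u 1 1) * (4 * J.pd 0 0 g +
        2 * J.u 0 1 * J.pd 0 0 (J.pd 0 1 g) - J.pd 0 1 (J.pd 0 1 η)) +
        J.pd i j (J.u 0 1) * ((J.u 0 2 + J.u 1 1) * (2 * J.pd 0 0 (J.pd 0 1 g)) +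
          8 * J.u 0 1 * J.pd 0 0 (J.pd 0 0 g) - 2 * J.pd 0 0 (J.pd 0 1 η)) := by
    intro i j h0 h1
    rw [hG, hB]
    constructor
    · simp only [map_add, map_sub, der_mul, dnum, RowZ3_xy hgx i j h0 h1, RowZ3_xy hgy i j h0 h1,
        RowZ3_xy hηy i j h0 h1]
      ring
    · simp only [map_add, map_sub, der_mul, dnum, RowZ3_xy hgx i j h0 h1, RowZ3_xy hgy i j h0 h1,
        RowZ3_xy hηy i j h0 h1, RowZ3_xy hηx i j h0 h1, RowZ3_xy hgxy i j h0 h1,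
        RowZ3_xy hgxx i j h0 h1, RowZ3_xy hηyy i j h0 h1, RowZ3_xy hηxy i j h0 h1, pow_two]
      ring
  obtain ⟨G13, B13⟩ := key 1 3 (by decide) (by decide)
  obtain ⟨G03, B03⟩ := key 0 3 (by decide) (by decide)
  obtain ⟨G12, B12⟩ := key 1 2 (by decide) (by decide)
  obtain ⟨G02, B02⟩ := key 0 2 (by decide) (by decide)
  simp only [map_add, J.pd_u] at G13 B13 G03 B03 G12 B12 G02 B02
  norm_num at G13 B13 G03 B03 G12 B12 G02 B02
  have f13 : J.pd 1 3 f = 0 := hf.pd_eq_zero (Or.inr (by norm_num))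
  have f03 : J.pd 0 3 f = 0 := hf.pd_eq_zero (Or.inr (by norm_num))
  have h13 := hW.pd 1 3
  have h03 := hW.pd 0 3
  have M13 : J.pd 1 3 (J.cM f) = 0 := by
    rw [hM]
    simp only [map_add, map_sub, der_mul, J.pd_u, hk.pd, hε.pd, G13]
    norm_num
  have M03 : J.pd 0 3 (J.cM f) = 0 := by
    rw [hM]
    simp only [map_add, map_sub, der_mul, J.pd_u, hk.pd, hε.pd, G03]
    norm_num
  have M12 : J.pd 1 2 (J.cM f) = ε := by
    rw [hM]
    simp only [map_add, map_sub, der_mul, J.pd_u, hk.pd, hε.pd, G12]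
    norm_num
  have E13 : J.pd 1 3 (J.cE f) = 0 := by
    rw [hE]
    simp only [map_add, map_sub, der_mul, J.pd_u, hk.pd, B13]
    norm_num
  have hε0 : ε = 0 := by
    simp only [map_add, map_sub, der_mul, dnum, hk.pd, hε.pd, J.pd_D_1_3, G13, G03, G12, B13,
      f13, f03, p12, M13, M03, M12, E13, map_zero] at h13
    have h2 : ε ^ 2 = 0 := by linear_combination (-1 / 2) * h13
    exact pow_eq_zero_iff (two_ne_zero) |>.1 h2
  refine ⟨hε0, ?_⟩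
  have hy : J.pd 0 1 g = 0 := by
    rw [hε0] at h03
    simp only [map_add, map_sub, der_mul, dnum, hk.pd, J.pd_D_0_3, G03, G02, B03,
      f03, M03, map_zero, zero_mul, mul_zero, add_zero, zero_add, sub_zero] at h03
    linear_combination (1 / 3) * h03
  intro a ha
  by_cases h1 : a = mk2 0 1
  · rw [h1]; exact hy
  · exact hg a ha h1

end Pool.Agent.Lib.MP_4d1bc1_mp.Kv
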