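import Pool.Agent.Lib.MP_4d1bc1_mp.Kv.Rows.RowZ3

set_option autoImplicit false
set_option linter.unusedSimpArgs false

/-! Row kv-Z4: case `f_r = 0`, the form of `η`. -/

namespace Pool.Agent.Lib.MP_4d1bc1_mp.Kv

open Finset Polynomial

universe u

variable {F : Type u} [Field F] [Algebra ℝ F] {J : Jet F}

/-- the form of `η` -/
theorem Z4 {f g η k : F} (hg : J.FX g) (hη : J.FXY η) (hk : J.IsC k)
    (hform : f = g * (J.u 0 2 + J.u 1 1) + 0 * J.u 1 2 + k / 2 * J.u 1 1 + η)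
    (h0 : J.cosL f (J.v0 f) = 0) (hθ : J.cosL f (-J.mth f) = 0) :
    ∃ c S : F, J.IsC c ∧ J.FX S ∧ k * J.pd 0 0 g = 0 ∧ k * c = 0
      ∧ J.IsC (3 * J.pd 0 0 S + k * S)
      ∧ η = (2 * J.pd 0 0 g + k * g / 6) * J.u 0 1 ^ 2 - c * J.u 0 1 + S := by
  have hcz := J.charZero
  obtain ⟨hS, h22, h12, h02, hA, hG, hB, hE, hM⟩ := Z3_aux hg.xy hη Jet.isC_zero hk hform
  have hW := Z3_W hg.xy hη Jet.isC_zero hk hform hθ
  have gy : J.pd 0 1 g = 0 := hg _ (by decide)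
  have gxy : J.pd 0 0 (J.pd 0 1 g) = 0 := by rw [gy, map_zero]
  rw [gy, mul_zero, zero_add] at hG
  rw [gxy, mul_zero, add_zero] at hB
  -- the classes
  have hgx : J.FX (J.pd 0 0 g) := hg.P _
  have hgxx : J.FX (J.pd 0 0 (J.pd 0 0 g)) := hgx.P _
  have hηx : J.FXY (J.pd 0 0 η) := hη.P _
  have hηy : J.FXY (J.pd 0 1 η) := hη.P _
  have hηyy : J.FXY (J.pd 0 1 (J.pd 0 1 η)) := hηy.P _
  have hηxy : J.FXY (J.pd 0 0 (J.pd 0 1 η)) := hηy.P _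
  have Dx : J.D (J.u 0 0) = 2 * J.u 0 1 := by
    rw [J.D_u 0 0, J.u_symm (0 + 1) 0]; ring
  have Dy : J.D (J.u 0 1) = J.u 1 1 + J.u 0 2 := J.D_u 0 1
  have Dz : J.D (J.u 1 1) = 2 * J.u 1 2 := by
    rw [J.D_u 1 1, J.u_symm (1 + 1) 1]; ring
  have Dp : J.D (J.u 0 2) = J.u 1 2 + J.u 0 3 := J.D_u 0 2
  have hDG : J.D (J.cG f) = (J.u 0 2 + J.u 1 1) * (4 * J.pd 0 0 g - J.pd 0 1 (J.pd 0 1 η))
      + 8 * J.u 0 1 ^ 2 * J.pd 0 0 (J.pd 0 0 g) - 2 * J.u 0 1 * J.pd 0 0 (J.pd 0 1 η) := by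
    rw [hG, map_sub, hηy.D]
    simp only [der_mul, dnum, hgx.D, Dy]
    ring
  -- the constant `W`
  have hW1 : J.IsC ((J.u 0 2 + J.u 1 1)
        * (24 * J.pd 0 0 g - 6 * J.pd 0 1 (J.pd 0 1 η) + 2 * k * g)
      + (36 * J.u 0 1 ^ 2 * J.pd 0 0 (J.pd 0 0 g) - 12 * J.u 0 1 * J.pd 0 0 (J.pd 0 1 η)
        + 6 * J.pd 0 0 η + 2 * k * η + 4 * k * J.u 0 1 ^ 2 * J.pd 0 0 g
        - k * J.u 0 1 * J.pd 0 1 η)) := by
    have e : 3 * J.D (J.cG f) - 0 * J.D f + 3 * J.cB f + 2 * k * f + k * J.cM f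
        - 0 * (J.cE f + J.D (J.cM f)) = (J.u 0 2 + J.u 1 1)
        * (24 * J.pd 0 0 g - 6 * J.pd 0 1 (J.pd 0 1 η) + 2 * k * g)
      + (36 * J.u 0 1 ^ 2 * J.pd 0 0 (J.pd 0 0 g) - 12 * J.u 0 1 * J.pd 0 0 (J.pd 0 1 η)
        + 6 * J.pd 0 0 η + 2 * k * η + 4 * k * J.u 0 1 ^ 2 * J.pd 0 0 g
        - k * J.u 0 1 * J.pd 0 1 η) := by
      rw [hDG, hB, hM, hG]
      generalize J.D f = df
      generalize J.cE f = ef
      generalize J.D (J.u 0 1 * (4 * J.u 0 1 * (J.pd 0 0) g - (J.pd 0 1) η) - k * J.u 1 1 + 0 * J.u 1 2) = df2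
      rw [hform]
      ring
    rw [e] at hW
    exact hW
  have h1 : J.pd 0 1 (J.pd 0 1 η) = 4 * J.pd 0 0 g + k * g / 3 := by
    have h := hW1 (mk2 0 2)
    have t1 : J.pd 0 2 ((J.u 0 2 + J.u 1 1)
        * (24 * J.pd 0 0 g - 6 * J.pd 0 1 (J.pd 0 1 η) + 2 * k * g)
      + (36 * J.u 0 1 ^ 2 * J.pd 0 0 (J.pd 0 0 g) - 12 * J.u 0 1 * J.pd 0 0 (J.pd 0 1 η)
        + 6 * J.pd 0 0 η + 2 * k * η + 4 * k * J.u 0 1 ^ 2 * J.pd 0 0 g
        - k * J.u 0 1 * J.pd 0 1 η)) = 0 := h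
    have p1 : J.pd 0 2 (J.pd 0 0 g) = 0 := hgx _ (by decide)
    have p2 : J.pd 0 2 (J.pd 0 1 (J.pd 0 1 η)) = 0 := hηyy _ (by decide) (by decide)
    have p3 : J.pd 0 2 k = 0 := hk _
    have p4 : J.pd 0 2 g = 0 := hg _ (by decide)
    have p5 : J.pd 0 2 (J.pd 0 0 (J.pd 0 0 g)) = 0 := hgxx _ (by decide)
    have p6 : J.pd 0 2 (J.pd 0 0 (J.pd 0 1 η)) = 0 := hηxy _ (by decide) (by decide)
    have p7 : J.pd 0 2 (J.pd 0 0 η) = 0 := hηx _ (by decide) (by decide)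
    have p8 : J.pd 0 2 η = 0 := hη _ (by decide) (by decide)
    have p9 : J.pd 0 2 (J.pd 0 1 η) = 0 := hηy _ (by decide) (by decide)
    have q1 : J.pd 0 2 (J.u 0 2) = 1 := by rw [J.pd_u]; norm_num
    have q2 : J.pd 0 2 (J.u 1 1) = 0 := by rw [J.pd_u]; norm_num
    have q3 : J.pd 0 2 (J.u 0 1) = 0 := by rw [J.pd_u]; norm_num
    simp only [map_add, map_sub, der_mul, pow_two, dnum, p1, p2, p3, p4, p5, p6, p7, p8, p9, q1,
      q2, q3, mul_zero, zero_mul, add_zero, zero_add, sub_zero, zero_sub, one_mul] at t1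
    linear_combination (-1 / 6) * t1
  -- `c` and `S`
  have pyy : J.pd 0 1 (J.u 0 1) = 1 := by rw [J.pd_u]; norm_num
  have pyx : J.pd 0 0 (J.u 0 1) = 0 := by rw [J.pd_u]; norm_num
  have gxy2 : J.pd 0 1 (J.pd 0 0 g) = 0 := hgx _ (by decide)
  have ky : J.pd 0 1 k = 0 := hk _
  have kx : J.pd 0 0 k = 0 := hk _
  have hu01 : J.FXY (J.u 0 1) := by
    intro a ha0 ha1
    rw [Jet.u, J.P_U, if_neg ha1]
  have hmulXY : ∀ {a b : F}, J.FXY a → J.FXY b → J.FXY (a * b) := fun ha hb i h0 h1 =>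
    der_mul_zero _ (ha i h0 h1) (hb i h0 h1)
  have i3 : ∀ δ : Derivation ℝ F F, δ ((3 : F)⁻¹) = 0 := fun δ => der_inv_zero δ (der_ofNat δ 3)
  have i6 : ∀ δ : Derivation ℝ F F, δ ((6 : F)⁻¹) = 0 := fun δ => der_inv_zero δ (der_ofNat δ 6)
  obtain ⟨c, hc⟩ : ∃ c, c = (4 * J.pd 0 0 g + k * g / 3) * J.u 0 1 - J.pd 0 1 η := ⟨_, rfl⟩
  have cFX : J.FX c := by
    intro a ha0
    by_cases ha1 : a = mk2 0 1
    · subst ha1
      have : J.pd 0 1 c = 0 := by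
        rw [hc]
        simp only [map_add, map_sub, der_mul, div_eq_mul_inv, dnum, i3, gxy2, ky, gy, pyy, h1,
          mul_zero, zero_mul, add_zero, zero_add, mul_one]
        ring
      exact this
    · have z1 : J.T.P a (J.pd 0 0 g) = 0 := hgx a ha0
      have z2 : J.T.P a k = 0 := hk a
      have z3 : J.T.P a g = 0 := hg a ha0
      have z4 : J.T.P a (J.u 0 1) = 0 := hu01 a ha0 ha1
      have z5 : J.T.P a (J.pd 0 1 η) = 0 := hηy a ha0 ha1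
      rw [hc]
      simp only [map_add, map_sub, der_mul, div_eq_mul_inv, dnum, i3, z1, z2, z3, z4, z5,
        mul_zero, zero_mul, add_zero, zero_add, sub_zero]
  have cy : J.pd 0 1 c = 0 := cFX _ (by decide)
  obtain ⟨S, hSd⟩ : ∃ S, S = η - (2 * J.pd 0 0 g + k * g / 6) * J.u 0 1 ^ 2 + c * J.u 0 1 :=
    ⟨_, rfl⟩
  have ηy : J.pd 0 1 η = (4 * J.pd 0 0 g + k * g / 3) * J.u 0 1 - c := by rw [hc]; ring
  have SFX : J.FX S := by
    intro a ha0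
    by_cases ha1 : a = mk2 0 1
    · subst ha1
      have : J.pd 0 1 S = 0 := by
        rw [hSd]
        simp only [map_add, map_sub, der_mul, div_eq_mul_inv, dnum, i6, gxy2, ky, gy, pyy, cy,
          mul_zero, zero_mul, add_zero, zero_add, mul_one, pow_two, ηy]
        ring
      exact this
    · have z1 : J.T.P a (J.pd 0 0 g) = 0 := hgx a ha0
      have z2 : J.T.P a k = 0 := hk a
      have z3 : J.T.P a g = 0 := hg a ha0
      have z4 : J.T.P a (J.u 0 1) = 0 := hu01 a ha0 ha1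
      have z5 : J.T.P a η = 0 := hη a ha0 ha1
      have z6 : J.T.P a c = 0 := cFX a ha0
      rw [hSd]
      simp only [map_add, map_sub, der_mul, div_eq_mul_inv, dnum, i6, z1, z2, z3, z4, z5, z6,
        mul_zero, zero_mul, add_zero, zero_add, sub_zero, pow_two]
  have ηeq : η = (2 * J.pd 0 0 g + k * g / 6) * J.u 0 1 ^ 2 - c * J.u 0 1 + S := by
    rw [hSd]; ring
  have ηx : J.pd 0 0 η = (2 * J.pd 0 0 (J.pd 0 0 g) + k * J.pd 0 0 g / 6) * J.u 0 1 ^ 2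
      - J.pd 0 0 c * J.u 0 1 + J.pd 0 0 S := by
    conv_lhs => rw [ηeq]
    simp only [map_add, map_sub, der_mul, div_eq_mul_inv, dnum, i6, kx, pyx,
      mul_zero, zero_mul, add_zero, zero_add, mul_one, pow_two]
  have ηxy : J.pd 0 0 (J.pd 0 1 η) = (4 * J.pd 0 0 (J.pd 0 0 g) + k * J.pd 0 0 g / 3) * J.u 0 1
      - J.pd 0 0 c := by
    rw [ηy]
    simp only [map_add, map_sub, der_mul, div_eq_mul_inv, dnum, i3, kx, pyx,
      mul_zero, zero_mul, add_zero, zero_add, mul_one, pow_two]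
  have hcx : J.FX (J.pd 0 0 c) := cFX.P _
  have hSx : J.FX (J.pd 0 0 S) := SFX.P _
  -- the constant in powers of `y`
  have hW2 : J.IsC (k * J.pd 0 0 g * J.u 0 1 ^ 2 + (6 * J.pd 0 0 c - k * c) * J.u 0 1
      + (6 * J.pd 0 0 S + 2 * k * S)) := by
    have e : (J.u 0 2 + J.u 1 1)
        * (24 * J.pd 0 0 g - 6 * J.pd 0 1 (J.pd 0 1 η) + 2 * k * g)
      + (36 * J.u 0 1 ^ 2 * J.pd 0 0 (J.pd 0 0 g) - 12 * J.u 0 1 * J.pd 0 0 (J.pd 0 1 η)
        + 6 * J.pd 0 0 η + 2 * k * η + 4 * k * J.u 0 1 ^ 2 * J.pd 0 0 g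
        - k * J.u 0 1 * J.pd 0 1 η) = k * J.pd 0 0 g * J.u 0 1 ^ 2
          + (6 * J.pd 0 0 c - k * c) * J.u 0 1 + (6 * J.pd 0 0 S + 2 * k * S) := by
      rw [h1, ηxy, ηx, ηy]
      have e2 : 2 * k * η = 2 * k * ((2 * J.pd 0 0 g + k * g / 6) * J.u 0 1 ^ 2
        - c * J.u 0 1 + S) := by rw [← ηeq]
      rw [e2]
      ring
    rw [e] at hW1
    exact hW1
  have gxxy : J.pd 0 1 (J.pd 0 0 (J.pd 0 0 g)) = 0 := hgxx _ (by decide)
  have cxy : J.pd 0 1 (J.pd 0 0 c) = 0 := hcx _ (by decide)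
  have Sxy : J.pd 0 1 (J.pd 0 0 S) = 0 := hSx _ (by decide)
  have Sy : J.pd 0 1 S = 0 := SFX _ (by decide)
  have w1 : 2 * (k * J.pd 0 0 g) * J.u 0 1 + (6 * J.pd 0 0 c - k * c) = 0 := by
    have t : J.pd 0 1 (k * J.pd 0 0 g * J.u 0 1 ^ 2 + (6 * J.pd 0 0 c - k * c) * J.u 0 1
      + (6 * J.pd 0 0 S + 2 * k * S)) = 0 := hW2 _
    simp only [map_add, map_sub, der_mul, pow_two, dnum, ky, gxy2, pyy, cxy, cy, Sxy, Sy,
      mul_zero, zero_mul, add_zero, zero_add, sub_zero, mul_one, one_mul] at t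
    linear_combination t
  have w2 : k * J.pd 0 0 g = 0 := by
    have t := congrArg (J.pd 0 1) w1
    simp only [map_add, map_sub, der_mul, pow_two, dnum, ky, gxy2, pyy, cxy, cy, Sxy, Sy,
      mul_zero, zero_mul, add_zero, zero_add, sub_zero, mul_one, one_mul, map_zero] at t
    linear_combination (1 / 2) * t
  have w3 : 6 * J.pd 0 0 c - k * c = 0 := by
    rw [w2] at w1
    linear_combination w1
  have w4 : J.IsC (3 * J.pd 0 0 S + k * S) := by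
    have e : 3 * J.pd 0 0 S + k * S = 2⁻¹ * (k * J.pd 0 0 g * J.u 0 1 ^ 2
      + (6 * J.pd 0 0 c - k * c) * J.u 0 1 + (6 * J.pd 0 0 S + 2 * k * S)) := by
      rw [w2, w3]; ring
    rw [e]
    exact (Jet.isC_ofNat 2).inv.mul hW2
  -- equation (II)
  have hB2 : J.cB f = -(k * g / 3) * (J.u 0 2 + J.u 1 1) + 2 * J.pd 0 0 S := by
    rw [hB, h1, ηx, ηxy]
    linear_combination (-(1 / 3) * J.u 0 1 ^ 2) * w2
  have hII := Jet.eq_II hS (by rw [h22]; exact Jet.isC_zero) h0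
  rw [hA, hk.evo, hk.D, h12, h22] at hII
  have hDB : J.D (J.cB f) = -(k * g / 3) * (J.u 0 3 + 3 * J.u 1 2)
      + 4 * J.u 0 1 * J.pd 0 0 (J.pd 0 0 S) := by
    rw [hB2, map_add]
    have e1 : J.D (k * g / 3) = k * J.pd 0 0 g * J.u 0 1 * (2 / 3) := by
      simp only [der_mul, div_eq_mul_inv, i3, hk.D, hg.D, mul_zero, zero_mul, add_zero, zero_add]
      ring
    simp only [der_mul, dnum, map_neg, map_add, hSx.D, Dp, Dz, e1, w2]
    ring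
  have hDf : J.D f = 2 * J.u 0 1 * J.pd 0 0 g * (J.u 0 2 + J.u 1 1)
      + g * (J.u 0 3 + 3 * J.u 1 2) + k * J.u 1 2 + (2 * J.u 0 1 * J.pd 0 0 η
        + (J.u 0 2 + J.u 1 1) * J.pd 0 1 η) := by
    have i2 : J.D ((2 : F)⁻¹) = 0 := der_inv_zero _ (der_ofNat _ 2)
    rw [hform]
    simp only [map_add, der_mul, div_eq_mul_inv, i2, hk.D, hg.D, hη.D, Dp, Dz, map_zero]
    have h2 : (2 : F) ≠ 0 := two_ne_zero
    field_simp
    ring
  rw [hDB, hDf, hE, hB2] at hII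
  have t : 12 * J.u 0 1 * J.pd 0 0 (J.pd 0 0 S) - (J.u 0 2 + J.u 1 1) * (k * c)
      + 2 * k * J.u 0 1 * J.pd 0 0 η + 2 * k * J.u 0 1 * J.pd 0 0 S = 0 := by
    simp only [map_zero, mul_zero, zero_mul, add_zero, zero_add, sub_zero, neg_zero] at hII
    rw [ηy] at hII
    linear_combination (-1) * hII - (6 * J.u 0 1 * (J.u 0 2 + J.u 1 1)) * w2
  have kc : k * c = 0 := by
    have p1 : J.pd 0 2 (J.pd 0 0 (J.pd 0 0 S)) = 0 := hSx.P _ _ (by decide)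
    have p3 : J.pd 0 2 k = 0 := hk _
    have p4 : J.pd 0 2 c = 0 := cFX _ (by decide)
    have p5 : J.pd 0 2 (J.pd 0 0 S) = 0 := hSx _ (by decide)
    have p7 : J.pd 0 2 (J.pd 0 0 η) = 0 := hηx _ (by decide) (by decide)
    have q1 : J.pd 0 2 (J.u 0 2) = 1 := by rw [J.pd_u]; norm_num
    have q2 : J.pd 0 2 (J.u 1 1) = 0 := by rw [J.pd_u]; norm_num
    have q3 : J.pd 0 2 (J.u 0 1) = 0 := by rw [J.pd_u]; norm_num
    have t2 := congrArg (J.pd 0 2) t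
    simp only [map_add, map_sub, der_mul, dnum, p1, p3, p4, p5, p7, q1, q2, q3,
      mul_zero, zero_mul, add_zero, zero_add, sub_zero, mul_one, one_mul, map_zero] at t2
    linear_combination (-1) * t2
  have cx : J.pd 0 0 c = 0 := by
    linear_combination (1 / 6) * w3 + (1 / 6) * kc
  have hcC : J.IsC c := by
    intro a
    by_cases ha0 : a = mk2 0 0
    · subst ha0; exact cx
    · exact cFX a ha0
  exact ⟨c, S, hcC, SFX, w2, kc, w4, ηeq⟩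

end Pool.Agent.Lib.MP_4d1bc1_mp.Kv
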