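import Pool.Agent.Lib.MP_4d1bc1_mp.Kv.Rows.RowZ4

set_option autoImplicit false
set_option linter.unusedSimpArgs false

/-! Row kv-Z6: case `f_r = 0`, `A ≠ 0`. -/

namespace Pool.Agent.Lib.MP_4d1bc1_mp.Kv

open Finset Polynomial

universe u

variable {F : Type u} [Field F] [Algebra ℝ F] {J : Jet F}

private theorem Z6_ip (J : Jet F) {b : F[X]} (hb : ∀ i, 6 < i → b.coeff i = 0) :
    J.ip b X = b.coeff 0 * J.u 0 1 + b.coeff 1 * J.u 1 1 + b.coeff 2 * J.u 1 2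
      + b.coeff 3 * J.u 1 3 + b.coeff 4 * J.u 1 4 + b.coeff 5 * J.u 1 5
      + b.coeff 6 * J.u 1 6 := by
  conv_lhs => rw [eq_expand hb]
  simp only [J.unr, pow_zero]

private theorem Z6_y (J : Jet F) (i : Idx2) (h : i ≠ mk2 0 1) : J.T.P i (J.u 0 1) = 0 := by
  rw [Jet.u, J.P_U, if_neg h]

/-- the function `η` depends on two variables -/
private theorem Z6_eta {g S a : F} (hg : J.IsC g) (hS : J.FX S) (ha : J.IsC a) :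
    J.FXY (a * g * J.u 0 1 * J.u 0 1 + S) := by
  intro i h0 h1
  rw [map_add, der_mul, der_mul, der_mul, ha i, hg i, Z6_y J i h1, hS i h0]
  ring

/-- the three derivatives of `f` -/
private theorem Z6_D {f g S a : F} (hg : J.IsC g) (hS : J.FX S) (ha : J.IsC a)
    (hS2 : J.pd 0 0 (J.pd 0 0 S) = -2 * a * J.pd 0 0 S)
    (hf : f = g * (J.u 0 2 + J.u 1 1) + 3 * a * J.u 1 1 + a * g * J.u 0 1 * J.u 0 1 + S) :
    J.D f = 2 * a * g * J.u 0 1 * J.u 0 2 + 2 * a * g * J.u 0 1 * J.u 1 1 + 2 * J.pd 0 0 S * J.u 0 1 + 6 * a * J.u 1 2 + g * J.u 0 3 + 3 * g * J.u 1 2 ∧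
    J.D (J.D f) = - 8 * J.pd 0 0 S * a * J.u 0 1 * J.u 0 1 + 2 * a * g * J.u 0 1 * J.u 0 3 + 6 * a * g * J.u 0 1 * J.u 1 2 + 4 * a * g * J.u 0 2 * J.u 1 1 + 2 * a * g * J.u 0 2 * J.u 0 2 + 2 * a * g * J.u 1 1 * J.u 1 1 + 2 * J.pd 0 0 S * J.u 0 2 + 2 * J.pd 0 0 S * J.u 1 1 + 6 * a * J.u 1 3 + 6 * a * J.u 2 2 + g * J.u 0 4 + 4 * g * J.u 1 3 + 3 * g * J.u 2 2 ∧
    J.D (J.D (J.D f)) = 32 * J.pd 0 0 S * a * a * J.u 0 1 * J.u 0 1 * J.u 0 1 - 24 * J.pd 0 0 S * a * J.u 0 1 * J.u 0 2 - 24 * J.pd 0 0 S * a * J.u 0 1 * J.u 1 1 + 2 * a * g * J.u 0 1 * J.u 0 4 + 8 * a * g * J.u 0 1 * J.u 1 3 + 6 * a * g * J.u 0 1 * J.u 2 2 + 6 * a * g * J.u 0 2 * J.u 0 3 + 18 * a * g * J.u 0 2 * J.u 1 2 + 6 * a * g * J.u 0 3 * J.u 1 1 + 18 * a * g * J.u 1 1 * J.u 1 2 + 2 * J.pd 0 0 S * J.u 0 3 + 6 * J.pd 0 0 S * J.u 1 2 + 6 * a * J.u 1 4 + 18 * a * J.u 2 3 +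 g * J.u 0 5 + 5 * g * J.u 1 4 + 10 * g * J.u 2 3 := by
  have hDS : J.D S = 2 * J.u 0 1 * J.pd 0 0 S := hS.D
  have hDS1 : J.D (J.pd 0 0 S) = 2 * J.u 0 1 * (-2 * a * J.pd 0 0 S) := by
    rw [(hS.P (mk2 0 0)).D (g := J.pd 0 0 S), hS2]
  have h1 : J.D f = 2 * a * g * J.u 0 1 * J.u 0 2 + 2 * a * g * J.u 0 1 * J.u 1 1 + 2 * J.pd 0 0 S * J.u 0 1 + 6 * a * J.u 1 2 + g * J.u 0 3 + 3 * g * J.u 1 2 := by
    rw [hf]
    simp only [map_add, der_mul, dnum, hg.D, ha.D, hDS, Jet.D_u, Nat.reduceAdd, zero_add]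
    simp only [J.unr, pow_zero]
    ring
  have h2 : J.D (J.D f) = - 8 * J.pd 0 0 S * a * J.u 0 1 * J.u 0 1 + 2 * a * g * J.u 0 1 * J.u 0 3 + 6 * a * g * J.u 0 1 * J.u 1 2 + 4 * a * g * J.u 0 2 * J.u 1 1 + 2 * a * g * J.u 0 2 * J.u 0 2 + 2 * a * g * J.u 1 1 * J.u 1 1 + 2 * J.pd 0 0 S * J.u 0 2 + 2 * J.pd 0 0 S * J.u 1 1 + 6 * a * J.u 1 3 + 6 * a * J.u 2 2 + g * J.u 0 4 + 4 * g * J.u 1 3 + 3 * g * J.u 2 2 := by
    rw [h1]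
    simp only [map_add, map_sub, map_neg, der_mul, dnum, hg.D, ha.D, hDS, hDS1, Jet.D_u,
      Nat.reduceAdd, zero_add]
    simp only [J.unr, pow_zero]
    ring
  refine ⟨h1, h2, ?_⟩
  rw [h2]
  simp only [map_add, map_sub, map_neg, der_mul, dnum, hg.D, ha.D, hDS, hDS1, Jet.D_u,
    Nat.reduceAdd, zero_add]
  simp only [J.unr, pow_zero]
  ring

/-- the coefficients of `mth f` -/
private theorem Z6_m {f g S a : F} (hg : J.IsC g) (hS : J.FX S) (ha : J.IsC a)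
    (hS2 : J.pd 0 0 (J.pd 0 0 S) = -2 * a * J.pd 0 0 S)
    (hf : f = g * (J.u 0 2 + J.u 1 1) + 3 * a * J.u 1 1 + a * g * J.u 0 1 * J.u 0 1 + S) :
    J.Six f ∧ J.pd 2 2 f = 0 ∧ J.pd 1 2 f = 0 ∧ J.cA f = 6 * a ∧
    (J.mth f).coeff 6 = 0 ∧ (J.mth f).coeff 5 = 0 ∧ (J.mth f).coeff 4 = 18 * a ∧
    (J.mth f).coeff 3 = 0 ∧
    (J.mth f).coeff 2 = 18 * a * a * g * J.u 0 1 * J.u 0 1 + 18 * a * g * J.u 0 2 + 18 * a * g * J.u 1 1 + 54 * a * a * J.u 1 1 + 6 * S * a - 6 * J.pd 0 0 S ∧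
    (J.mth f).coeff 1 = 36 * a * a * g * J.u 0 1 * J.u 0 2 + 36 * a * a * g * J.u 0 1 * J.u 1 1 + 36 * J.pd 0 0 S * a * J.u 0 1 + 18 * a * g * J.u 0 3 + 54 * a * g * J.u 1 2 + 108 * a * a * J.u 1 2 ∧
    (J.mth f).coeff 0 = 18 * a * a * g * g * J.u 0 1 * J.u 0 1 * J.u 0 2 + 18 * a * a * g * g * J.u 0 1 * J.u 0 1 * J.u 1 1 - 26 * J.pd 0 0 S * a * g * J.u 0 1 * J.u 0 1 - 96 * J.pd 0 0 S * a * a * J.u 0 1 * J.u 0 1 - 8 * a * g * g * J.u 0 1 * J.u 0 3 - 24 * a * g * g * J.u 0 1 * J.u 1 2 - 12 * a * g * g * J.u 0 2 * J.u 1 1 - 6 * a * g * g * J.u 0 2 * J.u 0 2 - 6 * a * g * g * J.u 1 1 * J.u 1 1 + 36 * a * a * g * J.u 0 1 * J.u 1 2 + 18 * a * a * g * J.u 0 2 * J.u 1 1 + 18 * a * a * g * J.u 1 1 * J.u 1 1 + 2 * S * a * g * J.u 0 2 + 2 * S * a * g * J.u 1 1 + 24 * J.pd 0 0 S * a * J.u 0 2 + 6 * J.pd 0 0 S * a * J.u 1 1 + 2 * J.pd 0 0 S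 * g * J.u 0 2 + 2 * J.pd 0 0 S * g * J.u 1 1 + 6 * a * g * J.u 0 4 + 6 * a * g * J.u 1 3 - 2 * S * J.pd 0 0 S := by
  have := J.charZero
  obtain ⟨f1, f2, f3⟩ := Z6_D hg hS ha hS2 hf
  have hDS : J.D S = 2 * J.u 0 1 * J.pd 0 0 S := hS.D
  have hDS1 : J.D (J.pd 0 0 S) = 2 * J.u 0 1 * (-2 * a * J.pd 0 0 S) := by
    rw [(hS.P (mk2 0 0)).D (g := J.pd 0 0 S), hS2]
  have hη := Z6_eta hg hS ha
  have ha6 : J.IsC (6 * a) := (Jet.isC_ofNat 6).mul ha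
  have hform : f = g * (J.u 0 2 + J.u 1 1) + 0 * J.u 1 2 + 6 * a / 2 * J.u 1 1
      + (a * g * J.u 0 1 * J.u 0 1 + S) := by
    rw [hf]; ring
  obtain ⟨h6, hr, hq, hp, hA, hG, hB, hE, hM⟩ :=
    Z3_aux hg.x.xy hη Jet.isC_zero ha6 hform
  have hα : J.IsC (J.pd 2 2 f) := by rw [hr]; exact Jet.isC_zero
  have y1 : J.pd 0 1 (J.u 0 1) = 1 := by rw [J.pd_u]; simp
  have y0 : J.pd 0 0 (J.u 0 1) = 0 := by rw [J.pd_u]; simp
  have S1 : J.pd 0 1 S = 0 := hS _ (by decide)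
  have e1 : J.pd 0 1 (a * g * J.u 0 1 * J.u 0 1 + S) = 2 * a * g * J.u 0 1 := by
    rw [map_add, der_mul, der_mul, der_mul, ha.pd, hg.pd, y1, S1]; ring
  have e0 : J.pd 0 0 (a * g * J.u 0 1 * J.u 0 1 + S) = J.pd 0 0 S := by
    rw [map_add, der_mul, der_mul, der_mul, ha.pd, hg.pd, y0]; ring
  have e11 : J.pd 0 1 (2 * a * g * J.u 0 1) = 2 * a * g := by
    rw [der_mul, der_mul, der_mul, dnum, ha.pd, hg.pd, y1]; ring
  have e01 : J.pd 0 0 (2 * a * g * J.u 0 1) = 0 := by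
    rw [der_mul, der_mul, der_mul, dnum, ha.pd, hg.pd, y0]; ring
  rw [e1, hg.pd, hg.pd] at hG
  rw [e1, e0, e11, e01, hg.pd, hg.pd] at hB
  have hG' : J.cG f = -(2 * a * g * J.u 0 1) := by rw [hG]; ring
  have hB' : J.cB f = -(2 * a * g * (J.u 0 2 + J.u 1 1)) + 2 * J.pd 0 0 S := by
    rw [hB]; simp only [map_zero]; ring
  have hM' : J.cM f = J.u 0 1 * -(2 * a * g * J.u 0 1) - 6 * a * J.u 1 1 := by
    rw [hM, hG']; ring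
  have hE' : J.cE f = J.u 0 1 * (-(2 * a * g * (J.u 0 2 + J.u 1 1)) + 2 * J.pd 0 0 S)
      - 6 * a * J.u 1 2 := by
    rw [hE, hB']
  obtain ⟨m6, m5, m4, m3⟩ := Jet.mth_hi h6 hα
  have m2 := Jet.mth_2 h6 hα
  have m1 := Jet.mth_1 h6 hα
  have m0 := Jet.mth_0 h6 hα
  refine ⟨h6, hr, hq, hA, ?_, m5, ?_, ?_, ?_, ?_, ?_⟩
  · rw [m6, hr]; ring
  · rw [m4, hr, hq, hA, map_zero]; ring
  · rw [m3, hr, hq, hA, ha6.D, map_zero, map_zero]; ring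
  · rw [m2, hr, hq, hA, hG', hB', hM']
    simp only [map_zero, map_add, map_sub, map_neg, der_mul, dnum, hg.D, ha.D, hDS, hDS1,
      Jet.D_u, Nat.reduceAdd, zero_add]
    rw [hf]
    simp only [J.unr, pow_zero]
    ring
  · rw [m1, hr, hq, hA, hG', hB', hM', hE']
    simp only [map_zero, map_add, map_sub, map_neg, zero_sub, der_mul, dnum, hg.D, ha.D, ha.evo,
      hDS, hDS1, Jet.D_u, Nat.reduceAdd, zero_add, zero_mul, mul_zero, add_zero]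
    rw [f1, hf]
    simp only [J.unr, pow_zero]
    ring
  · rw [m0, hp, hG', hB', hM', hE']
    simp only [map_zero, map_add, map_sub, map_neg, zero_sub, der_mul, dnum, hg.D, ha.D, ha.evo,
      hg.evo, J.evo_u_01, hDS, hDS1, Jet.D_u, Nat.reduceAdd, zero_add, zero_mul, mul_zero,
      add_zero]
    rw [f1, hf]
    simp only [J.unr, pow_zero]
    ring

/-- the coefficient 2 of the equation -/
private theorem Z6_eq {f g S a : F} (hg : J.IsC g) (hS : J.FX S) (ha : J.IsC a)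
    (hS2 : J.pd 0 0 (J.pd 0 0 S) = -2 * a * J.pd 0 0 S)
    (hf : f = g * (J.u 0 2 + J.u 1 1) + 3 * a * J.u 1 1 + a * g * J.u 0 1 * J.u 0 1 + S)
    (hθ : J.cosL f (-J.mth f) = 0) :
    192 * J.pd 0 0 S * a * a * g * J.u 0 1 * J.u 0 1 * J.u 0 1 + 576 * J.pd 0 0 S * a * a * a * J.u 0 1 * J.u 0 1 * J.u 0 1 - 144 * a * a * g * g * J.u 0 1 * J.u 0 2 * J.u 1 1 - 72 * a * a * g * g * J.u 0 1 * J.u 0 2 * J.u 0 2 - 72 * a * a * g * g * J.u 0 1 * J.u 1 1 * J.u 1 1 - 84 * a * a * g * g * J.u 0 1 * J.u 0 1 * J.u 0 3 - 252 * a * a * g * g * J.u 0 1 * J.u 0 1 * J.u 1 2 - 288 * J.pd 0 0 S * a * g * J.u 0 1 * J.u 0 2 - 288 * J.pd 0 0 S * a * g * J.u 0 1 * J.u 1 1 - 720 * J.pd 0 0 S * a * a * J.u 0 1 * J.u 0 2 - 720 * J.pd 0 0 S * a * a * J.u 0 1 * J.u 1 1 - 42 * a * g * g * J.u 0 1 * J.u 0 4 - 168 * a * g * g * J.u 0 1 * J.u 1 3 - 126 * a * g *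 g * J.u 0 1 * J.u 2 2 - 114 * a * g * g * J.u 0 2 * J.u 0 3 - 342 * a * g * g * J.u 0 2 * J.u 1 2 - 114 * a * g * g * J.u 0 3 * J.u 1 1 - 342 * a * g * g * J.u 1 1 * J.u 1 2 + 36 * J.pd 0 0 S * a * J.u 0 3 + 108 * J.pd 0 0 S * a * J.u 1 2 + 12 * J.pd 0 0 S * g * J.u 0 3 + 36 * J.pd 0 0 S * g * J.u 1 2 = 0 := by
  have := J.charZero
  obtain ⟨f1, f2, f3⟩ := Z6_D hg hS ha hS2 hf
  obtain ⟨h6, hr, hq, hA, m6, m5, m4, m3, m2, m1, m0⟩ := Z6_m hg hS ha hS2 hf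
  have hDS : J.D S = 2 * J.u 0 1 * J.pd 0 0 S := hS.D
  have hDS1 : J.D (J.pd 0 0 S) = 2 * J.u 0 1 * (-2 * a * J.pd 0 0 S) := by
    rw [(hS.P (mk2 0 0)).D (g := J.pd 0 0 S), hS2]
  have hTS : J.evo (Jet.K3 f) S = J.evo (Jet.K3 f) (J.u 0 0) * J.pd 0 0 S :=
    hS.vf (J.isVF_fld _)
  have hTS1 : J.evo (Jet.K3 f) (J.pd 0 0 S) =
      J.evo (Jet.K3 f) (J.u 0 0) * (-2 * a * J.pd 0 0 S) := by
    have h := (hS.P (mk2 0 0)).vf (g := J.pd 0 0 S) (δ := J.evo (Jet.K3 f)) (J.isVF_fld _)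
    rw [hS2] at h
    exact h
  have hα : J.IsC (J.pd 2 2 f) := by rw [hr]; exact Jet.isC_zero
  obtain ⟨-, -, a2, -, -, -⟩ := h6.c0 hα
  obtain ⟨-, -, b2, -, -⟩ := h6.c1 hα
  obtain ⟨-, -, c2, -⟩ := h6.c2
  have hbig : ∀ i, 6 < i → (-J.mth f).coeff i = 0 := fun i hi => by
    rw [coeff_neg, Jet.mth_big h6 hα i hi, neg_zero]
  have dM0 : J.D ((J.mth f).coeff 0) = 104 * J.pd 0 0 S * a * a * g * J.u 0 1 * J.u 0 1 * J.u 0 1 + 384 * J.pd 0 0 S * a * a * a * J.u 0 1 * J.u 0 1 * J.u 0 1 + 72 * a * a * g * g * J.u 0 1 * J.u 0 2 * J.u 1 1 + 36 * a * a * g * g * J.u 0 1 * J.u 0 2 * J.u 0 2 + 36 * a * a * g * g * J.u 0 1 * J.u 1 1 * J.u 1 1 + 18 * a * a * g * g * J.u 0 1 * J.u 0 1 * J.u 0 3 + 54 * a * a * g * g * J.u 0 1 * J.u 0 1 * J.u 1 2 - 56 * J.pd 0 0 S * a * g * J.u 0 1 * J.u 0 2 - 56 * J.pd 0 0 S * a * g * J.u 0 1 * J.u 1 1 - 288 *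 J.pd 0 0 S * a * a * J.u 0 1 * J.u 0 2 - 216 * J.pd 0 0 S * a * a * J.u 0 1 * J.u 1 1 - 8 * a * g * g * J.u 0 1 * J.u 0 4 - 32 * a * g * g * J.u 0 1 * J.u 1 3 - 24 * a * g * g * J.u 0 1 * J.u 2 2 - 20 * a * g * g * J.u 0 2 * J.u 0 3 - 60 * a * g * g * J.u 0 2 * J.u 1 2 - 20 * a * g * g * J.u 0 3 * J.u 1 1 - 60 * a * g * g * J.u 1 1 * J.u 1 2 + 36 * a * a * g * J.u 0 1 * J.u 1 3 + 36 * a * a * g * J.u 0 1 * J.u 2 2 + 72 * a * a * g * J.u 0 2 * J.u 1 2 + 18 * a * a * g * J.u 0 3 * J.u 1 1 + 126 * a * a * g * J.u 1 1 * J.u 1 2 + 8 * S * J.pd 0 0 S * a * J.u 0 1 + 2 * S * a * g * J.u 0 3 + 6 * S * a * g * J.u 1 2 + 24 * J.pd 0 0 S * a * J.u 0 3 + 36 * J.pd 0 0 S * a * J.u 1 2 + 2 * J.pd 0 0 S * g * J.u 0 3 + 6 * J.pd 0 0 S * g * J.u 1 2 - 4 * J.pd 0 0 S * J.pd 0 0 S * J.u 0 1 + 6 * a * g * J.u 0 5 + 12 * a * g * J.u 1 4 + 6 * a * g *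 J.u 2 3 := by
    rw [m0]
    simp only [map_add, map_sub, map_neg, der_mul, dnum, hg.D, ha.D, hDS, hDS1, Jet.D_u,
      Nat.reduceAdd, zero_add]
    simp only [J.unr, pow_zero]
    ring
  have d1M1 : J.D ((J.mth f).coeff 1) = - 144 * J.pd 0 0 S * a * a * J.u 0 1 * J.u 0 1 + 36 * a * a * g * J.u 0 1 * J.u 0 3 + 108 * a * a * g * J.u 0 1 * J.u 1 2 + 72 * a * a * g * J.u 0 2 * J.u 1 1 + 36 * a * a * g * J.u 0 2 * J.u 0 2 + 36 * a * a * g * J.u 1 1 * J.u 1 1 + 36 * J.pd 0 0 S * a * J.u 0 2 + 36 * J.pd 0 0 S * a * J.u 1 1 + 18 * a * g * J.u 0 4 + 72 * a * g * J.u 1 3 + 54 * a * g * J.u 2 2 + 108 * a * a * J.u 1 3 + 108 * a * a * J.u 2 2 := by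
    rw [m1]
    simp only [map_add, map_sub, map_neg, der_mul, dnum, hg.D, ha.D, hDS, hDS1, Jet.D_u,
      Nat.reduceAdd, zero_add]
    simp only [J.unr, pow_zero]
    ring
  have d2M1 : J.D (J.D ((J.mth f).coeff 1)) = 576 * J.pd 0 0 S * a * a * a * J.u 0 1 * J.u 0 1 * J.u 0 1 - 432 * J.pd 0 0 S * a * a * J.u 0 1 * J.u 0 2 - 432 * J.pd 0 0 S * a * a * J.u 0 1 * J.u 1 1 + 36 * a * a * g * J.u 0 1 * J.u 0 4 + 144 * a * a * g * J.u 0 1 * J.u 1 3 + 108 * a * a * g * J.u 0 1 * J.u 2 2 + 108 * a * a * g * J.u 0 2 * J.u 0 3 + 324 * a * a * g * J.u 0 2 * J.u 1 2 + 108 * a * a * g * J.u 0 3 * J.u 1 1 + 324 * a * a * g * J.u 1 1 * J.u 1 2 + 36 * J.pd 0 0 S * a * J.u 0 3 + 108 * J.pd 0 0 S * a * J.u 1 2 + 18 * a * g * J.u 0 5 + 90 * a * g * J.u 1 4 + 180 * a * g * J.u 2 3 + 108 * a * a * J.u 1 4 + 324 * a * a * J.u 2 3 := by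
    rw [d1M1]
    simp only [map_add, map_sub, map_neg, der_mul, dnum, hg.D, ha.D, hDS, hDS1, Jet.D_u,
      Nat.reduceAdd, zero_add]
    simp only [J.unr, pow_zero]
    ring
  have d1M2 : J.D ((J.mth f).coeff 2) = 36 * a * a * g * J.u 0 1 * J.u 0 2 + 36 * a * a * g * J.u 0 1 * J.u 1 1 + 36 * J.pd 0 0 S * a * J.u 0 1 + 18 * a * g * J.u 0 3 + 54 * a * g * J.u 1 2 + 108 * a * a * J.u 1 2 := by
    rw [m2]
    simp only [map_add, map_sub, map_neg, der_mul, dnum, hg.D, ha.D, hDS, hDS1, Jet.D_u,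
      Nat.reduceAdd, zero_add]
    simp only [J.unr, pow_zero]
    ring
  have d2M2 : J.D (J.D ((J.mth f).coeff 2)) = - 144 * J.pd 0 0 S * a * a * J.u 0 1 * J.u 0 1 + 36 * a * a * g * J.u 0 1 * J.u 0 3 + 108 * a * a * g * J.u 0 1 * J.u 1 2 + 72 * a * a * g * J.u 0 2 * J.u 1 1 + 36 * a * a * g * J.u 0 2 * J.u 0 2 + 36 * a * a * g * J.u 1 1 * J.u 1 1 + 36 * J.pd 0 0 S * a * J.u 0 2 + 36 * J.pd 0 0 S * a * J.u 1 1 + 18 * a * g * J.u 0 4 + 72 * a * g * J.u 1 3 + 54 * a * g * J.u 2 2 + 108 * a * a * J.u 1 3 + 108 * a * a * J.u 2 2 := by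
    rw [d1M2]
    simp only [map_add, map_sub, map_neg, der_mul, dnum, hg.D, ha.D, hDS, hDS1, Jet.D_u,
      Nat.reduceAdd, zero_add]
    simp only [J.unr, pow_zero]
    ring
  have d3M2 : J.D (J.D (J.D ((J.mth f).coeff 2))) = 576 * J.pd 0 0 S * a * a * a * J.u 0 1 * J.u 0 1 * J.u 0 1 - 432 * J.pd 0 0 S * a * a * J.u 0 1 * J.u 0 2 - 432 * J.pd 0 0 S * a * a * J.u 0 1 * J.u 1 1 + 36 * a * a * g * J.u 0 1 * J.u 0 4 + 144 * a * a * g * J.u 0 1 * J.u 1 3 + 108 * a * a * g * J.u 0 1 * J.u 2 2 + 108 * a * a * g * J.u 0 2 * J.u 0 3 + 324 * a * a * g * J.u 0 2 * J.u 1 2 + 108 * a * a * g * J.u 0 3 * J.u 1 1 + 324 * a * a * g * J.u 1 1 * J.u 1 2 + 36 * J.pd 0 0 S * a * J.u 0 3 + 108 * J.pd 0 0 S * a * J.u 1 2 + 18 * a * g * J.u 0 5 + 90 * a * g * J.u 1 4 + 180 * a * g * J.u 2 3 + 108 * a * a * J.u 1 4 + 324 * a * a * J.u 2 3 := by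
    rw [d2M2]
    simp only [map_add, map_sub, map_neg, der_mul, dnum, hg.D, ha.D, hDS, hDS1, Jet.D_u,
      Nat.reduceAdd, zero_add]
    simp only [J.unr, pow_zero]
    ring
  have tM2 : J.evo (Jet.K3 f) ((J.mth f).coeff 2) = 108 * a * a * a * g * g * J.u 0 1 * J.u 0 1 * J.u 0 1 * J.u 0 2 + 108 * a * a * a * g * g * J.u 0 1 * J.u 0 1 * J.u 0 1 * J.u 1 1 - 36 * J.pd 0 0 S * a * a * g * J.u 0 1 * J.u 0 1 * J.u 0 1 + 288 * a * a * g * g * J.u 0 1 * J.u 0 2 * J.u 1 1 + 144 * a * a * g * g * J.u 0 1 * J.u 0 2 * J.u 0 2 + 144 * a * a * g * g * J.u 0 1 * J.u 1 1 * J.u 1 1 + 90 * a * a * g * g * J.u 0 1 * J.u 0 1 * J.u 0 3 + 270 * a * a * g * g * J.u 0 1 * J.u 0 1 * J.u 1 2 + 324 * a * a * a * g * J.u 0 1 * J.u 0 2 * J.u 1 1 + 324 * a * a * a * g * J.u 0 1 * J.u 1 1 * J.u 1 1 + 324 * a * a * a * g * J.u 0 1 * J.u 0 1 * J.u 1 2 + 36 * S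 * a * a * g * J.u 0 1 * J.u 0 2 + 36 * S * a * a * g * J.u 0 1 * J.u 1 1 + 144 * J.pd 0 0 S * a * g * J.u 0 1 * J.u 0 2 + 144 * J.pd 0 0 S * a * g * J.u 0 1 * J.u 1 1 + 324 * J.pd 0 0 S * a * a * J.u 0 1 * J.u 1 1 + 18 * a * g * g * J.u 0 1 * J.u 0 4 + 72 * a * g * g * J.u 0 1 * J.u 1 3 + 54 * a * g * g * J.u 0 1 * J.u 2 2 + 54 * a * g * g * J.u 0 2 * J.u 0 3 + 162 * a * g * g * J.u 0 2 * J.u 1 2 + 54 * a * g * g * J.u 0 3 * J.u 1 1 + 162 * a * g * g * J.u 1 1 * J.u 1 2 + 36 * a * a * g * J.u 0 1 * J.u 0 4 + 144 * a * a * g * J.u 0 1 * J.u 1 3 + 108 * a * a * g * J.u 0 1 * J.u 2 2 + 324 * a * a * g * J.u 0 2 * J.u 1 2 + 162 * a * a * g * J.u 0 3 * J.u 1 1 + 810 * a * a * g * J.u 1 1 * J.u 1 2 + 972 * a * a * a * J.u 1 1 * J.u 1 2 + 36 * S * J.pd 0 0 S * a * J.u 0 1 + 18 * S * a * g * J.u 0 3 + 54 * S * a * g * J.u 1 2 + 108 * S *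 a * a * J.u 1 2 + 36 * J.pd 0 0 S * a * J.u 0 3 + 18 * a * g * J.u 0 5 + 36 * a * g * J.u 1 4 + 18 * a * g * J.u 2 3 + 108 * a * a * J.u 1 4 := by
    rw [m2]
    simp only [map_add, map_sub, map_neg, der_mul, dnum, hg.evo, ha.evo, hTS, hTS1, J.evo_u_00,
      J.evo_u_01, J.evo_u_11, J.evo_u_02]
    rw [f2, f1, hf]
    ring
  have E := congrArg (fun U : F[X] => U.coeff 2) hθ
  simp only [J.coeff_cosL_2 f hbig, J.coeff_Ef, coeff_zero, coeff_neg, Z6_ip J hbig, m6, m5, m3,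
    a2, b2, c2, hr, hq, hA, map_neg, map_zero, neg_zero, mul_zero, zero_mul, add_zero, neg_neg,
    sub_neg_eq_add] at E
  rw [tM2, d3M2, d2M1, dM0, f3, der_mul, map_neg, d1M2, m4, m2, m1, m0, f1, hf] at E
  linear_combination E

/-- `A ≠ 0`: `f = (k/2) u_[1,1] + const` -/
theorem Z6 {f g S k : F} (hg : J.IsC g) (hS : J.FX S) (hk : J.IsC k) (hk0 : k ≠ 0)
    (hS2 : 3 * J.pd 0 0 (J.pd 0 0 S) + k * J.pd 0 0 S = 0)
    (hform : f = g * (J.u 0 2 + J.u 1 1) + k / 2 * J.u 1 1 + k * g / 6 * J.u 0 1 ^ 2 + S)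
    (hθ : J.cosL f (-J.mth f) = 0) : g = 0 ∧ J.IsC S := by
  have := J.charZero
  obtain ⟨a, ha⟩ : ∃ a, a = k / 6 := ⟨_, rfl⟩
  have hka : k = 6 * a := by rw [ha]; ring
  have hac : J.IsC a := by rw [ha]; exact hk.div (Jet.isC_ofNat 6)
  have ha0 : a ≠ 0 := by
    rintro rfl
    exact hk0 (by rw [hka, mul_zero])
  have hS2' : J.pd 0 0 (J.pd 0 0 S) = -2 * a * J.pd 0 0 S := by
    rw [hka] at hS2
    linear_combination (1 / 3) * hS2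
  have hf : f = g * (J.u 0 2 + J.u 1 1) + 3 * a * J.u 1 1 + a * g * J.u 0 1 * J.u 0 1 + S := by
    rw [hform, hka]; ring
  have E := Z6_eq hg hS hac hS2' hf hθ
  have hSp : ∀ i j, mk2 i j ≠ mk2 0 0 → J.pd i j (J.pd 0 0 S) = 0 := fun i j h =>
    hS.P (mk2 0 0) _ h
  have u0 : ∀ i j k l, ¬ ((i = k ∧ j = l) ∨ (i = l ∧ j = k)) → J.pd i j (J.u k l) = 0 :=
    fun i j k l h => by rw [J.pd_u, if_neg h]
  have u1 : ∀ i j, J.pd i j (J.u i j) = 1 := fun i j => by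
    rw [J.pd_u, if_pos (Or.inl ⟨rfl, rfl⟩)]
  -- the derivative with respect to `u_[0,4]`
  have E4 := congrArg (J.pd 0 4) E
  simp only [map_add, map_sub, map_neg, map_zero, der_mul, dnum, hg.pd, hac.pd,
    hSp 0 4 (by decide), u0 0 4 0 1 (by decide), u0 0 4 0 2 (by decide), u0 0 4 1 1 (by decide),
    u0 0 4 0 3 (by decide), u0 0 4 1 2 (by decide), u0 0 4 1 3 (by decide),
    u0 0 4 2 2 (by decide), u1 0 4] at E4
  have E5 : a * g * g * J.u 0 1 = 0 := by linear_combination (-1 / 42) * E4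
  have E6 := congrArg (J.pd 0 1) E5
  simp only [map_zero, der_mul, hg.pd, hac.pd, u1 0 1] at E6
  have E7 : a * (g * g) = 0 := by linear_combination E6
  have hg0 : g = 0 := by
    rcases mul_eq_zero.1 E7 with h | h
    · exact absurd h ha0
    · exact mul_self_eq_zero.1 h
  refine ⟨hg0, ?_⟩
  -- the derivative with respect to `u_[0,3]`
  have E3 := congrArg (J.pd 0 3) E
  simp only [map_add, map_sub, map_neg, map_zero, der_mul, dnum, hg.pd, hac.pd,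
    hSp 0 3 (by decide), u0 0 3 0 1 (by decide), u0 0 3 0 2 (by decide), u0 0 3 1 1 (by decide),
    u0 0 3 0 4 (by decide), u0 0 3 1 2 (by decide), u0 0 3 1 3 (by decide),
    u0 0 3 2 2 (by decide), u1 0 3] at E3
  rw [hg0] at E3
  have E8 : a * J.pd 0 0 S = 0 := by linear_combination (1 / 36) * E3
  have hS0 : J.pd 0 0 S = 0 := (mul_eq_zero.1 E8).resolve_left ha0
  intro i
  by_cases hi : i = mk2 0 0
  · rw [hi]
    exact hS0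
  · exact hS i hi

end Pool.Agent.Lib.MP_4d1bc1_mp.Kv
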