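import Pool.Agent.Lib.MP_4d1bc1_mp.Kv.Rows.RowN6
import Pool.Agent.Lib.MP_4d1bc1_mp.Kv.Rows.RowRedD

set_option autoImplicit false
set_option linter.unusedSimpArgs false

/-! Row kv-N7: case `f_r ≠ 0`, the last unknown vanishes. -/

namespace Pool.Agent.Lib.MP_4d1bc1_mp.Kv

open Finset Polynomial

universe u

variable {F : Type u} [Field F] [Algebra ℝ F] {J : Jet F}

theorem N7_inv {a : F} (δ : Derivation ℝ F F) (ha : δ a = 0) :
    δ (rZ J a)⁻¹ = -((rZ J a)⁻¹) ^ 2 * (a * δ (J.u 1 1)) := by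
  rw [Derivation.leibniz_inv, rZ, map_add, Derivation.map_one_eq_zero, der_mul, ha]
  simp only [smul_eq_mul]
  ring

theorem N7_dw {a κ w : F} (R : Red J a κ w) (δ : Derivation ℝ F F) (ha : δ a = 0)
    (hκ : δ κ = 0) : δ w = -w ^ 2 * δ (J.u 0 0) + 2 * w * rM J a w * δ (J.u 0 1)
      - rM J a w ^ 2 * δ (J.u 1 1) := by
  rcases R.hw with h | h
  · simp [h, rM]
  · have h1 := congrArg δ h
    rw [Derivation.map_one_eq_zero, der_mul, map_sub, map_add, hκ, der_mul, der_mul, ha,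
      N7_inv δ ha, pow_two, der_mul] at h1
    rw [rM]
    linear_combination w * h1 - δ w * h

theorem N7_ite {a : F} (δ : Derivation ℝ F F) (ha : δ a = 0) (P : Prop) [Decidable P] :
    δ (if P then a⁻¹ else 0) = 0 := by
  split_ifs
  · exact der_inv_zero δ ha
  · exact map_zero _

theorem N7_dp {a κ w : F} (R : Red J a κ w) (δ : Derivation ℝ F F) (ha : δ a = 0)
    (hκ : δ κ = 0) (n : ℕ) : δ (rp J a w n)
      = w * δ (J.u 0 n) - rM J a w * δ (J.u 1 n)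
        - (w * (δ (J.u 0 0) * rp J a w n + δ (J.u 0 1) * ro J a w n)
          - rM J a w * (δ (J.u 0 1) * rp J a w n + δ (J.u 1 1) * ro J a w n)) := by
  simp only [rp, ro, rb, map_sub, map_add, der_mul, ha, N7_ite δ ha, N7_inv δ ha,
    N7_dw R δ ha hκ, rM]
  ring

theorem N7_do {a κ w : F} (R : Red J a κ w) (δ : Derivation ℝ F F) (ha : δ a = 0)
    (hκ : δ κ = 0) (n : ℕ) : δ (ro J a w n)
      = -rM J a w * δ (J.u 0 n) + rE J a w * δ (J.u 1 n)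
        - (-rM J a w * (δ (J.u 0 0) * rp J a w n + δ (J.u 0 1) * ro J a w n)
          + rE J a w * (δ (J.u 0 1) * rp J a w n + δ (J.u 1 1) * ro J a w n)) := by
  simp only [rp, ro, rb, map_sub, map_add, der_mul, ha, N7_ite δ ha, N7_inv δ ha,
    N7_dw R δ ha hκ, rM, rE]
  ring

theorem N7_dh {a κ w : F} (R : Red J a κ w) (δ : Derivation ℝ F F) (ha : δ a = 0)
    (hκ : δ κ = 0) (n m : ℕ) : δ (rh J a w n m)
      = δ (J.u n m) - rp J a w n * δ (J.u 0 m) - ro J a w n * δ (J.u 1 m)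
        - rp J a w m * δ (J.u 0 n) - ro J a w m * δ (J.u 1 n)
        + (rp J a w n * (δ (J.u 0 0) * rp J a w m + δ (J.u 0 1) * ro J a w m)
          + ro J a w n * (δ (J.u 0 1) * rp J a w m + δ (J.u 1 1) * ro J a w m)) := by
  simp only [rh, rp, ro, rb, map_sub, map_add, der_mul, ha, N7_ite δ ha, N7_inv δ ha,
    N7_dw R δ ha hκ, rM]
  ring

theorem N7_dM {a κ w : F} (R : Red J a κ w) (δ : Derivation ℝ F F) (ha : δ a = 0)
    (hκ : δ κ = 0) (h0 : δ (J.u 0 0) = 0) (h1 : δ (J.u 0 1) = 0) (h2 : δ (J.u 1 1) = 0) :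
    δ w = 0 ∧ δ (rM J a w) = 0 ∧ δ (rE J a w) = 0 := by
  have hw : δ w = 0 := by rw [N7_dw R δ ha hκ, h0, h1, h2]; ring
  refine ⟨hw, ?_, ?_⟩
  · rw [rM]
    simp only [der_mul, N7_inv δ ha, ha, h1, h2, hw]
    ring
  · rw [rE]
    simp only [der_mul, N7_inv δ ha, ha, h1, h2, hw, map_add, Derivation.map_one_eq_zero,
      pow_two]
    ring

/-! partial derivatives of `f` -/

theorem N7_six {f a κ w d c0 : F} (R : Red J a κ w) (hd : J.FXYZ d) (hc : J.IsC c0)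
    (hform : f = rf J a w + d + c0) : J.Six f := by
  intro b hb
  have hu : ∀ i j, i ≤ 2 → j ≤ 2 → J.T.P b (J.u i j) = 0 := by
    intro i j hi hj
    rw [Jet.u, J.P_U, if_neg]
    rintro rfl
    have : (mk2 i j).1.2 ≤ 2 := max_le hi hj
    omega
  have h1 := N7_dh R (J.T.P b) (R.ca b) (R.cκ b) 2 2
  rw [hu 2 2 le_rfl le_rfl, hu 0 2 (by norm_num) le_rfl, hu 1 2 (by norm_num) le_rfl,
    hu 0 0 (by norm_num) (by norm_num), hu 0 1 (by norm_num) (by norm_num),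
    hu 1 1 (by norm_num) (by norm_num)] at h1
  rw [hform, map_add, map_add, hd.six b hb, hc b, rf, der_mul, der_mul, h1, R.ca b]
  have h3 : J.T.P b (-(3 / 2) : F) = 0 := by
    rw [map_neg, der_div_zero (J.T.P b) (der_ofNat _ 3) (der_ofNat _ 2), neg_zero]
  rw [h3]
  ring

theorem N7_df {f a κ w d c0 : F} (R : Red J a κ w) (hc : J.IsC c0)
    (hform : f = rf J a w + d + c0) (i j : ℕ) : J.pd i j f
      = -(3 / 2) * a * J.pd i j (rh J a w 2 2) + J.pd i j d := by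
  have h3 : J.pd i j (-(3 / 2) : F) = 0 := by
    rw [map_neg, der_div_zero (J.pd i j) (der_ofNat _ 3) (der_ofNat _ 2), neg_zero]
  rw [hform, map_add, map_add, hc.pd, rf, der_mul, der_mul, R.ca.pd, h3]
  ring

theorem N7_pf {f a κ w d c0 : F} (R : Red J a κ w) (hd : J.FXYZ d) (hc : J.IsC c0)
    (hform : f = rf J a w + d + c0) :
    J.pd 0 0 f = -(3 / 2) * a * rp J a w 2 ^ 2 + J.pd 0 0 d
    ∧ J.pd 0 1 f = -3 * a * rp J a w 2 * ro J a w 2 + J.pd 0 1 d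
    ∧ J.pd 1 1 f = -(3 / 2) * a * ro J a w 2 ^ 2 + J.pd 1 1 d
    ∧ J.pd 0 2 f = 3 * a * rp J a w 2
    ∧ J.pd 1 2 f = 3 * a * ro J a w 2
    ∧ J.pd 2 2 f = -(3 / 2) * a := by
  have := J.charZero
  have h := N7_df R hc hform
  have h2 := fun i j => N7_dh R (J.pd i j) (R.ca.pd i j) (R.cκ.pd i j) 2 2
  have d1 : J.pd 0 2 d = 0 := hd _ (by decide) (by decide) (by decide)
  have d2 : J.pd 1 2 d = 0 := hd _ (by decide) (by decide) (by decide)
  have d3 : J.pd 2 2 d = 0 := hd _ (by decide) (by decide) (by decide)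
  refine ⟨?_, ?_, ?_, ?_, ?_, ?_⟩
  · rw [h, h2]
    simp only [Jet.pd_u]
    simp (decide := true) only [if_true, if_false]
    ring
  · rw [h, h2]
    simp only [Jet.pd_u]
    simp (decide := true) only [if_true, if_false]
    ring
  · rw [h, h2]
    simp only [Jet.pd_u]
    simp (decide := true) only [if_true, if_false]
    ring
  · rw [h, h2, d1]
    simp only [Jet.pd_u]
    simp (decide := true) only [if_true, if_false]
    ring
  · rw [h, h2, d2]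
    simp only [Jet.pd_u]
    simp (decide := true) only [if_true, if_false]
    ring
  · rw [h, h2, d3]
    simp only [Jet.pd_u]
    simp (decide := true) only [if_true, if_false]
    ring

/-- the products of `f_2` and powers -/
theorem N7_k {a κ w : F} (R : Red J a κ w) :
    J.u 1 2 = ro J a w 2 * a⁻¹ + rp J a w 2 * J.u 0 1 + ro J a w 2 * J.u 1 1
    ∧ J.u 2 2 = rh J a w 2 2 - rp J a w 2 * a⁻¹ + rp J a w 2 * J.u 0 2
        + ro J a w 2 * J.u 1 2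
    ∧ J.u 2 3 = rh J a w 2 3 + rp J a w 2 * J.u 0 3 + ro J a w 2 * J.u 1 3
    ∧ J.u 2 4 = rh J a w 2 4 + rp J a w 2 * J.u 0 4 + ro J a w 2 * J.u 1 4 := by
  have hZ := rZ_ne J R.ca R.a0
  have hi : (rZ J a)⁻¹ * rZ J a = 1 := inv_mul_cancel₀ hZ
  have ha : a * a⁻¹ = 1 := mul_inv_cancel₀ R.a0
  have e3 : ((3 : ℕ) = 2) = False := by norm_num
  have e4 : ((4 : ℕ) = 2) = False := by norm_num
  refine ⟨?_, ?_, ?_, ?_⟩
  · rw [ro]
    rw [rZ] at hi ⊢
    linear_combination (-(J.u 1 2 - J.u 0 1 * rp J a w 2)) * hi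
      - (1 + a * J.u 1 1)⁻¹ * (J.u 1 2 - J.u 0 1 * rp J a w 2) * ha
  · simp only [rh, ro, rp, rb, if_true]
    ring
  · simp only [rh, ro, rp, rb, if_true, e3, if_false]
    ring
  · simp only [rh, ro, rp, rb, if_true, e4, if_false]
    ring

/-! the potential `θ` enters only through two partial derivatives -/

theorem N7_bdD {g : F} {N : ℕ} (h : J.Bd g N) : J.Bd (J.D g) (N + 1) := by
  intro k hk
  obtain ⟨k, rfl⟩ : ∃ l, k = l + 1 := ⟨k - 1, by omega⟩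
  rw [J.grad_succ_D, h k (by omega), h (k + 1) (by omega), map_zero, zero_add]

theorem N7_Tf {f : F} (hf : J.Six f) : J.evo (Jet.K3 f) f
    = 2 * (J.u 0 3 + f * J.u 0 1) * J.pd 0 0 f
      + (J.u 1 3 + f * J.u 1 1 + J.u 0 4 + f * J.u 0 2 + J.D f * J.u 0 1) * J.pd 0 1 f
      + 2 * (J.u 1 4 + f * J.u 1 2 + J.D f * J.u 1 1) * J.pd 1 1 f
      + (J.u 2 3 + f * J.u 1 2 + J.u 0 5 + f * J.u 0 3 + 2 * J.D f * J.u 0 2
          + J.D (J.D f) * J.u 0 1) * J.pd 0 2 f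
      + (J.u 2 4 + f * J.u 2 2 + J.D f * J.u 1 2 + J.u 1 5 + f * J.u 1 3
          + 2 * J.D f * J.u 1 2 + J.D (J.D f) * J.u 1 1) * J.pd 1 2 f
      + 2 * (J.u 2 5 + f * J.u 2 3 + 2 * J.D f * J.u 2 2 + J.D (J.D f) * J.u 1 2)
          * J.pd 2 2 f := by
  have h := hf.vf (δ := J.evo (Jet.K3 f)) (J.isVF_fld _)
  rw [J.evo_u_00, J.evo_u_01, J.evo_u_11, J.evo_u_02, J.evo_u_12, J.evo_u_22] at h
  exact h

theorem N7_bdT {f : F} (hf : J.Six f) : J.Bd (J.evo (Jet.K3 f) f) 6 := by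
  intro k hk
  have hu : ∀ i j, i < 6 → j < 6 → J.grad k (J.u i j) = 0 := by
    intro i j hi hj
    rw [J.grad_u, if_neg (by omega), if_neg (by omega), add_zero]
  have h0 : J.grad k f = 0 := hf.bd k (by omega)
  have h1 : J.grad k (J.D f) = 0 := N7_bdD hf.bd k (by omega)
  have h2 : J.grad k (J.D (J.D f)) = 0 := N7_bdD (N7_bdD hf.bd) k (by omega)
  have hp : ∀ i j, J.grad k (J.pd i j f) = 0 := fun i j =>
    (Jet.Six.P hf (mk2 i j)).bd k (by omega)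
  have h5 : J.grad k (2 : F) = 0 := (Jet.isC_ofNat 2).grad k
  rw [N7_Tf hf]
  simp only [J.grad_add, J.grad_mul, h0, h1, h2, hp, h5, hu 0 3 (by norm_num) (by norm_num),
    hu 0 1 (by norm_num) (by norm_num), hu 1 3 (by norm_num) (by norm_num),
    hu 1 1 (by norm_num) (by norm_num), hu 0 4 (by norm_num) (by norm_num),
    hu 0 2 (by norm_num) (by norm_num), hu 1 4 (by norm_num) (by norm_num),
    hu 1 2 (by norm_num) (by norm_num), hu 2 3 (by norm_num) (by norm_num),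
    hu 0 5 (by norm_num) (by norm_num), hu 2 4 (by norm_num) (by norm_num),
    hu 2 2 (by norm_num) (by norm_num), hu 1 5 (by norm_num) (by norm_num),
    hu 2 5 (by norm_num) (by norm_num), mul_zero, add_zero]

theorem N7_bdθ {f θ : F} (hf : J.Six f) (hT : J.evo (Jet.K3 f) f = J.D θ) : J.Bd θ 5 := by
  obtain ⟨N, hN⟩ := J.exists_bd θ
  have hb := N7_bdT hf
  rw [hT] at hb
  have key : ∀ m k, 5 ≤ k → N - k ≤ m → J.grad k θ = 0 := by
    intro m
    induction m with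
    | zero => intro k _ hk; exact hN k (by omega)
    | succ m ih =>
      intro k h5 hk
      have h1 := J.grad_succ_D k θ
      rw [hb (k + 1) (by omega), ih (k + 1) (by omega) (by omega), map_zero, zero_add] at h1
      exact h1.symm
  exact fun k hk => key (N - k) k hk le_rfl

theorem N7_pdB {g : F} {N : ℕ} (h : J.Bd g N) {i j : ℕ} (hj : N ≤ j) : J.pd i j g = 0 :=
  J.P_eq_zero_of_bd h (hj.trans (le_max_right i j))

theorem N7_pθ {f θ : F} (hf : J.Six f) (hT : J.evo (Jet.K3 f) f = J.D θ) :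
    J.pd 0 3 θ = J.pd 0 1 f + J.pd 0 2 f * J.cK f - J.D (J.pd 0 2 f)
    ∧ J.pd 1 3 θ = 2 * J.pd 1 1 f + J.pd 1 2 f * J.cK f - J.D (J.pd 1 2 f)
        - J.pd 0 2 f := by
  have hb := N7_bdθ hf hT
  have b0 : ∀ i j, 3 ≤ j → J.pd i j f = 0 := fun i j hj => N7_pdB hf.bd hj
  have b1 : ∀ i j, 4 ≤ j → J.pd i j (J.D f) = 0 := fun i j hj => N7_pdB (N7_bdD hf.bd) hj
  have b2 : ∀ i j, 5 ≤ j → J.pd i j (J.D (J.D f)) = 0 := fun i j hj =>
    N7_pdB (N7_bdD (N7_bdD hf.bd)) hj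
  have bp : ∀ i j k l, 3 ≤ j → J.pd i j (J.pd k l f) = 0 := fun i j k l hj =>
    N7_pdB (Jet.Six.P hf (mk2 k l)).bd hj
  have t0 : J.pd 0 4 (J.D (J.D f)) = J.pd 0 2 f := by
    rw [J.pd_D_0_4, b1 0 4 le_rfl, J.pd_D_0_3, b0 0 3 le_rfl]
    simp only [map_zero, zero_add]
  have t1 : J.pd 1 4 (J.D (J.D f)) = J.pd 1 2 f := by
    rw [J.pd_D_1_4, b1 1 4 le_rfl, b1 0 4 le_rfl, J.pd_D_1_3, b0 1 3 le_rfl, b0 0 3 le_rfl]
    simp only [map_zero, zero_add]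
  have hs := N7_Tf hf
  rw [hT] at hs
  have s05 := congrArg (J.pd 0 5) hs
  have s15 := congrArg (J.pd 1 5) hs
  have s04 := congrArg (J.pd 0 4) hs
  have s14 := congrArg (J.pd 1 4) hs
  rw [J.pd_D_0_5, N7_pdB hb (show 5 ≤ 5 from le_rfl)] at s05
  rw [J.pd_D_1_5, N7_pdB (i := 1) hb (show 5 ≤ 5 from le_rfl),
    N7_pdB (i := 0) hb (show 5 ≤ 5 from le_rfl)] at s15
  rw [J.pd_D_0_4] at s04
  rw [J.pd_D_1_4] at s14
  simp only [map_add, der_mul, dnum, Jet.pd_u, b0 0 5 (by norm_num), b0 1 5 (by norm_num),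
    b0 0 4 (by norm_num), b0 1 4 (by norm_num), b1 0 5 (by norm_num), b1 1 5 (by norm_num),
    b1 0 4 le_rfl, b1 1 4 le_rfl, b2 0 5 le_rfl, b2 1 5 le_rfl, t0, t1,
    bp 0 5 _ _ (by norm_num), bp 1 5 _ _ (by norm_num), bp 0 4 _ _ (by norm_num),
    bp 1 4 _ _ (by norm_num)] at s05 s15 s04 s14
  simp (decide := true) only [if_true, if_false, map_zero, mul_zero, zero_mul, add_zero,
    zero_add, mul_one, one_mul] at s05 s15 s04 s14
  rw [s05] at s04 s14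
  rw [s15] at s14
  constructor
  · rw [Jet.cK]
    linear_combination s04
  · rw [Jet.cK]
    linear_combination s14

/-! the scalar products in `W2` -/

theorem N7_ipD (U : F[X]) (n : ℕ) : J.ip (J.DM U) (X ^ n)
    = J.D (J.ip U (X ^ n)) - J.ip U (X ^ (n + 1)) := by
  rw [J.D_ip, J.DM_X_pow]; ring

theorem N7_v1 (f : F) : J.ip (J.DM (J.v1 f)) (X ^ 2)
    = 2 * J.D (J.D (J.ip (J.grad 2 f) (X ^ 2))) - 4 * J.D (J.ip (J.grad 2 f) (X ^ 3))
      + 2 * J.ip (J.grad 2 f) (X ^ 4) - J.D (J.ip (J.grad 1 f) (X ^ 2))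
      + J.ip (J.grad 1 f) (X ^ 3) := by
  rw [N7_ipD, Jet.v1, two_mul]
  simp only [J.ip_sub_left, J.ip_add_left, N7_ipD, map_sub, map_add]
  ring

theorem N7_v0 (f : F) : J.ip (J.v0 f) (X ^ 2)
    = J.ip (J.grad 0 f) (X ^ 2) - J.D (J.ip (J.grad 1 f) (X ^ 2))
      + J.ip (J.grad 1 f) (X ^ 3) + J.D (J.D (J.ip (J.grad 2 f) (X ^ 2)))
      - 2 * J.D (J.ip (J.grad 2 f) (X ^ 3)) + J.ip (J.grad 2 f) (X ^ 4) := by
  rw [Jet.v0]
  simp only [J.ip_sub_left, J.ip_add_left, N7_ipD, map_sub, map_add]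
  ring

theorem N7_vK (f : F) : J.ip (J.grad 1 f) (Jet.K3 f) + J.ip (J.grad 2 f) (J.DM (Jet.K3 f))
      - J.ip (J.DM (J.grad 2 f)) (Jet.K3 f)
    = J.ip (J.grad 1 f) (X ^ 3) + f * J.ip (J.grad 1 f) X
      + 2 * (J.ip (J.grad 2 f) (X ^ 4) + f * J.ip (J.grad 2 f) (X ^ 2)
        + J.D f * J.ip (J.grad 2 f) X)
      - J.D (J.ip (J.grad 2 f) (X ^ 3) + f * J.ip (J.grad 2 f) X) := by
  have h1 := J.D_ip (J.grad 2 f) (Jet.K3 f)
  have h2 : J.DM (Jet.K3 f) = X ^ 4 + C f * X ^ 2 + C (J.D f) * X := Jet.iter_K3_1 f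
  have h3 : Jet.K3 f = X ^ 3 + C f * X := rfl
  have h4 : J.ip (J.DM (J.grad 2 f)) (Jet.K3 f)
      = J.D (J.ip (J.grad 2 f) (Jet.K3 f)) - J.ip (J.grad 2 f) (J.DM (Jet.K3 f)) := by
    linear_combination -h1
  rw [h4, h2, h3]
  simp only [J.ip_add_right, J.ip_C_mul_right]
  ring

theorem N7_H {f a κ w d c0 : F} (R : Red J a κ w) (hd : J.FXYZ d) (hc : J.IsC c0)
    (hform : f = rf J a w + d + c0) :
    J.ip (J.grad 2 f) X = -3 * ro J a w 2
    ∧ J.ip (J.grad 2 f) (X ^ 2) = -3 * a * rh J a w 2 2 + 3 * rp J a w 2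
    ∧ J.ip (J.grad 2 f) (X ^ 3) = -3 * a * rh J a w 2 3
    ∧ J.ip (J.grad 2 f) (X ^ 4) = -3 * a * rh J a w 2 4
    ∧ J.ip (J.grad 1 f) X = 3 * ro J a w 2 ^ 2 + J.pd 0 1 d * J.u 0 1
        + 2 * J.pd 1 1 d * J.u 1 1
    ∧ J.ip (J.grad 1 f) (X ^ 2) = 3 * a * ro J a w 2 * rh J a w 2 2
        - 3 * ro J a w 2 * rp J a w 2 + J.pd 0 1 d * J.u 0 2 + 2 * J.pd 1 1 d * J.u 1 2
    ∧ J.ip (J.grad 1 f) (X ^ 3) = 3 * a * ro J a w 2 * rh J a w 2 3
        + J.pd 0 1 d * J.u 0 3 + 2 * J.pd 1 1 d * J.u 1 3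
    ∧ J.ip (J.grad 0 f) (X ^ 2) = 2 * J.pd 0 0 f * J.u 0 2 + J.pd 0 1 f * J.u 1 2
        + J.pd 0 2 f * J.u 2 2 := by
  have := J.charZero
  have hf := N7_six R hd hc hform
  obtain ⟨f00, f01, f11, f02, f12, f22⟩ := N7_pf R hd hc hform
  obtain ⟨k1, k2, k3, k4⟩ := N7_k R
  have ha : a * a⁻¹ = 1 := mul_inv_cancel₀ R.a0
  refine ⟨?_, ?_, ?_, ?_, ?_, ?_, ?_, ?_⟩
  · rw [hf.grad2]
    simp only [J.unr, pow_zero]
    rw [f02, f12, f22]
    linear_combination (-3 * a) * k1 - 3 * ro J a w 2 * ha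
  · rw [hf.grad2]
    simp only [J.unr, pow_zero]
    rw [f02, f12, f22]
    linear_combination (-3 * a) * k2 + 3 * rp J a w 2 * ha
  · rw [hf.grad2]
    simp only [J.unr, pow_zero]
    rw [f02, f12, f22]
    linear_combination (-3 * a) * k3
  · rw [hf.grad2]
    simp only [J.unr, pow_zero]
    rw [f02, f12, f22]
    linear_combination (-3 * a) * k4
  · rw [hf.grad1]
    simp only [J.unr, pow_zero]
    rw [f01, f11, f12]
    linear_combination (3 * a * ro J a w 2) * k1 + 3 * ro J a w 2 ^ 2 * ha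
  · rw [hf.grad1]
    simp only [J.unr, pow_zero]
    rw [f01, f11, f12]
    linear_combination (3 * a * ro J a w 2) * k2 - 3 * ro J a w 2 * rp J a w 2 * ha
  · rw [hf.grad1]
    simp only [J.unr, pow_zero]
    rw [f01, f11, f12]
    linear_combination (3 * a * ro J a w 2) * k3
  · rw [hf.grad0]
    simp only [J.unr, pow_zero]

theorem N7_cK {f a κ w d c0 : F} (R : Red J a κ w) (hd : J.FXYZ d) (hc : J.IsC c0)
    (hform : f = rf J a w + d + c0) : J.cK f = -3 * ro J a w 2 := by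
  have hf := N7_six R hd hc hform
  rw [← hf.ip_v2, Jet.v2, (N7_H R hd hc hform).1]

theorem N7_cJ {f a κ w d c0 : F} (R : Red J a κ w) (hd : J.FXYZ d) (hc : J.IsC c0)
    (hform : f = rf J a w + d + c0) : J.cJ f
      = f - J.ip (J.grad 1 f) X + J.D (J.cK f) - 2 * J.ip (J.grad 2 f) (X ^ 2) := by
  have hf := N7_six R hd hc hform
  rw [Jet.cJ, hf.grad1, hf.grad2]
  simp only [J.unr, pow_zero]
  ring

/-! total derivatives, explicitly -/

theorem N7_D {a κ w : F} (R : Red J a κ w) :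
    J.D w = 2 * rM J a w * rp J a w 2
    ∧ J.D (rM J a w) = w - rM J a w * ro J a w 2 + rE J a w * rp J a w 2
    ∧ J.D (rE J a w) = 2 * rM J a w - 2 * rE J a w * ro J a w 2
    ∧ J.D (rp J a w 2) = rp J a w 3 - rM J a w * rh J a w 2 2 - rp J a w 2 * ro J a w 2
    ∧ J.D (ro J a w 2) = ro J a w 3 + rE J a w * rh J a w 2 2 - rp J a w 2
        - ro J a w 2 * ro J a w 2
    ∧ J.D (rh J a w 2 2) = 2 * rh J a w 2 3 - 2 * rh J a w 2 2 * ro J a w 2
    ∧ J.D (rp J a w 3) = rp J a w 4 - rM J a w * rh J a w 2 3 - rp J a w 2 * ro J a w 3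
    ∧ J.D (rh J a w 2 3) = rh J a w 3 3 + rh J a w 2 4 - rh J a w 2 2 * ro J a w 3
        - rh J a w 2 3 * ro J a w 2 := by
  have h2 : (2 : ℕ) ≤ 2 := le_rfl
  have h3 : (2 : ℕ) ≤ 3 := by norm_num
  have e := R.D_p h3
  have e1 := R.D_h h2 h2
  have e2 := R.D_h h2 h3
  refine ⟨R.D_w, R.D_M, R.D_E, R.D_p h2, R.D_o h2, ?_, ?_, ?_⟩
  · rw [e1, rh_symm (2 + 1) 2]
    ring
  · rw [e, rh_symm 3 2]
  · rw [e2, rh_symm 3 2]

theorem N7_dneg (δ : Derivation ℝ F F) (n : ℕ) [n.AtLeastTwo] : δ (-(ofNat(n)) : F) = 0 := by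
  rw [map_neg, der_ofNat, neg_zero]

/-- the total derivatives of `f` -/
theorem N7_Df {f a κ w d c0 : F} (R : Red J a κ w) (hc : J.IsC c0)
    (hform : f = rf J a w + d + c0) :
    J.D f = -3 * a * (rh J a w 2 3 - rh J a w 2 2 * ro J a w 2) + J.D d := by
  have := J.charZero
  obtain ⟨-, -, -, -, -, Dh, -, -⟩ := N7_D R
  have h3 : J.D (-(3 / 2) : F) = 0 := by
    rw [map_neg, der_div_zero J.D (der_ofNat _ 3) (der_ofNat _ 2), neg_zero]
  rw [hform, map_add, map_add, hc.D, rf, der_mul, der_mul, R.ca.D, h3, Dh]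
  ring

/-- the derivative of `W2` with respect to `u_[0,3]`, `u_[1,3]` -/
theorem N7_dW {f θ a κ w d c0 : F} (R : Red J a κ w) (hd : J.FXYZ d) (hc : J.IsC c0)
    (hform : f = rf J a w + d + c0) (δ : Derivation ℝ F F) (s0 s1 : F)
    (hC : ∀ c, J.IsC c → δ c = 0) (hS : ∀ g, J.Six g → δ g = 0)
    (hSD : ∀ g, J.FXYZ g → δ (J.D g) = 0)
    (hDD : δ (J.D (J.D d)) = s0 * J.pd 0 1 d + 2 * s1 * J.pd 1 1 d)
    (u00 : δ (J.u 0 0) = 0) (u01 : δ (J.u 0 1) = 0) (u11 : δ (J.u 1 1) = 0)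
    (u02 : δ (J.u 0 2) = 0) (u12 : δ (J.u 1 2) = 0) (u22 : δ (J.u 2 2) = 0)
    (u03 : δ (J.u 0 3) = s0) (u13 : δ (J.u 1 3) = s1) (u23 : δ (J.u 2 3) = 0)
    (u33 : δ (J.u 3 3) = 0) (u04 : δ (J.u 0 4) = 0) (u14 : δ (J.u 1 4) = 0)
    (u24 : δ (J.u 2 4) = 0)
    (hθ : δ θ = s0 * (-9 * a * rp J a w 2 * ro J a w 2 - 3 * a * rp J a w 3
          + 3 * a * rM J a w * rh J a w 2 2 + J.pd 0 1 d)
        + s1 * (-9 * a * ro J a w 2 ^ 2 - 3 * a * ro J a w 3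
          - 3 * a * rE J a w * rh J a w 2 2 + 2 * J.pd 1 1 d)) :
    δ (W2 J a (-(4 * a * c0)) f θ)
      = s0 * (12 * a * J.pd 0 1 d + 36 * a * rM J a w * d)
        + s1 * (24 * a * J.pd 1 1 d - 36 * a * rE J a w * d) := by
  have := J.charZero
  have ha := hC a R.ca
  have hκ := hC κ R.cκ
  have δc := hC c0 hc
  have hf := N7_six R hd hc hform
  obtain ⟨δw, δM, δE⟩ := N7_dM R δ ha hκ u00 u01 u11
  have δp := N7_dp R δ ha hκ 2
  have δo := N7_do R δ ha hκ 2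
  have δh := N7_dh R δ ha hκ 2 2
  have δp3 := N7_dp R δ ha hκ 3
  have δo3 := N7_do R δ ha hκ 3
  have δp4 := N7_dp R δ ha hκ 4
  have δh23 := N7_dh R δ ha hκ 2 3
  have δh33 := N7_dh R δ ha hκ 3 3
  have δh24 := N7_dh R δ ha hκ 2 4
  simp only [u00, u01, u11, u02, u12, u22, u03, u13, u23, u33, u04, u14, u24, mul_zero,
    zero_mul, sub_zero, add_zero, zero_add, neg_zero, zero_sub] at δp δo δh δp3 δo3 δp4 δh23 δh33 δh24
  obtain ⟨f00, f01, f11, f02, f12, f22⟩ := N7_pf R hd hc hform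
  obtain ⟨H21, H22, H23, H24, H11, H12, H13, H02⟩ := N7_H R hd hc hform
  obtain ⟨Dw, DM, DE, Dp, Do, Dh, Dp3, Dh23⟩ := N7_D R
  have Df := N7_Df R hc hform
  have δf : δ f = 0 := hS f hf
  have e00 : δ (J.pd 0 0 f) = 0 := hS _ (hf.P _)
  have e01 : δ (J.pd 0 1 f) = 0 := hS _ (hf.P _)
  have dd : δ d = 0 := hS d hd.six
  have dd1 : δ (J.D d) = 0 := hSD d hd
  have d01 : δ (J.pd 0 1 d) = 0 := hS _ (hd.P _).six
  have d11 : δ (J.pd 1 1 d) = 0 := hS _ (hd.P _).six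
  have D01 : δ (J.D (J.pd 0 1 d)) = 0 := hSD _ (hd.P _)
  have D11 : δ (J.D (J.pd 1 1 d)) = 0 := hSD _ (hd.P _)
  have Ca := R.ca.D
  have DDf : J.D (J.D f) = J.D (-3 * a * (rh J a w 2 3 - rh J a w 2 2 * ro J a w 2) + J.D d) := by
    rw [Df]
  have hcB : J.cB f = 2 * J.pd 0 0 f - J.D (-3 * a * rp J a w 2 * ro J a w 2 + J.pd 0 1 d)
      + J.D (J.D (3 * a * rp J a w 2)) := by
    rw [Jet.cB, ← f01, ← f02]
  have hcG : J.D (J.cG f) = J.D (2 * J.D (3 * a * rp J a w 2)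
      - (-3 * a * rp J a w 2 * ro J a w 2 + J.pd 0 1 d)) := by
    rw [Jet.cG, ← f01, ← f02]
  rw [W2, N7_v1, N7_v0, N7_vK, N7_cJ R hd hc hform, N7_cK R hd hc hform, hcB, hcG, H21, H22,
    H23, H24, H11, H12, H13, H02, DDf, f02]
  simp only [map_add, map_sub, map_neg, der_mul, dnum, Df, Dw, DM, DE, Dp, Do, Dh, Dp3, Dh23, Ca,
    J.D_u, J.u_3_0, J.u_2_1, J.u_3_1, neg_zero, zero_mul, zero_add, map_zero, pow_two]
  simp only [map_add, map_sub, map_neg, der_mul, dnum, δw, δM, δE, δp, δo, δh, δp3, δo3, δp4,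
    δh23, δh33, δh24, δf, e00, e01, dd, dd1, d01, d11, D01, D11, ha, δc, u00, u01, u11, u02,
    u12, u22, u03, u13, u23, u33, u04, u14, u24, hθ, hDD, neg_zero, zero_mul, zero_add,
    mul_zero, add_zero, sub_zero, zero_sub, map_zero]
  rw [hform, rf]
  ring

theorem N7 {f θ a κ w d c0 : F} (R : Red J a κ w) (hd : J.FXYZ d) (hc : J.IsC c0)
    (hform : f = rf J a w + d + c0)
    (hdd : 2 * rZ J a * J.pd 1 1 d + a * J.u 0 1 * J.pd 0 1 d = 4 * a * d)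
    (hT : J.evo (Jet.K3 f) f = J.D θ)
    (hW : J.IsC (W2 J a (-(4 * a * c0)) f θ)) : d = 0 := by
  have := J.charZero
  have hf := N7_six R hd hc hform
  obtain ⟨f00, f01, f11, f02, f12, f22⟩ := N7_pf R hd hc hform
  obtain ⟨Dw, DM, DE, Dp, Do, Dh, Dp3, Dh23⟩ := N7_D R
  obtain ⟨θ3, θ13⟩ := N7_pθ hf hT
  have hcK := N7_cK R hd hc hform
  have Ca := R.ca.D
  have g3 : ∀ g, J.FXYZ g → J.pd 0 2 g = 0 ∧ J.pd 1 2 g = 0 ∧ J.pd 0 3 g = 0
      ∧ J.pd 1 3 g = 0 := fun g hg =>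
    ⟨hg _ (by decide) (by decide) (by decide), hg _ (by decide) (by decide) (by decide),
      hg _ (by decide) (by decide) (by decide), hg _ (by decide) (by decide) (by decide)⟩
  obtain ⟨d02, d12, d03, d13⟩ := g3 d hd
  have e0 := N7_dW (θ := θ) R hd hc hform (J.pd 0 3) 1 0 (fun c h => h.pd 0 3)
    (fun g h => h.pd_eq_zero (by norm_num))
    (fun g h => by
      obtain ⟨h1, h2, h3, h4⟩ := g3 g h
      rw [J.pd_D_0_3, h3, h1, map_zero, add_zero])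
    (by rw [J.pd_D_0_3, J.pd_D_0_3, J.pd_D_0_2, d03, d02]
        simp only [map_zero, zero_add, add_zero]
        ring)
    (by rw [Jet.pd_u, if_neg (by decide)]) (by rw [Jet.pd_u, if_neg (by decide)])
    (by rw [Jet.pd_u, if_neg (by decide)]) (by rw [Jet.pd_u, if_neg (by decide)])
    (by rw [Jet.pd_u, if_neg (by decide)]) (by rw [Jet.pd_u, if_neg (by decide)])
    (by rw [Jet.pd_u, if_pos (by decide)]) (by rw [Jet.pd_u, if_neg (by decide)])
    (by rw [Jet.pd_u, if_neg (by decide)]) (by rw [Jet.pd_u, if_neg (by decide)])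
    (by rw [Jet.pd_u, if_neg (by decide)]) (by rw [Jet.pd_u, if_neg (by decide)])
    (by rw [Jet.pd_u, if_neg (by decide)])
    (by rw [θ3, hcK, f01, f02, der_mul, der_mul, dnum, Ca, Dp]
        ring)
  have e1 := N7_dW (θ := θ) R hd hc hform (J.pd 1 3) 0 1 (fun c h => h.pd 1 3)
    (fun g h => h.pd_eq_zero (by norm_num))
    (fun g h => by
      obtain ⟨h1, h2, h3, h4⟩ := g3 g h
      rw [J.pd_D_1_3, h4, h3, h2, map_zero, add_zero, add_zero])
    (by rw [J.pd_D_1_3, J.pd_D_1_3, J.pd_D_0_3, J.pd_D_1_2, d13, d03, d12, d02]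
        simp only [map_zero, zero_add, add_zero]
        ring)
    (by rw [Jet.pd_u, if_neg (by decide)]) (by rw [Jet.pd_u, if_neg (by decide)])
    (by rw [Jet.pd_u, if_neg (by decide)]) (by rw [Jet.pd_u, if_neg (by decide)])
    (by rw [Jet.pd_u, if_neg (by decide)]) (by rw [Jet.pd_u, if_neg (by decide)])
    (by rw [Jet.pd_u, if_neg (by decide)]) (by rw [Jet.pd_u, if_pos (by decide)])
    (by rw [Jet.pd_u, if_neg (by decide)]) (by rw [Jet.pd_u, if_neg (by decide)])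
    (by rw [Jet.pd_u, if_neg (by decide)]) (by rw [Jet.pd_u, if_neg (by decide)])
    (by rw [Jet.pd_u, if_neg (by decide)])
    (by rw [θ13, hcK, f11, f12, f02, der_mul, der_mul, dnum, Ca, Do]
        ring)
  rw [hW.pd 0 3] at e0
  rw [hW.pd 1 3] at e1
  have hZ := rZ_ne J R.ca R.a0
  have hi : (rZ J a)⁻¹ * rZ J a = 1 := inv_mul_cancel₀ hZ
  have k0 : 12 * a * (J.pd 0 1 d + 3 * rM J a w * d) = 0 := by linear_combination -e0
  have k1 : 12 * a * (2 * J.pd 1 1 d - 3 * rE J a w * d) = 0 := by linear_combination -e1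
  have a12 : (12 : F) * a ≠ 0 := mul_ne_zero (by norm_num) R.a0
  have m0 := (mul_eq_zero.1 k0).resolve_left a12
  have m1 := (mul_eq_zero.1 k1).resolve_left a12
  have hE : rE J a w * rZ J a = a + a * J.u 0 1 * rM J a w := by
    rw [rE, rM]
    linear_combination (a * (1 + a * J.u 0 1 ^ 2 * (rZ J a)⁻¹ * w)) * hi
  have hfin : a * d = 0 := by
    linear_combination -hdd + rZ J a * m1 + a * J.u 0 1 * m0 + 3 * d * hE
  exact (mul_eq_zero.1 hfin).resolve_left R.a0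

end Pool.Agent.Lib.MP_4d1bc1_mp.Kv
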