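import Pool.Agent.Lib.MP_4d1bc1_mp.Kv.Rows.RowRedD

set_option autoImplicit false
set_option linter.unusedSimpArgs false

/-! Row kv-redT: derivatives of the reduced variables along a flow `u_τ = V` without a
`u_0` component; `V_i = DM^[i] V`. -/

namespace Pool.Agent.Lib.MP_4d1bc1_mp.Kv

open Finset Polynomial

universe u

variable {F : Type u} [Field F] [Algebra ℝ F] {J : Jet F} {a κ w : F}

/-! scalar products of powers with the vectors `u_j^⊥`, `u^0`, `u^1` -/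

private theorem redT_rv (J : Jet F) (a w : F) (W : F[X]) (j : ℕ) :
    J.ip W (rv J a w j)
      = J.ip W (X ^ j) - ro J a w j * J.ip W (X ^ 1) - rp J a w j * J.ip W (X ^ 0) := by
  have h : rv J a w j = X ^ j - C (ro J a w j) * X ^ 1 - C (rp J a w j) * X ^ 0 := by
    rw [rv, pow_one, pow_zero, mul_one]
  rw [h, J.ip_sub_right, J.ip_sub_right, J.ip_C_mul_right, J.ip_C_mul_right]

private theorem redT_r0 (J : Jet F) (a w : F) (W : F[X]) :
    J.ip W (r0 J a w) = w * J.ip W (X ^ 0) - rM J a w * J.ip W (X ^ 1) := by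
  have h : r0 J a w = C w * X ^ 0 - C (rM J a w) * X ^ 1 := by
    rw [r0, pow_one, pow_zero, mul_one]
  rw [h, J.ip_sub_right, J.ip_C_mul_right, J.ip_C_mul_right]

private theorem redT_r1 (J : Jet F) (a w : F) (W : F[X]) :
    J.ip W (r1 J a w) = -rM J a w * J.ip W (X ^ 0) + rE J a w * J.ip W (X ^ 1) := by
  have h : r1 J a w = C (-rM J a w) * X ^ 0 + C (rE J a w) * X ^ 1 := by
    rw [r1, pow_one, pow_zero, mul_one, C_neg]
  rw [h, J.ip_add_right, J.ip_C_mul_right, J.ip_C_mul_right]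

private theorem redT_iZ (R : Red J a κ w) : (rZ J a)⁻¹ * (1 + a * J.u 1 1) = 1 :=
  inv_mul_cancel₀ (rZ_ne J R.ca R.a0)

private theorem redT_X (J : Jet F) (W : F[X]) : J.ip X W = J.ip (X ^ 1) W := by
  rw [pow_one]

theorem Red.ip_rv (R : Red J a κ w) {n j : ℕ} (hn : 2 ≤ n) (hj : 2 ≤ j) :
    J.ip (X ^ n) (rv J a w j) = rh J a w n j - (if n = 2 then rp J a w j * a⁻¹ else 0) := by
  rw [redT_rv, J.ip_X_pow, J.ip_X_pow, J.ip_X_pow, J.u_symm n 1, J.u_symm n 0]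
  by_cases h2 : n = 2
  · simp only [rh, ro, rp, rb, if_pos h2]
    ring
  · simp only [rh, ro, rp, rb, if_neg h2]
    ring

theorem Red.ip_rv_one (R : Red J a κ w) {j : ℕ} (hj : 2 ≤ j) :
    J.ip X (rv J a w j) = ro J a w j * a⁻¹ := by
  have hi := redT_iZ R
  have ha : a * a⁻¹ = 1 := mul_inv_cancel₀ R.a0
  rw [redT_X, redT_rv, J.ip_X_pow, J.ip_X_pow, J.ip_X_pow, J.u_symm 1 0]
  have h1 : ro J a w j * (1 + a * J.u 1 1) = a * (J.u 1 j - J.u 0 1 * rp J a w j) := by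
    rw [ro]
    linear_combination (a * (J.u 1 j - J.u 0 1 * rp J a w j)) * hi
  linear_combination (-a⁻¹) * h1 + (ro J a w j * J.u 1 1 - (J.u 1 j - J.u 0 1 * rp J a w j)) * ha

theorem Red.ip_r0 (R : Red J a κ w) {n : ℕ} (hn : 2 ≤ n) :
    J.ip (X ^ n) (r0 J a w) = rp J a w n + (if n = 2 then w * a⁻¹ else 0) := by
  rw [redT_r0, J.ip_X_pow, J.ip_X_pow, J.u_symm n 1, J.u_symm n 0]
  by_cases h2 : n = 2
  · simp only [rM, rp, rb, if_pos h2]
    ring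
  · simp only [rM, rp, rb, if_neg h2]
    ring

theorem Red.ip_r0_one (R : Red J a κ w) : J.ip X (r0 J a w) = rM J a w * a⁻¹ := by
  have hi := redT_iZ R
  have ha : a * a⁻¹ = 1 := mul_inv_cancel₀ R.a0
  rw [redT_X, redT_r0, J.ip_X_pow, J.ip_X_pow, J.u_symm 1 0, rM]
  linear_combination (-(w * J.u 0 1)) * hi - (J.u 0 1 * (rZ J a)⁻¹ * w) * ha

theorem Red.ip_r1 (R : Red J a κ w) {n : ℕ} (hn : 2 ≤ n) :
    J.ip (X ^ n) (r1 J a w) = ro J a w n - (if n = 2 then rM J a w * a⁻¹ else 0) := by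
  rw [redT_r1, J.ip_X_pow, J.ip_X_pow, J.u_symm n 1, J.u_symm n 0]
  by_cases h2 : n = 2
  · simp only [rM, rE, ro, rp, rb, if_pos h2]
    ring
  · simp only [rM, rE, ro, rp, rb, if_neg h2]
    ring

theorem Red.ip_r1_one (R : Red J a κ w) : J.ip X (r1 J a w) = 1 - rE J a w * a⁻¹ := by
  have hi := redT_iZ R
  have ha : a * a⁻¹ = 1 := mul_inv_cancel₀ R.a0
  rw [redT_X, redT_r1, J.ip_X_pow, J.ip_X_pow, J.u_symm 1 0, rM, rE]
  linear_combination (1 + a * J.u 0 1 ^ 2 * (rZ J a)⁻¹ * w) * hi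
    + ((rZ J a)⁻¹ * (1 + a * J.u 0 1 ^ 2 * (rZ J a)⁻¹ * w)) * ha

/-! the flow -/

private theorem redT_u (J : Jet F) (V : F[X]) (i j : ℕ) : J.evo V (J.u i j)
    = J.ip (J.DM^[i] V) (X ^ j) + J.ip (J.DM^[j] V) (X ^ i) := by
  rw [J.evo_u, J.ip_symm (X ^ i)]

private theorem redT_u0 (J : Jet F) (V : F[X]) (j : ℕ) : J.evo V (J.u 0 j)
    = J.ip V (X ^ j) + J.ip (J.DM^[j] V) (X ^ 0) := redT_u J V 0 j

private theorem redT_u1 (J : Jet F) (V : F[X]) (j : ℕ) : J.evo V (J.u 1 j)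
    = J.ip (J.DM V) (X ^ j) + J.ip (J.DM^[j] V) (X ^ 1) := redT_u J V 1 j

private theorem redT_u01 (J : Jet F) (V : F[X]) : J.evo V (J.u 0 1)
    = J.ip V (X ^ 1) + J.ip (J.DM V) (X ^ 0) := redT_u J V 0 1

private theorem redT_i (R : Red J a κ w) (V : F[X]) : J.evo V (rZ J a)⁻¹
    = -2 * a * ((rZ J a)⁻¹) ^ 2 * J.ip (J.DM V) (X ^ 1) := by
  have h1 : J.evo V (rZ J a) = a * (J.ip (J.DM V) (X ^ 1) + J.ip (J.DM V) (X ^ 1)) := by
    rw [rZ, map_add, Derivation.map_one_eq_zero, R.ca.evo_mul, zero_add]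
    congr 1
    exact redT_u J V 1 1
  rw [Derivation.leibniz_inv, h1, smul_eq_mul]
  ring

private theorem redT_w (R : Red J a κ w) (V : F[X]) : J.evo V w
    = -2 * w ^ 2 * (J.ip V (X ^ 0)
        - a * J.u 0 1 * (rZ J a)⁻¹ * (J.ip V (X ^ 1) + J.ip (J.DM V) (X ^ 0))
        + a ^ 2 * J.u 0 1 ^ 2 * ((rZ J a)⁻¹) ^ 2 * J.ip (J.DM V) (X ^ 1)) := by
  rcases R.hw with h | h
  · rw [h, map_zero]; ring
  · have h00 : J.evo V (J.u 0 0) = J.ip V (X ^ 0) + J.ip V (X ^ 0) := redT_u J V 0 0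
    have h1 := congrArg (J.evo V) h
    have e1 : J.evo V (J.u 0 1 ^ 2) = 2 * J.u 0 1 * (J.ip V (X ^ 1) + J.ip (J.DM V) (X ^ 0)) := by
      rw [pow_two, der_mul, redT_u01]; ring
    have e2 : J.evo V (a * J.u 0 1 ^ 2 * (rZ J a)⁻¹)
        = a * (2 * J.u 0 1 * (J.ip V (X ^ 1) + J.ip (J.DM V) (X ^ 0))) * (rZ J a)⁻¹
          + a * J.u 0 1 ^ 2 * (-2 * a * ((rZ J a)⁻¹) ^ 2 * J.ip (J.DM V) (X ^ 1)) := by
      rw [der_mul, R.ca.evo_mul, redT_i R, e1]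
    rw [der_mul, map_sub, map_add, h00, R.cκ.evo, e2, Derivation.map_one_eq_zero] at h1
    linear_combination w * h1 - (J.evo V w) * h

theorem Red.evo_w (R : Red J a κ w) (V : F[X]) : J.evo V w
    = -2 * (w * J.ip V (r0 J a w) - rM J a w * J.ip (J.DM V) (r0 J a w)) := by
  rw [redT_w R, redT_r0, redT_r0, rM]
  ring

private theorem redT_M (R : Red J a κ w) (V : F[X]) : J.evo V (rM J a w)
    = a * (J.ip V (X ^ 1) + J.ip (J.DM V) (X ^ 0)) * (rZ J a)⁻¹ * w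
      + a * J.u 0 1 * (-2 * a * ((rZ J a)⁻¹) ^ 2 * J.ip (J.DM V) (X ^ 1)) * w
      + a * J.u 0 1 * (rZ J a)⁻¹ * J.evo V w := by
  rw [rM, der_mul, der_mul, R.ca.evo_mul, redT_u01, redT_i R]
  ring

theorem Red.evo_M (R : Red J a κ w) (V : F[X]) : J.evo V (rM J a w)
    = w * J.ip V (r1 J a w) - rM J a w * J.ip (J.DM V) (r1 J a w)
      - rM J a w * J.ip V (r0 J a w) + rE J a w * J.ip (J.DM V) (r0 J a w) := by
  rw [redT_M R, redT_w R, redT_r0, redT_r0, redT_r1, redT_r1, rM, rE]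
  ring

theorem Red.evo_E (R : Red J a κ w) (V : F[X]) : J.evo V (rE J a w)
    = -2 * (-rM J a w * J.ip V (r1 J a w) + rE J a w * J.ip (J.DM V) (r1 J a w)) := by
  have h1 : rE J a w = a * (rZ J a)⁻¹ + a * (rZ J a)⁻¹ * J.u 0 1 * rM J a w := by
    rw [rE, rM]; ring
  have h2 : J.evo V (rE J a w) = a * (-2 * a * ((rZ J a)⁻¹) ^ 2 * J.ip (J.DM V) (X ^ 1))
      + a * (-2 * a * ((rZ J a)⁻¹) ^ 2 * J.ip (J.DM V) (X ^ 1)) * J.u 0 1 * rM J a w
      + a * (rZ J a)⁻¹ * (J.ip V (X ^ 1) + J.ip (J.DM V) (X ^ 0)) * rM J a w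
      + a * (rZ J a)⁻¹ * J.u 0 1 * J.evo V (rM J a w) := by
    rw [h1, map_add]
    simp only [der_mul, R.ca.evo, redT_i R, redT_u01]
    ring
  rw [h2, redT_M R, redT_w R, redT_r1, redT_r1, rM, rE]
  ring

private theorem redT_b (R : Red J a κ w) (V : F[X]) (i : ℕ) : J.evo V (rb J a i)
    = J.ip V (X ^ i) + J.ip (J.DM^[i] V) (X ^ 0)
      - (a * (J.ip V (X ^ 1) + J.ip (J.DM V) (X ^ 0)) * J.u 1 i * (rZ J a)⁻¹
        + a * J.u 0 1 * (J.ip (J.DM V) (X ^ i) + J.ip (J.DM^[i] V) (X ^ 1)) * (rZ J a)⁻¹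
        + a * J.u 0 1 * J.u 1 i * (-2 * a * ((rZ J a)⁻¹) ^ 2 * J.ip (J.DM V) (X ^ 1))) := by
  have hd : J.evo V (if i = 2 then a⁻¹ else 0) = 0 := by
    split_ifs
    · exact R.ca.inv.evo V
    · exact map_zero _
  rw [rb, map_sub, map_sub, hd, redT_u0, der_mul, der_mul, R.ca.evo_mul, redT_u01, redT_u1,
    redT_i R]
  ring

private theorem redT_p (R : Red J a κ w) (V : F[X]) (i : ℕ) : J.evo V (rp J a w i)
    = J.evo V w * rb J a i + w * J.evo V (rb J a i) := by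
  rw [rp, der_mul]

theorem Red.evo_p (R : Red J a κ w) (V : F[X]) {i : ℕ} (hi : 2 ≤ i) :
    J.evo V (rp J a w i)
    = w * J.ip V (rv J a w i) - rM J a w * J.ip (J.DM V) (rv J a w i)
      + J.ip (J.DM^[i] V) (r0 J a w) - rp J a w i * J.ip V (r0 J a w)
      - ro J a w i * J.ip (J.DM V) (r0 J a w) := by
  rw [redT_p R, redT_w R, redT_b R, redT_rv, redT_rv, redT_r0, redT_r0, redT_r0, ro, rM, rp]
  ring

theorem Red.evo_o (R : Red J a κ w) (V : F[X]) {i : ℕ} (hi : 2 ≤ i) :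
    J.evo V (ro J a w i)
    = -rM J a w * J.ip V (rv J a w i) + rE J a w * J.ip (J.DM V) (rv J a w i)
      + J.ip (J.DM^[i] V) (r1 J a w) - rp J a w i * J.ip V (r1 J a w)
      - ro J a w i * J.ip (J.DM V) (r1 J a w) := by
  have h2 : J.evo V (ro J a w i)
      = a * (-2 * a * ((rZ J a)⁻¹) ^ 2 * J.ip (J.DM V) (X ^ 1))
          * (J.u 1 i - J.u 0 1 * rp J a w i)
        + a * (rZ J a)⁻¹ * (J.ip (J.DM V) (X ^ i) + J.ip (J.DM^[i] V) (X ^ 1)
          - (J.ip V (X ^ 1) + J.ip (J.DM V) (X ^ 0)) * rp J a w i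
          - J.u 0 1 * J.evo V (rp J a w i)) := by
    rw [ro, der_mul, R.ca.evo_mul, redT_i R, map_sub, redT_u1, der_mul, redT_u01]
    ring
  rw [h2, redT_p R, redT_w R, redT_b R, redT_rv, redT_rv, redT_r1, redT_r1, redT_r1, ro, rM, rE,
    rp]
  ring

theorem Red.evo_h (R : Red J a κ w) (V : F[X]) {i j : ℕ} (hi : 2 ≤ i) (hj : 2 ≤ j) :
    J.evo V (rh J a w i j)
    = J.ip (J.DM^[i] V) (rv J a w j) + J.ip (J.DM^[j] V) (rv J a w i)
      - ro J a w j * J.ip (J.DM V) (rv J a w i) - rp J a w j * J.ip V (rv J a w i)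
      - ro J a w i * J.ip (J.DM V) (rv J a w j) - rp J a w i * J.ip V (rv J a w j) := by
  have h2 : J.evo V (rh J a w i j)
      = J.ip (J.DM^[i] V) (X ^ j) + J.ip (J.DM^[j] V) (X ^ i)
        - (a * (-2 * a * ((rZ J a)⁻¹) ^ 2 * J.ip (J.DM V) (X ^ 1)) * J.u 1 i * J.u 1 j
          + a * (rZ J a)⁻¹ * (J.ip (J.DM V) (X ^ i) + J.ip (J.DM^[i] V) (X ^ 1)) * J.u 1 j
          + a * (rZ J a)⁻¹ * J.u 1 i * (J.ip (J.DM V) (X ^ j) + J.ip (J.DM^[j] V) (X ^ 1)))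
        - (J.evo V w * rb J a i * rb J a j + w * J.evo V (rb J a i) * rb J a j
          + w * rb J a i * J.evo V (rb J a j)) := by
    rw [rh, map_sub, map_sub, redT_u, der_mul, der_mul, R.ca.evo_mul, redT_i R, redT_u1, redT_u1,
      der_mul, der_mul]
    ring
  rw [h2, redT_w R, redT_b R, redT_b R, redT_rv, redT_rv, redT_rv, redT_rv, redT_rv, redT_rv, ro,
    ro, rp, rp]
  ring

end Pool.Agent.Lib.MP_4d1bc1_mp.Kv
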