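import Pool.Agent.Lib.MP_4d1bc1_mp.Kv.Rows.RowZ4

set_option autoImplicit false
set_option linter.unusedSimpArgs false

/-! Row kv-Z5: case `f_r = 0`, `A = 0`. -/

namespace Pool.Agent.Lib.MP_4d1bc1_mp.Kv

open Finset Polynomial Jet

universe u

variable {F : Type u} [Field F] [Algebra ℝ F] {J : Jet F}

theorem RowZ5_pd {g : F} (hg : J.FX g) {i j : ℕ} (h : i ≠ 0 ∨ j ≠ 0) : J.pd i j g = 0 := by
  apply hg
  rw [Ne, mk2_eq_iff]
  omega

theorem RowZ5_u (a : Idx2) (i j : ℕ) (h : a ≠ mk2 i j) : J.T.P a (J.u i j) = 0 := by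
  rw [Jet.u, J.P_U, if_neg h]

/-- the conclusion from the equation with `y' = u_[0,2] + u_[1,1]` -/
theorem RowZ5_alg {g c c1 : F} (hg : J.FX g) (hc : J.IsC c) (hc1 : J.IsC c1)
    (hW : J.IsC ((J.u 0 2 + J.u 1 1) * (6 * c * J.u 0 1 * J.pd 0 0 g - 2 * c ^ 2 - 4 * c1 * g)
      + (4 * c * J.u 0 1 ^ 3 * J.pd 0 0 (J.pd 0 0 g) - 2 * c * c1 * J.u 0 1))) :
    c = 0 ∧ (g = 0 ∨ c1 = 0) := by
  have hch := J.charZero
  have hgx : J.FX (J.pd 0 0 g) := hg.P _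
  have hgxx : J.FX (J.pd 0 0 (J.pd 0 0 g)) := hgx.P _
  have u1 : J.pd 0 2 (J.u 0 2) = 1 := by rw [J.pd_u]; norm_num
  have u2 : J.pd 0 2 (J.u 1 1) = 0 := by rw [J.pd_u]; norm_num
  have u3 : J.pd 0 2 (J.u 0 1) = 0 := by rw [J.pd_u]; norm_num
  have u4 : J.pd 0 1 (J.u 0 1) = 1 := by rw [J.pd_u]; norm_num
  have u5 : J.pd 0 1 (J.u 0 2) = 0 := by rw [J.pd_u]; norm_num
  have u6 : J.pd 0 1 (J.u 1 1) = 0 := by rw [J.pd_u]; norm_num
  have g1 : J.pd 0 2 g = 0 := RowZ5_pd hg (by norm_num)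
  have g2 : J.pd 0 2 (J.pd 0 0 g) = 0 := RowZ5_pd hgx (by norm_num)
  have g3 : J.pd 0 2 (J.pd 0 0 (J.pd 0 0 g)) = 0 := RowZ5_pd hgxx (by norm_num)
  have g4 : J.pd 0 1 g = 0 := RowZ5_pd hg (by norm_num)
  have g5 : J.pd 0 1 (J.pd 0 0 g) = 0 := RowZ5_pd hgx (by norm_num)
  have g6 : J.pd 0 1 (J.pd 0 0 (J.pd 0 0 g)) = 0 := RowZ5_pd hgxx (by norm_num)
  have e1 : 6 * c * J.u 0 1 * J.pd 0 0 g - 2 * c ^ 2 - 4 * c1 * g = 0 := by
    have h := hW.pd 0 2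
    simp only [map_add, map_sub, der_mul, dnum, pow_succ, pow_zero, one_mul, hc.pd, hc1.pd, u1, u2, u3, g1,
      g2, g3] at h
    linear_combination h
  have e2 : c * J.pd 0 0 g = 0 := by
    have h := congrArg (J.pd 0 1) e1
    simp only [map_add, map_sub, der_mul, dnum, pow_succ, pow_zero, one_mul, hc.pd, hc1.pd, u4, g4, g5,
      map_zero] at h
    linear_combination (1 / 6) * h
  have e3 : c * J.pd 0 0 (J.pd 0 0 g) = 0 := by
    have h := congrArg (J.pd 0 0) e2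
    rw [der_mul, hc.pd, zero_mul, zero_add, map_zero] at h
    exact h
  have e4 : c * c1 = 0 := by
    rw [e1, mul_zero, zero_add] at hW
    have h := hW.pd 0 1
    simp only [map_add, map_sub, der_mul, dnum, pow_succ, pow_zero, one_mul, hc.pd, hc1.pd, u4, g5,
      g6] at h
    linear_combination (-1 / 2) * h + (6 * J.u 0 1 ^ 2) * e3
  have e5 : 2 * c ^ 2 + 4 * c1 * g = 0 := by
    linear_combination (6 * J.u 0 1) * e2 - e1
  have e6 : c = 0 := by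
    have h : c ^ 3 = 0 := by
      linear_combination (1 / 2) * c * e5 - 2 * g * e4
    exact pow_eq_zero_iff (by norm_num) |>.1 h
  refine ⟨e6, ?_⟩
  have h : c1 * g = 0 := by
    rw [e6] at e5
    linear_combination (1 / 4) * e5
  rcases mul_eq_zero.1 h with h | h
  · exact Or.inr h
  · exact Or.inl h

/-- `A = 0`: either `f = c₁ u_[0,0] + c₀`, or `f = (g u_[0,1])' + c₀` -/
theorem Z5 {f g c c1 c0 : F} (hg : J.FX g) (hc : J.IsC c) (hc1 : J.IsC c1) (hc0 : J.IsC c0)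
    (hform : f = J.D (g * J.u 0 1) - c * J.u 0 1 + c1 * J.u 0 0 + c0)
    (hθ : J.cosL f (-J.mth f) = 0) : c = 0 ∧ (g = 0 ∨ c1 = 0) := by
  have hch := J.charZero
  have hgx : J.FX (J.pd 0 0 g) := hg.P _
  have hgxx : J.FX (J.pd 0 0 (J.pd 0 0 g)) := hgx.P _
  have D1 : J.D (J.u 0 1) = J.u 0 2 + J.u 1 1 := by
    rw [J.D_u]
    exact add_comm _ _
  have D0 : J.D (J.u 0 0) = 2 * J.u 0 1 := by
    rw [J.D_u]
    show J.u 1 0 + J.u 0 1 = _
    rw [J.u_symm 1 0]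
    ring
  have g4 : J.pd 0 1 g = 0 := RowZ5_pd hg (by norm_num)
  have g5 : J.pd 0 1 (J.pd 0 0 g) = 0 := RowZ5_pd hgx (by norm_num)
  have u0 : J.pd 0 0 (J.u 0 0) = 1 := by rw [J.pd_u]; norm_num
  have u1 : J.pd 0 0 (J.u 0 1) = 0 := by rw [J.pd_u]; norm_num
  have u4 : J.pd 0 1 (J.u 0 1) = 1 := by rw [J.pd_u]; norm_num
  have u5 : J.pd 0 1 (J.u 0 0) = 0 := by rw [J.pd_u]; norm_num
  set η : F := 2 * J.u 0 1 ^ 2 * J.pd 0 0 g - c * J.u 0 1 + c1 * J.u 0 0 + c0 with hηdef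
  have hη : J.FXY η := by
    intro a h0 h1
    have v0 : J.T.P a (J.u 0 0) = 0 := RowZ5_u a 0 0 h0
    have v1 : J.T.P a (J.u 0 1) = 0 := RowZ5_u a 0 1 h1
    have v2 : J.T.P a (J.pd 0 0 g) = 0 := hgx a h0
    rw [hηdef]
    simp only [map_add, map_sub, der_mul, dnum, pow_succ, pow_zero, one_mul, v0, v1, v2, hc a, hc1 a, hc0 a]
    ring
  have hform' : f = g * (J.u 0 2 + J.u 1 1) + 0 * J.u 1 2 + 0 / 2 * J.u 1 1 + η := by
    rw [hform, der_mul, D1, hg.D, hηdef]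
    ring
  obtain ⟨hf, h22, h12, h02, hA, hG, hB, hE, hM⟩ :=
    Z3_aux hg.xy hη isC_zero isC_zero hform'
  have hηy : J.pd 0 1 η = 4 * J.u 0 1 * J.pd 0 0 g - c := by
    rw [hηdef]
    simp only [map_add, map_sub, der_mul, dnum, pow_succ, pow_zero, one_mul, u4, u5, g5, hc.pd, hc1.pd, hc0.pd]
    ring
  have hηyy : J.pd 0 1 (J.pd 0 1 η) = 4 * J.pd 0 0 g := by
    rw [hηy]
    simp only [map_add, map_sub, der_mul, dnum, u4, g5, hc.pd]
    ring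
  have hηx : J.pd 0 0 η = 2 * J.u 0 1 ^ 2 * J.pd 0 0 (J.pd 0 0 g) + c1 := by
    rw [hηdef]
    simp only [map_add, map_sub, der_mul, dnum, pow_succ, pow_zero, one_mul, u0, u1, hc.pd, hc1.pd, hc0.pd]
    ring
  have hηxy : J.pd 0 0 (J.pd 0 1 η) = 4 * J.u 0 1 * J.pd 0 0 (J.pd 0 0 g) := by
    rw [hηy]
    simp only [map_add, map_sub, der_mul, dnum, u1, hc.pd]
    ring
  have hG' : J.cG f = c := by
    rw [hG, hηy, g4]
    ring
  have hB' : J.cB f = 2 * c1 := by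
    rw [hB, hηyy, hηx, hηxy, g4, map_zero]
    ring
  have hE' : J.cE f = 2 * c1 * J.u 0 1 := by
    rw [hE, hB']
    ring
  have hM' : J.cM f = c * J.u 0 1 := by
    rw [hM, hG']
    ring
  have hα : J.IsC (J.pd 2 2 f) := by
    rw [h22]
    exact isC_zero
  have h2c1 : J.IsC (2 * c1) := (isC_ofNat 2).mul hc1
  obtain ⟨a0, a1, a2, a3, a4, a5⟩ := hf.c0 hα
  obtain ⟨b0, b1, b2, b3, b5⟩ := hf.c1 hα
  obtain ⟨d0, d1, d2, d5⟩ := hf.c2
  obtain ⟨m6, m5, m4, m3⟩ := mth_hi hf hα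
  have m2 := mth_2 hf hα
  have m1 := mth_1 hf hα
  have m0 := mth_0 hf hα
  rw [h22] at m6
  rw [h22, h12, hA] at m4 m3
  rw [h22, h12, hA, hG', hB', hE', hM'] at m2 m1
  rw [hG', hB', hE', hM', h02] at m0
  simp only [map_zero, mul_zero, zero_mul, add_zero, zero_add, sub_zero, zero_sub, neg_zero, der_mul, dnum,
    hc.D, hc1.D, hc.evo] at m6 m4 m3 m2 m1 m0
  have h1 := congrArg (fun U : F[X] => U.coeff 2) hθ
  have hbig : ∀ i, 6 < i → (-J.mth f).coeff i = 0 := by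
    intro i hi
    rw [coeff_neg, mth_big hf hα i hi, neg_zero]
  simp only [J.coeff_cosL_2 f hbig, coeff_neg, m6, m5, m4, m3, m2, m1, Jet.coeff_Ef, a2, b2, d2, h22, h12, hA,
    coeff_zero] at h1
  simp only [map_zero, mul_zero, zero_mul, add_zero, zero_add, sub_zero, zero_sub, neg_zero, neg_neg,
    der_mul, dnum, hc1.D, hc1.evo, map_neg] at h1
  have hDW : J.D (-(J.mth f).coeff 0 - 2 * c1 * f) = 0 := by
    simp only [map_sub, map_neg, der_mul, dnum, hc1.D]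
    linear_combination (-1 / 3) * h1
  have hW : J.IsC (-(J.mth f).coeff 0 - 2 * c1 * f) := Jet.isC_of_D_zero hDW
  apply RowZ5_alg hg hc hc1
  have hDg : J.D g = 2 * J.u 0 1 * J.pd 0 0 g := hg.D
  have hDgx : J.D (J.pd 0 0 g) = 2 * J.u 0 1 * J.pd 0 0 (J.pd 0 0 g) := hgx.D
  have hDf : J.D f = J.D (J.D (g * J.u 0 1)) - c * (J.u 0 2 + J.u 1 1) + 2 * c1 * J.u 0 1 := by
    rw [hform]
    simp only [map_add, map_sub, der_mul, hc.D, hc1.D, hc0.D, D0, D1]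
    ring
  have e : (J.u 0 2 + J.u 1 1) * (6 * c * J.u 0 1 * J.pd 0 0 g - 2 * c ^ 2 - 4 * c1 * g)
      + (4 * c * J.u 0 1 ^ 3 * J.pd 0 0 (J.pd 0 0 g) - 2 * c * c1 * J.u 0 1)
      = -(J.mth f).coeff 0 - 2 * c1 * f := by
    rw [m0]
    simp only [D1, hDf, der_mul, hDg, hDgx, map_add, dnum]
    ring
  rw [e]
  exact hW

end Pool.Agent.Lib.MP_4d1bc1_mp.Kv
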